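import Mathlib

/-!
# Galois action on `ℂ_[p]` and the local cyclotomic character

Basic definitions used by the proof that `⟨ε⟩^{-1/2}` is not de Rham.
-/

noncomputable section

open scoped NNReal

namespace Helper75K9.FM

variable (p : ℕ) [Fact p.Prime]

/-- The absolute Galois group of `ℚ_[p]`. -/
abbrev Gp : Type := PadicAlgCl p ≃ₐ[ℚ_[p]] PadicAlgCl p

variable {p}

/-- Galois automorphisms of `PadicAlgCl p` are isometries. -/
theorem norm_gal (g : Gp p) (x : PadicAlgCl p) : ‖g x‖ = ‖x‖ := by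
  rw [← PadicAlgCl.spectralNorm_eq, ← PadicAlgCl.spectralNorm_eq]
  exact (spectralNorm_eq_of_equiv g x).symm

theorem isometry_gal (g : Gp p) : Isometry (g : PadicAlgCl p → PadicAlgCl p) := by
  refine Isometry.of_dist_eq fun x y => ?_
  rw [dist_eq_norm, dist_eq_norm, ← map_sub, norm_gal]

theorem continuous_gal (g : Gp p) :
    Continuous ((g : PadicAlgCl p ≃+* PadicAlgCl p) : PadicAlgCl p →+* PadicAlgCl p) :=
  (isometry_gal g).continuous

/-- The ring endomorphism of `ℂ_[p]` extending `g` by continuity. -/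
def galHom (g : Gp p) : ℂ_[p] →+* ℂ_[p] :=
  UniformSpace.Completion.mapRingHom
    ((g : PadicAlgCl p ≃+* PadicAlgCl p) : PadicAlgCl p →+* PadicAlgCl p) (continuous_gal g)

theorem galHom_coe (g : Gp p) (x : PadicAlgCl p) :
    galHom g (x : ℂ_[p]) = ((g x : PadicAlgCl p) : ℂ_[p]) :=
  UniformSpace.Completion.mapRingHom_coe (continuous_gal g) x

theorem continuous_galHom (g : Gp p) : Continuous (galHom g) :=
  UniformSpace.Completion.continuous_map

theorem galHom_mul (g h : Gp p) (x : ℂ_[p]) : galHom (g * h) x = galHom g (galHom h x) := by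
  induction x using UniformSpace.Completion.induction_on with
  | hp => exact isClosed_eq (continuous_galHom _) ((continuous_galHom _).comp (continuous_galHom _))
  | ih a => simp only [galHom_coe, AlgEquiv.mul_apply]

theorem galHom_one (x : ℂ_[p]) : galHom (1 : Gp p) x = x := by
  induction x using UniformSpace.Completion.induction_on with
  | hp => exact isClosed_eq (continuous_galHom _) continuous_id
  | ih a => simp only [galHom_coe, AlgEquiv.one_apply]

/-- The action of `Gal(ℚ̄_p/ℚ_p)` on `ℂ_[p]` by ring automorphisms (extension by continuity). -/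
def galC : Gp p →* (ℂ_[p] ≃+* ℂ_[p]) where
  toFun g :=
    { toFun := galHom g
      invFun := galHom g⁻¹
      left_inv := fun x => by rw [← galHom_mul, inv_mul_cancel, galHom_one]
      right_inv := fun x => by rw [← galHom_mul, mul_inv_cancel, galHom_one]
      map_mul' := map_mul _
      map_add' := map_add _ }
  map_one' := by
    ext x
    exact galHom_one x
  map_mul' g h := by
    ext x
    exact galHom_mul g h x

theorem galC_apply (g : Gp p) (x : ℂ_[p]) : galC g x = galHom g x := rfl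

@[simp] theorem galC_coe (g : Gp p) (x : PadicAlgCl p) :
    galC g (x : ℂ_[p]) = ((g x : PadicAlgCl p) : ℂ_[p]) := galHom_coe g x

theorem continuous_galC (g : Gp p) : Continuous (galC g) := continuous_galHom g

theorem norm_galC (g : Gp p) (x : ℂ_[p]) : ‖galC g x‖ = ‖x‖ := by
  induction x using UniformSpace.Completion.induction_on with
  | hp => exact isClosed_eq (continuous_norm.comp (continuous_galC _)) continuous_norm
  | ih a => simp only [galC_coe, PadicComplex.norm_extends, norm_gal]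

/-- The local cyclotomic character `Gal(ℚ̄_p/ℚ_p) → ℤ_pˣ`. -/
def cyc : Gp p →* ℤ_[p]ˣ :=
  (cyclotomicCharacter (PadicAlgCl p) p).comp
    { toFun := fun g => (g : PadicAlgCl p ≃+* PadicAlgCl p)
      map_one' := rfl
      map_mul' := fun _ _ => rfl }

/-- The intermediate field `ℚ_p(μ_{p^M})`. -/
def Kcyc (p : ℕ) [Fact p.Prime] (M : ℕ) : IntermediateField ℚ_[p] (PadicAlgCl p) :=
  IntermediateField.adjoin ℚ_[p] {x | x ^ p ^ M = 1}

theorem Kcyc_mono {M N : ℕ} (h : M ≤ N) : Kcyc p M ≤ Kcyc p N := by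
  refine IntermediateField.adjoin.mono _ _ _ ?_
  intro x hx
  obtain ⟨k, rfl⟩ := Nat.exists_eq_add_of_le h
  have hx' : x ^ p ^ M = 1 := hx
  show x ^ p ^ (M + k) = 1
  rw [pow_add, pow_mul, hx', one_pow]

/-- `g` acts on a `p^n`-th root of unity `t` by `t ↦ t ^ a` for any natural number `a`
congruent to `cyc g` modulo `p^n`. -/
theorem gal_rootOfUnity (g : Gp p) {n : ℕ} {t : PadicAlgCl p} (ht : t ^ p ^ n = 1) (a : ℕ)
    (ha : (p : ℤ_[p]) ^ n ∣ (cyc g : ℤ_[p]) - a) : g t = t ^ a := by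
  have h1 : g t = t ^ ((cyc g : ℤ_[p]).toZModPow n).val :=
    cyclotomicCharacter.spec (L := PadicAlgCl p) p (g : PadicAlgCl p ≃+* PadicAlgCl p) t ht
  have h2 : ((cyc g : ℤ_[p]).toZModPow n) = ((a : ℕ) : ZMod (p ^ n)) := by
    have : ((cyc g : ℤ_[p]) - a) ∈ RingHom.ker (PadicInt.toZModPow (p := p) n) := by
      rw [PadicInt.ker_toZModPow, Ideal.mem_span_singleton]
      exact ha
    rw [RingHom.mem_ker, map_sub, map_natCast, sub_eq_zero] at this
    exact this
  rw [h1, h2, ZMod.val_natCast]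
  conv_rhs => rw [← Nat.div_add_mod a (p ^ n), pow_add, pow_mul, ht, one_pow, one_mul]

/-- Conversely, if `g ζ = ζ ^ a` for a primitive `p^n`-th root of unity `ζ`, then
`cyc g ≡ a mod p^n`. -/
theorem cyc_of_primitive (g : Gp p) {n : ℕ} {ζ : PadicAlgCl p} (hζ : IsPrimitiveRoot ζ (p ^ n))
    (a : ℕ) (h : g ζ = ζ ^ a) : (p : ℤ_[p]) ^ n ∣ (cyc g : ℤ_[p]) - a := by
  have h1 : g ζ = ζ ^ ((cyc g : ℤ_[p]).toZModPow n).val :=
    cyclotomicCharacter.spec (L := PadicAlgCl p) p (g : PadicAlgCl p ≃+* PadicAlgCl p) ζ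
      hζ.pow_eq_one
  have h2 : ((cyc g : ℤ_[p]) - a) ∈ RingHom.ker (PadicInt.toZModPow (p := p) n) := by
    rw [RingHom.mem_ker, map_sub, map_natCast, sub_eq_zero]
    rw [h] at h1
    have hpos : 0 < p ^ n := pow_pos (Fact.out : p.Prime).pos n
    have h4 : ζ ^ a = ζ ^ (a % p ^ n) := by
      conv_lhs => rw [← Nat.div_add_mod a (p ^ n), pow_add, pow_mul, hζ.pow_eq_one, one_pow,
        one_mul]
    have h5 : a % p ^ n = ((cyc g : ℤ_[p]).toZModPow n).val :=
      hζ.pow_inj (Nat.mod_lt _ hpos) (ZMod.val_lt _) (by rw [← h4, h1])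
    have h3 : a ≡ ((cyc g : ℤ_[p]).toZModPow n).val [MOD p ^ n] := by
      rw [← h5]
      exact (Nat.mod_modEq a (p ^ n)).symm
    rw [← ZMod.natCast_zmod_val ((PadicInt.toZModPow n) (cyc g : ℤ_[p])),
      ZMod.natCast_eq_natCast_iff]
    exact h3.symm
  rw [PadicInt.ker_toZModPow, Ideal.mem_span_singleton] at h2
  exact h2

/-- `g` fixes `ℚ_p(μ_{p^M})` pointwise as soon as `cyc g ≡ 1 mod p^M`. -/
theorem fixes_Kcyc (g : Gp p) {M : ℕ} (hg : (p : ℤ_[p]) ^ M ∣ (cyc g : ℤ_[p]) - 1)
    {x : PadicAlgCl p} (hx : x ∈ Kcyc p M) : g x = x := by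
  have h : Kcyc p M ≤ IntermediateField.fixedField (Subgroup.zpowers g) := by
    refine IntermediateField.adjoin_le_iff.2 ?_
    intro t ht
    have ht' : t ^ p ^ M = 1 := ht
    have h1 : g t = t := by
      have := gal_rootOfUnity g ht' 1 (by simpa using hg)
      simpa using this
    rw [SetLike.mem_coe, IntermediateField.mem_fixedField_iff]
    intro f hf
    obtain ⟨k, rfl⟩ := Subgroup.mem_zpowers_iff.1 hf
    have hs : g ∈ MulAction.stabilizer (Gp p) t := h1
    exact (MulAction.stabilizer (Gp p) t).zpow_mem hs k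
  have hx' := h hx
  rw [IntermediateField.mem_fixedField_iff] at hx'
  exact hx' g (Subgroup.mem_zpowers g)

/-- if `g` fixes all `p`-power roots of unity then `cyc g = 1`. -/
theorem cyc_eq_one_of_fixes (g : Gp p)
    (h : ∀ M, ∀ x ∈ Kcyc p M, g x = x) : cyc g = 1 := by
  have key : ∀ n : ℕ, (p : ℤ_[p]) ^ n ∣ (cyc g : ℤ_[p]) - 1 := by
    intro n
    obtain ⟨ζ, hζ⟩ := HasEnoughRootsOfUnity.exists_primitiveRoot (PadicAlgCl p) (p ^ n)
    have h1 : g ζ = ζ ^ 1 := by
      rw [pow_one]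
      exact h n ζ (IntermediateField.subset_adjoin _ _ hζ.pow_eq_one)
    simpa using cyc_of_primitive g hζ 1 h1
  have h2 : (cyc g : ℤ_[p]) - 1 = 0 := by
    by_contra hne
    obtain ⟨n, hn⟩ := PadicInt.exists_pow_neg_lt p (norm_pos_iff.2 hne)
    have h3 := (PadicInt.norm_le_pow_iff_mem_span_pow ((cyc g : ℤ_[p]) - 1) n).2
      (Ideal.mem_span_singleton.2 (key n))
    exact absurd h3 (not_le.2 hn)
  ext
  exact sub_eq_zero.1 h2

end Helper75K9.FM
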