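import Mathlib
import Pool.Agent.Helper75K9.FM.Base
import Pool.Agent.Helper35K9.Ax

/-!
# Ax's lemma and the closure of `ℚ_p(μ_{p^∞})`
-/

noncomputable section

namespace Helper75K9.FM

variable {p : ℕ} [Fact p.Prime]

/-- **Ax's lemma** with the constant `p ^ 2`. -/
theorem ax_approx (K : IntermediateField ℚ_[p] (PadicAlgCl p)) (α : PadicAlgCl p) (δ : ℝ)
    (hδ : ∀ g : Gp p, (∀ x ∈ K, g x = x) → ‖g α - α‖ ≤ δ) :
    ∃ β ∈ K, ‖α - β‖ ≤ (p : ℝ) ^ 2 * δ := by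
  obtain ⟨a, ha⟩ := Pool.Agent.Helper35K9.Ax.ax_approx p K α δ (by
    intro σ
    have := hδ (σ.restrictScalars ℚ_[p]) (by
      intro x hx
      exact σ.commutes ⟨x, hx⟩)
    exact this)
  exact ⟨a, a.2, ha⟩

/-- an element of `ℂ_p` fixed by all automorphisms with trivial cyclotomic character is a limit of
elements of `ℚ_p(μ_{p^∞})` -/
theorem ax_closure (x : ℂ_[p]) (hx : ∀ g : Gp p, cyc g = 1 → galC g x = x) (ε : ℝ) (hε : 0 < ε) :
    ∃ M : ℕ, ∃ β ∈ Kcyc p M, ‖x - (β : ℂ_[p])‖ < ε := by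
  have hp1 : (1 : ℝ) ≤ p := by exact_mod_cast (Fact.out : p.Prime).pos
  have hp0 : (0 : ℝ) < p := by linarith
  have hpp : (1 : ℝ) ≤ (p : ℝ) ^ 2 := one_le_pow₀ hp1
  set η : ℝ := ε / (2 * (p : ℝ) ^ 2) with hη
  have hη0 : 0 < η := by positivity
  -- approximate `x` by an algebraic number
  obtain ⟨α, hα⟩ : ∃ α : PadicAlgCl p, ‖x - (α : ℂ_[p])‖ < η := by
    have hd : DenseRange ((↑) : PadicAlgCl p → ℂ_[p]) := UniformSpace.Completion.denseRange_coe
    obtain ⟨y, hy, hxy⟩ := Metric.mem_closure_iff.1 (hd.closure_range ▸ Set.mem_univ x) η hη0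
    obtain ⟨α, rfl⟩ := hy
    exact ⟨α, by rwa [← dist_eq_norm]⟩
  have hinv : ∀ g : Gp p, (∀ y ∈ (⨆ M, Kcyc p M : IntermediateField ℚ_[p] (PadicAlgCl p)),
      g y = y) → ‖g α - α‖ ≤ η := by
    intro g hg
    have hc : cyc g = 1 := cyc_eq_one_of_fixes g fun M y hy => hg y (le_iSup (Kcyc p) M hy)
    have h1 := hx g hc
    rw [← PadicComplex.norm_extends, UniformSpace.Completion.coe_sub, ← galC_coe]
    have e : galC g (α : ℂ_[p]) - (α : ℂ_[p]) =
        (x - (α : ℂ_[p])) + -galC g (x - (α : ℂ_[p])) := by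
      rw [map_sub, h1]
      ring
    rw [e]
    refine (IsUltrametricDist.norm_add_le_max _ _).trans (max_le hα.le ?_)
    rw [norm_neg, norm_galC]
    exact hα.le
  obtain ⟨β, hβ, hαβ⟩ := ax_approx _ α η hinv
  have hdir : Directed (· ≤ ·) (Kcyc p) := by
    intro a b
    exact ⟨max a b, Kcyc_mono (le_max_left a b), Kcyc_mono (le_max_right a b)⟩
  obtain ⟨M, hM⟩ : ∃ M, β ∈ Kcyc p M := by
    rw [← SetLike.mem_coe, IntermediateField.coe_iSup_of_directed hdir, Set.mem_iUnion] at hβ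
    exact hβ
  refine ⟨M, β, hM, ?_⟩
  have e : x - (β : ℂ_[p]) = (x - (α : ℂ_[p])) + ((α - β : PadicAlgCl p) : ℂ_[p]) := by
    rw [UniformSpace.Completion.coe_sub]
    ring
  rw [e]
  refine lt_of_le_of_lt (IsUltrametricDist.norm_add_le_max _ _) ?_
  have h3 : (p : ℝ) ^ 2 * η = ε / 2 := by
    rw [hη]
    field_simp
  have h4 : η ≤ ε / 2 := by
    rw [← h3]
    nlinarith
  apply lt_of_le_of_lt (max_le (hα.le.trans h4) ?_) (by linarith : ε / 2 < ε)
  rw [PadicComplex.norm_extends, ← h3]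
  exact hαβ

end Helper75K9.FM
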