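import Mathlib

/-!
# Functoriality of Mathlib's period rings `BDeRhamPlus`, `BDeRham`

For a ring automorphism `σ` of a `p`-adically complete ring `R` we construct the induced
ring endomorphism `bdrMap σ` of `BDeRham R p` (all constructions used by Mathlib are functorial).
-/

set_option linter.unusedSectionVars false

noncomputable section

universe u

namespace Helper75K9.BdR

section abstract

variable {A : Type*} [CommRing A]

/-- The submonoid inverted in Mathlib's definition of `B_dR`: generated by the images of the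
generators of the ideal `I` (`= ker θ`). -/
abbrev genMonoid (I : Ideal A) : Submonoid (AdicCompletion I A) :=
  Submonoid.closure (AdicCompletion.of I A '' {a | I = Ideal.span {a}})

theorem le_comap_pow' {I : Ideal A} {φ : A →+* A} (h : I ≤ I.comap φ) (n : ℕ) :
    I ^ n ≤ (I ^ n).comap φ :=
  (Ideal.pow_right_mono h n).trans (Ideal.le_comap_pow φ n)

theorem bplusMap_compat (I : Ideal A) (φ : A →+* A) (h : I ≤ I.comap φ) {m n : ℕ} (hle : m ≤ n) :
    (Ideal.Quotient.factorPow I hle).comp
      ((Ideal.quotientMap (I ^ n) φ (le_comap_pow' h n)).comp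
      ((AdicCompletion.evalₐ I n : AdicCompletion I A →ₐ[A] A ⧸ I ^ n) :
        AdicCompletion I A →+* A ⧸ I ^ n)) =
      (Ideal.quotientMap (I ^ m) φ (le_comap_pow' h m)).comp
      ((AdicCompletion.evalₐ I m : AdicCompletion I A →ₐ[A] A ⧸ I ^ m) :
        AdicCompletion I A →+* A ⧸ I ^ m) := by
  ext x
  obtain ⟨r, rfl⟩ := AdicCompletion.mk_surjective I A x
  simp only [RingHom.comp_apply, RingHom.coe_coe, AdicCompletion.evalₐ_mk,
    Ideal.quotientMap_mk]
  show Ideal.Quotient.mk (I ^ m) (φ (r n)) = Ideal.Quotient.mk (I ^ m) (φ (r m))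
  rw [Ideal.Quotient.eq, ← map_sub]
  refine le_comap_pow' h m ?_
  rw [← Ideal.Quotient.eq]
  exact AdicCompletion.Ideal.mk_eq_mk I hle r

/-- `lim A/Iⁿ → lim A/Iⁿ` induced by an endomorphism `φ` of `A` with `φ(I) ⊆ I`. -/
def bplusMap (I : Ideal A) (φ : A →+* A) (h : I ≤ I.comap φ) :
    AdicCompletion I A →+* AdicCompletion I A :=
  AdicCompletion.liftRingHom I
    (fun n => (Ideal.quotientMap (I ^ n) φ (le_comap_pow' h n)).comp
      ((AdicCompletion.evalₐ I n : AdicCompletion I A →ₐ[A] A ⧸ I ^ n) :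
        AdicCompletion I A →+* A ⧸ I ^ n))
    (fun hle => bplusMap_compat I φ h hle)

theorem evalₐ_bplusMap (I : Ideal A) (φ : A →+* A) (h : I ≤ I.comap φ) (n : ℕ)
    (x : AdicCompletion I A) :
    AdicCompletion.evalₐ I n (bplusMap I φ h x) =
      Ideal.quotientMap (I ^ n) φ (le_comap_pow' h n) (AdicCompletion.evalₐ I n x) :=
  AdicCompletion.evalₐ_liftRingHom I _ (fun hle => bplusMap_compat I φ h hle) n x

theorem bplusMap_of (I : Ideal A) (φ : A →+* A) (h : I ≤ I.comap φ) (a : A) :
    bplusMap I φ h (AdicCompletion.of I A a) = AdicCompletion.of I A (φ a) := by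
  refine AdicCompletion.ext_evalₐ fun n => ?_
  rw [evalₐ_bplusMap]
  simp

theorem genMonoid_le_comap (I : Ideal A) (φ : A ≃+* A) (h : I ≤ I.comap (φ : A →+* A))
    (h' : I ≤ I.comap (φ.symm : A →+* A)) :
    genMonoid I ≤ (genMonoid I).comap (bplusMap I (φ : A →+* A) h) := by
  refine Submonoid.closure_le.2 ?_
  rintro _ ⟨a, ha, rfl⟩
  show bplusMap I (φ : A →+* A) h (AdicCompletion.of I A a) ∈ genMonoid I
  rw [bplusMap_of]
  refine Submonoid.subset_closure ⟨φ a, ?_, rfl⟩
  show I = Ideal.span {φ a}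
  have ha' : I = Ideal.span {a} := ha
  apply le_antisymm
  · intro x hx
    have h1 : φ.symm x ∈ I := h' hx
    rw [ha', Ideal.mem_span_singleton] at h1
    obtain ⟨c, hc⟩ := h1
    rw [Ideal.mem_span_singleton]
    refine ⟨φ c, ?_⟩
    rw [← map_mul, ← hc, RingEquiv.apply_symm_apply]
  · rw [Ideal.span_singleton_le_iff_mem]
    exact h (by rw [ha']; exact Ideal.mem_span_singleton_self a)

/-- the localization `B⁺[1/ξ]` -/
abbrev BFull (I : Ideal A) : Type _ := Localization (genMonoid I)

/-- endomorphism of `B⁺[1/ξ]` induced by an automorphism of `A` preserving `I`. -/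
def bfullMap (I : Ideal A) (φ : A ≃+* A) (h : I ≤ I.comap (φ : A →+* A))
    (h' : I ≤ I.comap (φ.symm : A →+* A)) : BFull I →+* BFull I :=
  IsLocalization.map (BFull I) (bplusMap I (φ : A →+* A) h) (genMonoid_le_comap I φ h h')

theorem bfullMap_algebraMap (I : Ideal A) (φ : A ≃+* A) (h : I ≤ I.comap (φ : A →+* A))
    (h' : I ≤ I.comap (φ.symm : A →+* A)) (x : AdicCompletion I A) :
    bfullMap I φ h h' (algebraMap _ (BFull I) x) =
      algebraMap _ (BFull I) (bplusMap I (φ : A →+* A) h x) :=
  IsLocalization.map_eq _ x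

/-- `A → B⁺[1/ξ]` -/
def ofA (I : Ideal A) : A →+* BFull I :=
  (algebraMap (AdicCompletion I A) (BFull I)).comp (algebraMap A (AdicCompletion I A))

theorem ofA_apply (I : Ideal A) (a : A) :
    ofA I a = algebraMap (AdicCompletion I A) (BFull I) (AdicCompletion.of I A a) := rfl

theorem bfullMap_ofA (I : Ideal A) (φ : A ≃+* A) (h : I ≤ I.comap (φ : A →+* A))
    (h' : I ≤ I.comap (φ.symm : A →+* A)) (a : A) :
    bfullMap I φ h h' (ofA I a) = ofA I (φ a) := by
  rw [ofA_apply, bfullMap_algebraMap, bplusMap_of, ofA_apply]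
  rfl

end abstract

section theta

variable (R : Type u) [CommRing R] (p : ℕ) [Fact p.Prime]


/-- `R/p → R/p` induced by `σ : R ≃+* R`. -/
def modPMap (σ : R ≃+* R) : ModP R p ≃+* ModP R p :=
  Ideal.quotientEquiv _ _ σ (by simp [Ideal.map_span])

@[simp] theorem modPMap_mk (σ : R ≃+* R) (x : R) :
    modPMap R p σ (Ideal.Quotient.mk _ x) = Ideal.Quotient.mk _ (σ x) := by
  simp [modPMap]

variable [Fact ¬IsUnit (p : R)]

/-- `R♭ → R♭` -/
def tiltMap (σ : R ≃+* R) : PreTilt R p →+* PreTilt R p :=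
  Perfection.map p (modPMap R p σ : ModP R p →+* ModP R p)

@[simp] theorem coeff_tiltMap (σ : R ≃+* R) (x : PreTilt R p) (n : ℕ) :
    PreTilt.coeff n (tiltMap R p σ x) = modPMap R p σ (PreTilt.coeff n x) := rfl

/-- `W(R♭) → W(R♭)` -/
def ainfMap (σ : R ≃+* R) : WittVector p (PreTilt R p) →+* WittVector p (PreTilt R p) := WittVector.map (tiltMap R p σ)

@[simp] theorem ainfMap_teichmuller (σ : R ≃+* R) (x : PreTilt R p) :
    ainfMap R p σ (WittVector.teichmuller p x) = WittVector.teichmuller p (tiltMap R p σ x) :=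
  WittVector.map_teichmuller _ _ _

theorem tiltMap_symm_apply (σ : R ≃+* R) (x : PreTilt R p) : tiltMap R p σ.symm (tiltMap R p σ x) = x := by
  refine Perfection.ext fun n => ?_
  show modPMap R p σ.symm (modPMap R p σ (PreTilt.coeff n x)) = PreTilt.coeff n x
  obtain ⟨r, hr⟩ := Ideal.Quotient.mk_surjective (PreTilt.coeff n x)
  rw [← hr, modPMap_mk, modPMap_mk, RingEquiv.symm_apply_apply]

theorem tiltMap_apply_symm (σ : R ≃+* R) (x : PreTilt R p) : tiltMap R p σ (tiltMap R p σ.symm x) = x := by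
  refine Perfection.ext fun n => ?_
  show modPMap R p σ (modPMap R p σ.symm (PreTilt.coeff n x)) = PreTilt.coeff n x
  obtain ⟨r, hr⟩ := Ideal.Quotient.mk_surjective (PreTilt.coeff n x)
  rw [← hr, modPMap_mk, modPMap_mk, RingEquiv.apply_symm_apply]

/-- `W(R♭) ≃ W(R♭)` -/
def ainfEquiv (σ : R ≃+* R) : WittVector p (PreTilt R p) ≃+* WittVector p (PreTilt R p) where
  toFun := ainfMap R p σ
  invFun := ainfMap R p σ.symm
  left_inv x := by
    ext n
    simp only [ainfMap, WittVector.map_coeff, tiltMap_symm_apply]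
  right_inv x := by
    ext n
    simp only [ainfMap, WittVector.map_coeff, tiltMap_apply_symm]
  map_mul' := map_mul _
  map_add' := map_add _

open WittVector in
theorem untilt_tiltMap [IsAdicComplete (Ideal.span {(p : R)}) R] (σ : R ≃+* R) (x : PreTilt R p) :
    (tiltMap R p σ x).untilt = σ x.untilt := by
  refine Perfection.teichmuller_spec (p := p) (I := Ideal.span {(p : R)}) fun n => ?_
  obtain ⟨z, hz⟩ := Ideal.Quotient.mk_surjective (PreTilt.coeff n x)
  refine ⟨σ z, ?_, ?_⟩
  · show _ = modPMap R p σ (PreTilt.coeff n x)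
    rw [← hz, modPMap_mk]
  · have h1 := Perfection.teichmuller_sModEq (p := p) (I := Ideal.span {(p : R)}) (x := x) hz
    have h2 : x.untilt - z ^ p ^ n ∈ Ideal.span {(p : R)} ^ (n + 1) := by
      rw [SModEq.sub_mem] at h1
      exact h1
    rw [SModEq.sub_mem]
    rw [Ideal.span_singleton_pow, Ideal.mem_span_singleton] at h2 ⊢
    have h3 := map_dvd σ h2
    rw [map_pow, map_natCast, map_sub, map_pow] at h3
    rw [← neg_sub]
    exact (dvd_neg).2 h3

open WittVector in
theorem theta_ainfMap [IsAdicComplete (Ideal.span {(p : R)}) R] (σ : R ≃+* R) (x : WittVector p (PreTilt R p)) :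
    fontaineTheta R p (ainfMap R p σ x) = σ (fontaineTheta R p x) := by
  rw [IsHausdorff.eq_iff_smodEq (I := Ideal.span {(p : R)})]
  intro n
  rw [SModEq.sub_mem, smul_eq_mul, Ideal.mul_top]
  rw [← Ideal.Quotient.eq]
  have key : ((Ideal.Quotient.mk (Ideal.span {(p : R)} ^ n)).comp
      ((fontaineTheta R p).comp (ainfMap R p σ))) =
      (Ideal.Quotient.mk (Ideal.span {(p : R)} ^ n)).comp
        ((σ : R →+* R).comp (fontaineTheta R p)) := by
    refine eq_of_apply_teichmuller_eq _ _ ⟨n, ?_⟩ ?_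
    · have : ((p : ℕ) : R ⧸ Ideal.span {(p : R)} ^ n) =
          Ideal.Quotient.mk (Ideal.span {(p : R)} ^ n) (p : R) := by simp
      rw [this, ← map_pow, Ideal.Quotient.eq_zero_iff_mem]
      exact Ideal.pow_mem_pow (Ideal.mem_span_singleton_self _) _
    · intro y
      simp only [RingHom.comp_apply, ainfMap_teichmuller, fontaineTheta_teichmuller,
        untilt_tiltMap]
      rfl
  exact congrFun (congrArg DFunLike.coe key) x

section invertP

variable [IsAdicComplete (Ideal.span {(p : R)}) R]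

theorem map_powers_p (σ : R ≃+* R) :
    Submonoid.map (ainfEquiv R p σ).toMonoidHom (Submonoid.powers (p : WittVector p (PreTilt R p))) =
      Submonoid.powers (p : WittVector p (PreTilt R p)) := by
  rw [Submonoid.map_powers]
  congr 1
  exact map_natCast (ainfEquiv R p σ) p

/-- `W(R♭)[1/p] ≃ W(R♭)[1/p]` -/
def ainfpEquiv (σ : R ≃+* R) :
    Localization.Away (p : WittVector p (PreTilt R p)) ≃+* Localization.Away (p : WittVector p (PreTilt R p)) :=
  IsLocalization.ringEquivOfRingEquiv _ _ (ainfEquiv R p σ) (map_powers_p R p σ)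

theorem ainfpEquiv_algebraMap (σ : R ≃+* R) (x : WittVector p (PreTilt R p)) :
    ainfpEquiv R p σ (algebraMap _ _ x) = algebraMap _ _ (ainfMap R p σ x) :=
  IsLocalization.ringEquivOfRingEquiv_eq _ _

theorem ainfpEquiv_symm_algebraMap (σ : R ≃+* R) (x : WittVector p (PreTilt R p)) :
    (ainfpEquiv R p σ).symm (algebraMap _ _ x) = algebraMap _ _ (ainfMap R p σ.symm x) := by
  rw [RingEquiv.symm_apply_eq, ainfpEquiv_algebraMap]
  congr 1
  exact ((ainfEquiv R p σ).apply_symm_apply x).symm

theorem map_powers_p' (σ : R ≃+* R) :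
    Submonoid.map σ.toMonoidHom (Submonoid.powers (p : R)) = Submonoid.powers (p : R) := by
  rw [Submonoid.map_powers]
  congr 1
  exact map_natCast σ p

/-- `R[1/p] ≃ R[1/p]` -/
def rpEquiv (σ : R ≃+* R) : Localization.Away (p : R) ≃+* Localization.Away (p : R) :=
  IsLocalization.ringEquivOfRingEquiv _ _ σ (map_powers_p' R p σ)

theorem rpEquiv_algebraMap (σ : R ≃+* R) (x : R) :
    rpEquiv R p σ (algebraMap _ _ x) = algebraMap _ _ (σ x) :=
  IsLocalization.ringEquivOfRingEquiv_eq _ _

theorem thetaP_algebraMap (x : WittVector p (PreTilt R p)) :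
    fontaineThetaInvertP R p (algebraMap _ _ x) =
      algebraMap _ _ (WittVector.fontaineTheta R p x) := by
  rw [fontaineThetaInvertP, Localization.awayLift, IsLocalization.Away.lift_eq]
  rfl

theorem thetaP_ainfpEquiv (σ : R ≃+* R) (x : Localization.Away (p : WittVector p (PreTilt R p))) :
    fontaineThetaInvertP R p (ainfpEquiv R p σ x) =
      rpEquiv R p σ (fontaineThetaInvertP R p x) := by
  have key : (fontaineThetaInvertP R p).comp (ainfpEquiv R p σ : _ →+* _) =
      ((rpEquiv R p σ : _ →+* _)).comp (fontaineThetaInvertP R p) := by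
    refine IsLocalization.ringHom_ext (Submonoid.powers (p : WittVector p (PreTilt R p))) ?_
    ext x
    simp only [RingHom.comp_apply, RingHom.coe_coe, ainfpEquiv_algebraMap, thetaP_algebraMap,
      theta_ainfMap, rpEquiv_algebraMap]
  exact congrFun (congrArg DFunLike.coe key) x

theorem ker_le_comap (σ : R ≃+* R) :
    RingHom.ker (fontaineThetaInvertP R p) ≤
      (RingHom.ker (fontaineThetaInvertP R p)).comap (ainfpEquiv R p σ : _ →+* _) := by
  intro x hx
  rw [Ideal.mem_comap, RingHom.mem_ker]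
  rw [RingHom.mem_ker] at hx
  show fontaineThetaInvertP R p (ainfpEquiv R p σ x) = 0
  rw [thetaP_ainfpEquiv, hx, map_zero]

theorem ainfpEquiv_symm (σ : R ≃+* R) : (ainfpEquiv R p σ).symm = ainfpEquiv R p σ.symm := by
  apply RingEquiv.toRingHom_injective
  refine IsLocalization.ringHom_ext (Submonoid.powers (p : WittVector p (PreTilt R p))) ?_
  ext x
  simp only [RingHom.comp_apply, RingEquiv.toRingHom_eq_coe, RingHom.coe_coe,
    ainfpEquiv_algebraMap, ainfpEquiv_symm_algebraMap]

theorem ker_le_comap_symm (σ : R ≃+* R) :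
    RingHom.ker (fontaineThetaInvertP R p) ≤
      (RingHom.ker (fontaineThetaInvertP R p)).comap ((ainfpEquiv R p σ).symm : _ →+* _) := by
  rw [ainfpEquiv_symm]
  exact ker_le_comap R p σ.symm

instance : CommRing (BDeRham R p) :=
  inferInstanceAs (CommRing (BFull (RingHom.ker (fontaineThetaInvertP R p))))

/-- The ring endomorphism of Mathlib's `B_dR(R)` induced by functoriality by an automorphism
`σ` of `R`. -/
def bdrMap (σ : R ≃+* R) : BDeRham R p →+* BDeRham R p :=
  bfullMap (RingHom.ker (fontaineThetaInvertP R p)) (ainfpEquiv R p σ) (ker_le_comap R p σ)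
    (ker_le_comap_symm R p σ)

/-- The canonical map `W(R♭) → B_dR(R)`. -/
def ainfToBdR : WittVector p (PreTilt R p) →+* BDeRham R p :=
  (ofA (RingHom.ker (fontaineThetaInvertP R p))).comp
      (algebraMap (WittVector p (PreTilt R p)) (Localization.Away (p : WittVector p (PreTilt R p))))

theorem bdrMap_ainfToBdR (σ : R ≃+* R) (x : WittVector p (PreTilt R p)) :
    bdrMap R p σ (ainfToBdR R p x) = ainfToBdR R p (ainfMap R p σ x) := by
  have h := bfullMap_ofA (RingHom.ker (fontaineThetaInvertP R p)) (ainfpEquiv R p σ)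
    (ker_le_comap R p σ) (ker_le_comap_symm R p σ) (algebraMap _ _ x)
  rw [ainfpEquiv_algebraMap] at h
  exact h

end invertP

end theta

end Helper75K9.BdR
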