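import Mathlib
import Pool.Agent.Helper75K9.FM.Base

/-!
# The ring of integers `𝓞_ℂ_[p]`: `p`-adic completeness and the Galois action
-/

noncomputable section

open scoped NNReal

namespace Helper75K9.FM

variable {p : ℕ} [Fact p.Prime]

open MonoidWithZeroHom.ValueGroup₀ Valuation in
theorem norm_eq_v (x : ℂ_[p]) : ‖x‖ = ((Valued.v x : ℝ≥0) : ℝ) := by
  rw [PadicComplex.norm_eq_norm]
  simp only [Valued.v.norm_def, PadicComplex.RankOne.hom_eq_embedding]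
  rw [embedding_restrict (PadicComplex.valued p).v x]

theorem mem_Oc_iff (x : ℂ_[p]) : x ∈ 𝓞_ℂ_[p] ↔ ‖x‖ ≤ 1 := by
  rw [norm_eq_v]
  change Valued.v x ≤ 1 ↔ _
  norm_cast

theorem norm_p : ‖(p : ℂ_[p])‖ = (p : ℝ)⁻¹ := by
  rw [norm_eq_v, PadicComplex.valuation_p]
  simp

theorem norm_Oc_le (x : 𝓞_ℂ_[p]) : ‖(x : ℂ_[p])‖ ≤ 1 := (mem_Oc_iff _).1 x.2

theorem one_lt_p : (1 : ℝ) < p := by exact_mod_cast (Fact.out : p.Prime).one_lt

theorem p_pos : (0 : ℝ) < p := by exact_mod_cast (Fact.out : p.Prime).pos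

theorem dvd_iff_norm_le (x y : 𝓞_ℂ_[p]) :
    x ∣ y ↔ ‖(y : ℂ_[p])‖ ≤ ‖(x : ℂ_[p])‖ := by
  constructor
  · rintro ⟨z, rfl⟩
    rw [show ((x * z : 𝓞_ℂ_[p]) : ℂ_[p]) = (x : ℂ_[p]) * z from rfl, norm_mul]
    exact mul_le_of_le_one_right (norm_nonneg _) (norm_Oc_le z)
  · intro h
    by_cases hx : (x : ℂ_[p]) = 0
    · rw [hx, norm_zero] at h
      have h2 : (y : ℂ_[p]) = 0 := norm_le_zero_iff.1 h
      have h3 : y = 0 := Subtype.ext h2
      rw [h3]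
      exact dvd_zero x
    · refine ⟨⟨(y : ℂ_[p]) / x, ?_⟩, ?_⟩
      · rw [mem_Oc_iff, norm_div]
        exact div_le_one_of_le₀ h (norm_nonneg _)
      · ext
        show (y : ℂ_[p]) = x * (y / x)
        rw [mul_div_cancel₀ _ hx]

theorem coe_natCast_Oc (n : ℕ) : ((n : 𝓞_ℂ_[p]) : ℂ_[p]) = n := rfl

theorem not_isUnit_p : ¬ IsUnit ((p : ℕ) : 𝓞_ℂ_[p]) := by
  rw [isUnit_iff_dvd_one, dvd_iff_norm_le]
  intro h
  rw [coe_natCast_Oc, norm_p, show ((1 : 𝓞_ℂ_[p]) : ℂ_[p]) = 1 from rfl, norm_one] at h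
  have := inv_lt_one_of_one_lt₀ (one_lt_p (p := p))
  linarith

instance : Fact (¬ IsUnit ((p : ℕ) : 𝓞_ℂ_[p])) := ⟨not_isUnit_p⟩

theorem mem_span_p_pow_iff (n : ℕ) (x : 𝓞_ℂ_[p]) :
    x ∈ Ideal.span {((p : ℕ) : 𝓞_ℂ_[p])} ^ n ↔ ‖(x : ℂ_[p])‖ ≤ ((p : ℝ)⁻¹) ^ n := by
  rw [Ideal.span_singleton_pow, Ideal.mem_span_singleton, dvd_iff_norm_le,
    show (((p : 𝓞_ℂ_[p]) ^ n : 𝓞_ℂ_[p]) : ℂ_[p]) = (p : ℂ_[p]) ^ n from rfl, norm_pow, norm_p]

instance : IsAdicComplete (Ideal.span {((p : ℕ) : 𝓞_ℂ_[p])}) 𝓞_ℂ_[p] where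
  haus' x hx := by
    have key : ∀ n : ℕ, ‖(x : ℂ_[p])‖ ≤ ((p : ℝ)⁻¹) ^ n := by
      intro n
      have := hx n
      rw [SModEq.zero, smul_eq_mul, Ideal.mul_top, mem_span_p_pow_iff] at this
      exact this
    have h1 : Filter.Tendsto (fun n : ℕ => ((p : ℝ)⁻¹) ^ n) Filter.atTop (nhds 0) :=
      tendsto_pow_atTop_nhds_zero_of_lt_one (inv_nonneg.2 p_pos.le)
        (inv_lt_one_of_one_lt₀ one_lt_p)
    have h2 : ‖(x : ℂ_[p])‖ ≤ 0 := ge_of_tendsto' h1 key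
    exact Subtype.ext (norm_le_zero_iff.1 h2)
  prec' f hf := by
    have key : ∀ m n : ℕ, m ≤ n → ‖(f m : ℂ_[p]) - f n‖ ≤ ((p : ℝ)⁻¹) ^ m := by
      intro m n hmn
      have := hf hmn
      rw [SModEq.sub_mem, smul_eq_mul, Ideal.mul_top, mem_span_p_pow_iff] at this
      exact this
    have h1 : Filter.Tendsto (fun n : ℕ => ((p : ℝ)⁻¹) ^ n) Filter.atTop (nhds 0) :=
      tendsto_pow_atTop_nhds_zero_of_lt_one (inv_nonneg.2 p_pos.le)
        (inv_lt_one_of_one_lt₀ one_lt_p)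
    have hc : CauchySeq (fun n => (f n : ℂ_[p])) := by
      refine cauchySeq_of_le_tendsto_0' _ (fun m n hmn => ?_) h1
      rw [dist_eq_norm]
      exact key m n hmn
    obtain ⟨L, hL⟩ := cauchySeq_tendsto_of_complete hc
    have hL1 : L ∈ 𝓞_ℂ_[p] := by
      rw [mem_Oc_iff]
      exact le_of_tendsto' hL.norm (fun n => norm_Oc_le (f n))
    refine ⟨⟨L, hL1⟩, fun n => ?_⟩
    rw [SModEq.sub_mem, smul_eq_mul, Ideal.mul_top, mem_span_p_pow_iff]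
    show ‖(f n : ℂ_[p]) - L‖ ≤ _
    refine le_of_tendsto (((tendsto_const_nhds (x := (f n : ℂ_[p]))).sub hL).norm) ?_
    filter_upwards [Filter.eventually_ge_atTop n] with m hm
    exact key n m hm

/-- the Galois action on `𝓞_ℂ_[p]` -/
def galO : Gp p →* (𝓞_ℂ_[p] ≃+* 𝓞_ℂ_[p]) where
  toFun g :=
    { toFun := fun x => ⟨galC g x, by rw [mem_Oc_iff, norm_galC]; exact norm_Oc_le x⟩
      invFun := fun x => ⟨galC g⁻¹ x, by rw [mem_Oc_iff, norm_galC]; exact norm_Oc_le x⟩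
      left_inv := fun x => by
        ext
        show galHom g⁻¹ (galHom g (x : ℂ_[p])) = x
        rw [← galHom_mul, inv_mul_cancel, galHom_one]
      right_inv := fun x => by
        ext
        show galHom g (galHom g⁻¹ (x : ℂ_[p])) = x
        rw [← galHom_mul, mul_inv_cancel, galHom_one]
      map_mul' := fun x y => by
        ext
        exact map_mul (galC g) (x : ℂ_[p]) y
      map_add' := fun x y => by
        ext
        exact map_add (galC g) (x : ℂ_[p]) y }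
  map_one' := by
    ext x
    exact galHom_one (x : ℂ_[p])
  map_mul' g h := by
    ext x
    exact galHom_mul g h (x : ℂ_[p])

@[simp] theorem coe_galO (g : Gp p) (x : 𝓞_ℂ_[p]) : ((galO g x : 𝓞_ℂ_[p]) : ℂ_[p]) = galC g x := rfl

end Helper75K9.FM
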