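import Mathlib
import Pool.Agent.Helper75K9.FM.BdRDefs
import Pool.Agent.Helper75K9.FM.Oc

/-!
# `D_dR` and de Rham representations of `Gal(ℚ̄_p/ℚ_p)`

Fontaine's field `B_dR = BDeRham 𝓞_ℂ_[p] p` (Mathlib's definition), with its structure of
`ℚ_[p]`-algebra and its Galois action, and the functor `D_dR(V) = (V ⊗_{ℚ_p} B_dR)^G` for
representations `V` over `ℚ̄_p`.
-/

set_option linter.unusedSectionVars false

noncomputable section

universe u

open TensorProduct

namespace Helper75K9.BdR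

section general

variable (R : Type u) [CommRing R] (p : ℕ) [Fact p.Prime]


variable [Fact ¬IsUnit (p : R)]

/-- The canonical ring homomorphism `ℤ_p = W(𝔽_p) → W(R♭)`. -/
def zpToAinf : ℤ_[p] →+* WittVector p (PreTilt R p) :=
  (WittVector.map (ZMod.castHom (dvd_refl p) (PreTilt R p))).comp
    ((WittVector.equiv p).symm : ℤ_[p] →+* WittVector p (ZMod p))

theorem ainfMap_zpToAinf (σ : R ≃+* R) (a : ℤ_[p]) :
    ainfMap R p σ (zpToAinf R p a) = zpToAinf R p a := by
  have h : (tiltMap R p σ).comp (ZMod.castHom (dvd_refl p) (PreTilt R p)) =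
      ZMod.castHom (dvd_refl p) (PreTilt R p) := Subsingleton.elim _ _
  show WittVector.map _ (WittVector.map _ _) = WittVector.map _ _
  ext n
  exact congrFun (congrArg DFunLike.coe h) _

variable [IsAdicComplete (Ideal.span {(p : R)}) R]

theorem isUnit_zp (y : nonZeroDivisors ℤ_[p]) :
    IsUnit (((algebraMap (WittVector p (PreTilt R p)) (Localization.Away (p : WittVector p (PreTilt R p)))).comp (zpToAinf R p)) y) := by
  obtain ⟨y, hy⟩ := y
  have hy0 : y ≠ 0 := nonZeroDivisors.ne_zero hy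
  show IsUnit ((algebraMap (WittVector p (PreTilt R p)) (Localization.Away (p : WittVector p (PreTilt R p)))) (zpToAinf R p y))
  rw [PadicInt.unitCoeff_spec hy0, map_mul, map_mul, map_pow, map_pow, map_natCast]
  refine IsUnit.mul ?_ (IsUnit.pow _ ?_)
  · exact ((PadicInt.unitCoeff hy0).isUnit.map (zpToAinf R p)).map _
  · exact IsLocalization.Away.algebraMap_isUnit _

/-- `ℚ_p → W(R♭)[1/p]` -/
def qpToAinfp : ℚ_[p] →+* Localization.Away (p : WittVector p (PreTilt R p)) :=
  IsLocalization.lift (M := nonZeroDivisors ℤ_[p]) (S := ℚ_[p]) (isUnit_zp R p)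

theorem qpToAinfp_algebraMap (a : ℤ_[p]) :
    qpToAinfp R p (algebraMap ℤ_[p] ℚ_[p] a) = algebraMap _ _ (zpToAinf R p a) :=
  IsLocalization.lift_eq _ _

theorem ainfpEquiv_qpToAinfp (σ : R ≃+* R) (c : ℚ_[p]) :
    ainfpEquiv R p σ (qpToAinfp R p c) = qpToAinfp R p c := by
  have key : (ainfpEquiv R p σ : _ →+* _).comp (qpToAinfp R p) = qpToAinfp R p := by
    refine IsLocalization.ringHom_ext (nonZeroDivisors ℤ_[p]) ?_
    ext a
    simp only [RingHom.comp_apply, RingHom.coe_coe, qpToAinfp_algebraMap,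
      ainfpEquiv_algebraMap, ainfMap_zpToAinf]
  exact congrFun (congrArg DFunLike.coe key) c

/-- The structure of `ℚ_p`-algebra of `B_dR(R)`. -/
instance : Algebra ℚ_[p] (BDeRham R p) :=
  ((ofA (RingHom.ker (fontaineThetaInvertP R p))).comp (qpToAinfp R p)).toAlgebra

theorem algebraMap_bdr (c : ℚ_[p]) : algebraMap ℚ_[p] (BDeRham R p) c =
    ofA (RingHom.ker (fontaineThetaInvertP R p)) (qpToAinfp R p c) := rfl

/-- `bdrMap σ` as a `ℚ_p`-algebra endomorphism. -/
def bdrAlgHom (σ : R ≃+* R) : BDeRham R p →ₐ[ℚ_[p]] BDeRham R p :=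
  { bdrMap R p σ with
    commutes' := fun c => by
      show bdrMap R p σ (algebraMap ℚ_[p] (BDeRham R p) c) = _
      rw [algebraMap_bdr]
      show bfullMap _ _ _ _ _ = _
      rw [bfullMap_ofA, ainfpEquiv_qpToAinfp] }

@[simp] theorem bdrAlgHom_apply (σ : R ≃+* R) (x : BDeRham R p) :
    bdrAlgHom R p σ x = bdrMap R p σ x := rfl

end general

end Helper75K9.BdR

namespace Helper75K9.FM

open Helper75K9.BdR

variable (p : ℕ) [Fact p.Prime]

/-- Fontaine's ring `B_dR` (Mathlib's `BDeRham` for `𝓞_ℂ_[p]`). -/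
abbrev BdRField : Type := BDeRham 𝓞_ℂ_[p] p

variable {p}

/-- The action of `g ∈ Gal(ℚ̄_p/ℚ_p)` on `B_dR`. -/
def galBdR (g : Gp p) : BdRField p →ₐ[ℚ_[p]] BdRField p := bdrAlgHom 𝓞_ℂ_[p] p (galO g)

theorem map_smul_galBdR {V : Type*} [AddCommGroup V] [Module (PadicAlgCl p) V] [Module ℚ_[p] V]
    [IsScalarTower ℚ_[p] (PadicAlgCl p) V] (f : V →ₗ[PadicAlgCl p] V) (g : Gp p)
    (c : PadicAlgCl p) (x : V ⊗[ℚ_[p]] BdRField p) :
    TensorProduct.map (f.restrictScalars ℚ_[p]) (galBdR g).toLinearMap (c • x) =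
        c • TensorProduct.map (f.restrictScalars ℚ_[p]) (galBdR g).toLinearMap x := by
  induction x using TensorProduct.induction_on with
  | zero => simp
  | tmul v b =>
    rw [TensorProduct.smul_tmul', TensorProduct.map_tmul, TensorProduct.map_tmul,
      TensorProduct.smul_tmul']
    congr 1
    exact f.map_smul c v
  | add x y hx hy => rw [smul_add, map_add, map_add, hx, hy, smul_add]

/-- `D_dR(V) = (V ⊗_{ℚ_p} B_dR)^{G_K}` for a `ℚ̄_p`-linear representation `V` of
`G_K = Gal(ℚ̄_p/K)`, `ℚ_p ⊆ K ⊆ ℚ̄_p`, as a `ℚ̄_p`-vector space. -/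
def DdR (K : IntermediateField ℚ_[p] (PadicAlgCl p))
    {V : Type*} [AddCommGroup V] [Module (PadicAlgCl p) V] [Module ℚ_[p] V]
    [IsScalarTower ℚ_[p] (PadicAlgCl p) V]
    (ρ : Representation (PadicAlgCl p) K.fixingSubgroup V) :
    Submodule (PadicAlgCl p) (V ⊗[ℚ_[p]] BdRField p) where
  carrier := {x | ∀ g : K.fixingSubgroup,
    TensorProduct.map ((ρ g).restrictScalars ℚ_[p]) (galBdR (g : Gp p)).toLinearMap x = x}
  add_mem' := by
    intro x y hx hy g
    rw [map_add, hx g, hy g]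
  zero_mem' := by
    intro g
    rw [map_zero]
  smul_mem' := by
    intro c x hx g
    rw [map_smul_galBdR, hx g]

/-- A finite dimensional `ℚ̄_p`-linear representation `V` of `G_K` (`K/ℚ_p` finite) is de Rham iff
`D_dR(V)` is free of rank `dim V` over `K ⊗_{ℚ_p} ℚ̄_p`, equivalently iff
`dim_{ℚ̄_p} D_dR(V) = [K : ℚ_p] · dim_{ℚ̄_p} V`. -/
def IsDeRham (K : IntermediateField ℚ_[p] (PadicAlgCl p))
    {V : Type*} [AddCommGroup V] [Module (PadicAlgCl p) V] [Module ℚ_[p] V]
    [IsScalarTower ℚ_[p] (PadicAlgCl p) V]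
    (ρ : Representation (PadicAlgCl p) K.fixingSubgroup V) : Prop :=
  Module.finrank (PadicAlgCl p) (DdR K ρ) =
    Module.finrank ℚ_[p] K * Module.finrank (PadicAlgCl p) V

/-- The one-dimensional representation attached to a character. -/
def charRep {H : Type*} [Group H] (χ : H →* (PadicAlgCl p)ˣ) :
    Representation (PadicAlgCl p) H (PadicAlgCl p) where
  toFun g := ((χ g : (PadicAlgCl p)ˣ) : PadicAlgCl p) • LinearMap.id
  map_one' := by
    rw [map_one, Units.val_one, one_smul]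
    rfl
  map_mul' g h := by
    ext
    simp [mul_comm]

@[simp] theorem charRep_apply {H : Type*} [Group H] (χ : H →* (PadicAlgCl p)ˣ) (g : H)
    (x : PadicAlgCl p) : charRep χ g x = ((χ g : (PadicAlgCl p)ˣ) : PadicAlgCl p) * x := rfl

end Helper75K9.FM
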