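import Mathlib
import Pool.Agent.Helper75K9.FM.DdR

/-!
# The definitions used in the final statement

`Oc p = O_{C_p}`, `BdR p = B_dR` (Mathlib's `BDeRham` for `O_{C_p}`), the Galois action `galB g` on
`BdR p`, and `D_dR` of a character.
-/

noncomputable section

open TensorProduct Helper75K9.BdR

set_option warn.classDefReducibility false

namespace Helper75K9.FM

variable (p : ℕ) [Fact p.Prime]

/-- The ring of integers `O = O_{C_p}` of `ℂ_p`. -/
def Oc : Type := 𝓞_ℂ_[p]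

/-- `O_{C_p}` with the ring structure of Mathlib. -/
def commRingOc : CommRing (Oc p) := ValuationSubring.instCommRingSubtypeMem 𝓞_ℂ_[p]

attribute [instance] commRingOc

instance fact_Oc : Fact (¬ IsUnit ((p : ℕ) : Oc p)) :=
  inferInstanceAs (Fact (¬ IsUnit ((p : ℕ) : 𝓞_ℂ_[p])))

instance isAdicComplete_Oc : IsAdicComplete (Ideal.span {((p : ℕ) : Oc p)}) (Oc p) :=
  inferInstanceAs (IsAdicComplete (Ideal.span {((p : ℕ) : 𝓞_ℂ_[p])}) 𝓞_ℂ_[p])

variable {p}

/-- The action of `g ∈ Gal(ℚ̄_p/ℚ_p)` on `O_{C_p}`: the restriction of the continuous extension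
`galHom g` of `g` to `ℂ_p`. -/
def galOcHom (g : Gp p) : Oc p →+* Oc p :=
  (galHom g).restrict 𝓞_ℂ_[p] 𝓞_ℂ_[p] fun x hx => by
    rw [mem_Oc_iff] at hx ⊢
    exact (norm_galC g x).trans_le hx

theorem galOcHom_comp (g h : Gp p) : (galOcHom g).comp (galOcHom h) = galOcHom (g * h) :=
  RingHom.ext fun _ => Subtype.ext (galHom_mul g h _).symm

theorem galOcHom_one : galOcHom (1 : Gp p) = RingHom.id (Oc p) :=
  RingHom.ext fun _ => Subtype.ext (galHom_one _)

/-- The same, as a ring automorphism (the inverse is the action of `g⁻¹`). -/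
def galOc (g : Gp p) : Oc p ≃+* Oc p :=
  RingEquiv.ofRingHom (galOcHom g) (galOcHom g⁻¹)
    (by rw [galOcHom_comp, mul_inv_cancel, galOcHom_one])
    (by rw [galOcHom_comp, inv_mul_cancel, galOcHom_one])

variable (p)

/-- `W(O♭)[1/p]` -/
def AinfP : Type := Localization.Away (p : WittVector p (PreTilt (Oc p) p))

/-- `W(O♭)[1/p]` with its ring structure (localization). -/
def commRingAinfP : CommRing (AinfP p) := OreLocalization.instCommRing

attribute [instance] commRingAinfP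

/-- `O[1/p]` -/
def OcP : Type := Localization.Away (p : Oc p)

/-- `O[1/p]` with its ring structure (localization). -/
def commRingOcP : CommRing (OcP p) := OreLocalization.instCommRing

attribute [instance] commRingOcP

/-- Fontaine's map `θ : W(O♭)[1/p] → O[1/p]`, as defined in Mathlib. -/
def thetaP : AinfP p →+* OcP p := fontaineThetaInvertP (Oc p) p

/-- The kernel of `θ`. -/
def kerTheta : Ideal (AinfP p) := RingHom.ker (thetaP p)

/-- Fontaine's ring `B_dR`: Mathlib's `BDeRham` for `O_{C_p}`, the completion of `W(O♭)[1/p]` for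
the ideal `ker θ`, with the generators of `ker θ` inverted. -/
def BdR : Type := BDeRham (Oc p) p

/-- `B_dR` with its ring structure (localization of the completion). -/
def commRingBdR : CommRing (BdR p) :=
  OreLocalization.instCommRing (S := genMonoid (kerTheta p))

attribute [instance] commRingBdR

/-- The canonical map `ℚ_p → W(O♭)[1/p]`. -/
def qpAinfP : ℚ_[p] →+* AinfP p := qpToAinfp (Oc p) p

/-- The canonical map `ℚ_p → B_dR`. -/
def qpBdR : ℚ_[p] →+* BdR p := (ofA (kerTheta p)).comp (qpAinfP p)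

/-- `B_dR` as a `ℚ_p`-algebra. -/
def algebraBdR : Algebra ℚ_[p] (BdR p) := (qpBdR p).toAlgebra

attribute [instance] algebraBdR

variable {p}

/-- The action of `g ∈ Gal(ℚ̄_p/ℚ_p)` on `W(O♭)[1/p]`, by functoriality. -/
def galAinfP (g : Gp p) : AinfP p ≃+* AinfP p := ainfpEquiv (Oc p) p (galOc g)

theorem kerTheta_le (g : Gp p) :
    kerTheta p ≤ (kerTheta p).comap (galAinfP g : AinfP p →+* AinfP p) :=
  ker_le_comap (Oc p) p (galOc g)

theorem kerTheta_le_symm (g : Gp p) :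
    kerTheta p ≤ (kerTheta p).comap ((galAinfP g).symm : AinfP p →+* AinfP p) :=
  ker_le_comap_symm (Oc p) p (galOc g)

/-- The action of `g ∈ Gal(ℚ̄_p/ℚ_p)` on `B_dR`, by functoriality. -/
def galBHom (g : Gp p) : BdR p →+* BdR p :=
  bfullMap (kerTheta p) (galAinfP g) (kerTheta_le g) (kerTheta_le_symm g)

theorem galBHom_algebraMap (g : Gp p) (c : ℚ_[p]) :
    galBHom g (algebraMap ℚ_[p] (BdR p) c) = algebraMap ℚ_[p] (BdR p) c :=
  (bdrAlgHom (Oc p) p (galOc g)).commutes' c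

/-- The same, as a homomorphism of `ℚ_p`-algebras. -/
def galB (g : Gp p) : BdR p →ₐ[ℚ_[p]] BdR p :=
  AlgHom.mk (galBHom g) (galBHom_algebraMap g)

variable (p)

/-- `ℚ̄_p ⊗_{ℚ_p} B_dR` -/
def TB : Type := PadicAlgCl p ⊗[ℚ_[p]] BdR p

/-- `ℚ̄_p ⊗_{ℚ_p} B_dR` is an additive group. -/
def addCommGroupTB : AddCommGroup (TB p) := TensorProduct.addCommGroup

attribute [instance] addCommGroupTB

/-- `ℚ̄_p ⊗_{ℚ_p} B_dR` is a `ℚ̄_p`-vector space, `a(v ⊗ b) = av ⊗ b`. -/
def moduleTB : Module (PadicAlgCl p) (TB p) := TensorProduct.leftModule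

attribute [instance] moduleTB

variable {p}

/-- For a character `χ : G_K → ℚ̄_pˣ` (`ℚ_p ⊆ K ⊆ ℚ̄_p`), the map
`v ⊗ b ↦ χ(g)v ⊗ g(b)` on `ℚ̄_p ⊗_{ℚ_p} B_dR`. -/
def twistedAction (K : IntermediateField ℚ_[p] (PadicAlgCl p))
    (χ : K.fixingSubgroup →* (PadicAlgCl p)ˣ) (g : K.fixingSubgroup) :
    TB p →ₗ[PadicAlgCl p] TB p :=
  TensorProduct.AlgebraTensorModule.map
    (LinearMap.lsmul (PadicAlgCl p) (PadicAlgCl p) (χ g)) (galB (g : Gp p)).toLinearMap

/-- `D_dR(χ) = (ℚ̄_p(χ) ⊗_{ℚ_p} B_dR)^{G_K}`, as a `ℚ̄_p`-vector space. -/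
def Ddr (K : IntermediateField ℚ_[p] (PadicAlgCl p))
    (χ : K.fixingSubgroup →* (PadicAlgCl p)ˣ) : Submodule (PadicAlgCl p) (TB p) :=
  ⨅ g : K.fixingSubgroup, LinearMap.eqLocus (twistedAction K χ g) LinearMap.id

theorem mem_Ddr (K : IntermediateField ℚ_[p] (PadicAlgCl p))
    (χ : K.fixingSubgroup →* (PadicAlgCl p)ˣ) (x : TB p) :
    x ∈ Ddr K χ ↔ ∀ g, twistedAction K χ g x = x := by
  simp [Ddr, Submodule.mem_iInf]

/-- A character `χ` of `G_K`, `K/ℚ_p` finite, is de Rham iff `D_dR(χ)` is free of rank one over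
`K ⊗_{ℚ_p} ℚ̄_p`, equivalently iff `dim_{ℚ̄_p} D_dR(χ) = [K : ℚ_p]`. -/
def IsDeRhamChar (K : IntermediateField ℚ_[p] (PadicAlgCl p))
    (χ : K.fixingSubgroup →* (PadicAlgCl p)ˣ) : Prop :=
  Module.finrank (PadicAlgCl p) (Ddr K χ) = Module.finrank ℚ_[p] K

end Helper75K9.FM
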