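import Mathlib
import Pool.Agent.Helper75K9.FM.Base

/-!
# The norm of `ζ - 1` for a primitive `p^M`-th root of unity `ζ`
-/

noncomputable section

open Polynomial

namespace Helper75K9.FM

variable {p : ℕ} [Fact p.Prime]

theorem norm_root_of_unity {ζ : PadicAlgCl p} {n : ℕ} (hn : n ≠ 0) (h : ζ ^ n = 1) : ‖ζ‖ = 1 := by
  have h1 : ‖ζ‖ ^ n = 1 := by rw [← norm_pow, h, norm_one]
  exact (pow_eq_one_iff_of_nonneg (norm_nonneg _) hn).1 h1

theorem norm_pow_sub_one_le {ζ : PadicAlgCl p} (h : ‖ζ‖ ≤ 1) (a : ℕ) :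
    ‖ζ ^ a - 1‖ ≤ ‖ζ - 1‖ := by
  induction a with
  | zero => simp
  | succ a ih =>
    have h1 : ζ ^ (a + 1) - 1 = ζ ^ a * (ζ - 1) + (ζ ^ a - 1) := by ring
    rw [h1]
    refine (IsUltrametricDist.norm_add_le_max _ _).trans (max_le ?_ ih)
    rw [norm_mul, norm_pow]
    exact mul_le_of_le_one_left (norm_nonneg _) (pow_le_one₀ (norm_nonneg _) h)

/-- If `a` is prime to the order, `ζ^a - 1` and `ζ - 1` have the same norm. -/
theorem norm_pow_sub_one_eq {n : ℕ} (hn : n ≠ 0) {ζ : PadicAlgCl p} (h : ζ ^ n = 1) {a : ℕ}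
    (ha : a.Coprime n) : ‖ζ ^ a - 1‖ = ‖ζ - 1‖ := by
  have h1 : ‖ζ‖ = 1 := norm_root_of_unity hn h
  refine le_antisymm (norm_pow_sub_one_le h1.le a) ?_
  rcases Nat.lt_or_ge 1 n with hn1 | hn1
  · obtain ⟨b, hb1, hb⟩ := Nat.exists_mul_mod_eq_one_of_coprime ha hn1
    have h2 : ζ = (ζ ^ a) ^ b := by
      rw [← pow_mul]
      conv_rhs => rw [← Nat.div_add_mod (a * b) n, pow_add, pow_mul, h, one_pow, one_mul, hb,
        pow_one]
    have h3 : ‖ζ ^ a‖ ≤ 1 := by rw [norm_pow, h1, one_pow]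
    have h4 := norm_pow_sub_one_le h3 b
    rw [← h2] at h4
    exact h4
  · have : n = 1 := by omega
    subst this
    rw [pow_one] at h
    rw [h]
    simp

/-- The norm of `ζ - 1` for a primitive `p^M`-th root of unity `ζ`, `M ≥ 1`. -/
theorem norm_zeta_sub_one {M : ℕ} (hM : 1 ≤ M) {ζ : PadicAlgCl p}
    (hζ : IsPrimitiveRoot ζ (p ^ M)) : ‖ζ - 1‖ ^ (p ^ (M - 1) * (p - 1)) = (p : ℝ)⁻¹ := by
  have hp : p.Prime := Fact.out
  obtain ⟨k, rfl⟩ : ∃ k, M = k + 1 := ⟨M - 1, by omega⟩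
  have hpos : 0 < p ^ (k + 1) := pow_pos hp.pos _
  have h1 : eval 1 (cyclotomic (p ^ (k + 1)) (PadicAlgCl p)) = p := eval_one_cyclotomic_prime_pow k
  rw [cyclotomic_eq_prod_X_sub_primitiveRoots hζ, eval_prod] at h1
  have h2 : ∀ μ ∈ primitiveRoots (p ^ (k + 1)) (PadicAlgCl p),
      ‖eval 1 (X - C μ)‖ = ‖ζ - 1‖ := by
    intro μ hμ
    rw [mem_primitiveRoots hpos] at hμ
    obtain ⟨i, hi, hcop, rfl⟩ := hζ.isPrimitiveRoot_iff.1 hμ
    rw [eval_sub, eval_X, eval_C, norm_sub_rev]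
    exact norm_pow_sub_one_eq hpos.ne' hζ.pow_eq_one hcop
  have h3 := congrArg norm h1
  rw [norm_prod, Finset.prod_congr rfl h2, Finset.prod_const, hζ.card_primitiveRoots,
    Nat.totient_prime_pow_succ hp] at h3
  rw [Nat.add_sub_cancel, h3]
  have h4 : ((p : ℚ_[p]) : PadicAlgCl p) = (p : PadicAlgCl p) := map_natCast _ _
  rw [← h4, PadicAlgCl.norm_extends, Padic.norm_p]

end Helper75K9.FM
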