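import Mathlib
import Pool.Agent.Helper75K9.FM.Oc
import Pool.Agent.Helper75K9.FM.ZetaNorm
import Pool.Agent.Helper75K9.FM.BdRDefs

/-!
# The kernel of Fontaine's theta map for `𝓞_ℂ_[p]` is principal

Let `R = 𝓞_ℂ_[p]` and let `Fl p` be its tilt.  We describe the elements of the tilt by compatible
sequences of `p`-power roots in `R`, define `ε = (1, ζ_p, ζ_{p²}, …)` and
`ξ = ∑_{i < p} [ε^{1/p}]^i`, and show that `ker θ = (ξ)`.
-/

noncomputable section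

open scoped NNReal

namespace Helper75K9.FM

variable {p : ℕ} [Fact p.Prime]

/-- The tilt of `𝓞_ℂ_[p]`. -/
abbrev Fl (p : ℕ) [Fact p.Prime] : Type := PreTilt 𝓞_ℂ_[p] p

/-- Elements of the tilt are the compatible sequences in `𝓞_ℂ_[p]`. -/
def tiltEquiv : Fl p ≃* Perfection 𝓞_ℂ_[p] p :=
  (Perfection.quotientMulEquiv p (Ideal.span {((p : ℕ) : 𝓞_ℂ_[p])})).symm

/-- The `n`-th member of the compatible sequence of an element of the tilt. -/
def sh (n : ℕ) : Fl p →* 𝓞_ℂ_[p] :=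
  (Perfection.coeffMonoidHom 𝓞_ℂ_[p] p n).comp (tiltEquiv (p := p) : Fl p →* Perfection 𝓞_ℂ_[p] p)

theorem sh_succ_pow (n : ℕ) (x : Fl p) : sh (n + 1) x ^ p = sh n x :=
  Perfection.coeffMonoidHom_pow_p' (tiltEquiv x) n

theorem sh_add_pow (n m : ℕ) (x : Fl p) : sh (n + m) x ^ p ^ m = sh n x :=
  Perfection.coeffMonoidHom_pow_p_pow' (tiltEquiv x) n m

theorem mk_sh (n : ℕ) (x : Fl p) :
    Ideal.Quotient.mk (Ideal.span {((p : ℕ) : 𝓞_ℂ_[p])}) (sh n x) = PreTilt.coeff n x := by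
  have h := Perfection.coeff_quotientMulEquiv (p := p) (I := Ideal.span {((p : ℕ) : 𝓞_ℂ_[p])})
    (tiltEquiv x) n
  have h2 : Perfection.quotientMulEquiv p (Ideal.span {((p : ℕ) : 𝓞_ℂ_[p])}) (tiltEquiv x) = x :=
    MulEquiv.apply_symm_apply _ _
  rw [h2] at h
  exact h.symm

theorem untilt_eq_sh (x : Fl p) : x.untilt = sh 0 x :=
  (Perfection.coeff_zero_symm_quotientMulEquiv x).symm

theorem ext_sh {x y : Fl p} (h : ∀ n, sh n x = sh n y) : x = y :=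
  tiltEquiv.injective (Perfection.extMonoid h)

/-- A compatible sequence as an element of the perfection. -/
def seqPerf (a : ℕ → 𝓞_ℂ_[p]) (h : ∀ n, a (n + 1) ^ p = a n) : Perfection 𝓞_ℂ_[p] p := ⟨a, h⟩

/-- The element of the tilt given by a compatible sequence. -/
def ofSeq (a : ℕ → 𝓞_ℂ_[p]) (h : ∀ n, a (n + 1) ^ p = a n) : Fl p :=
  tiltEquiv.symm (seqPerf a h)

@[simp] theorem sh_ofSeq (a : ℕ → 𝓞_ℂ_[p]) (h : ∀ n, a (n + 1) ^ p = a n) (n : ℕ) :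
    sh n (ofSeq a h) = a n := by
  show Perfection.coeffMonoidHom 𝓞_ℂ_[p] p n (tiltEquiv (tiltEquiv.symm (seqPerf a h))) = a n
  rw [MulEquiv.apply_symm_apply]
  rfl

theorem norm_sh (n : ℕ) (x : Fl p) :
    ‖(sh n x : ℂ_[p])‖ ^ p ^ n = ‖(sh 0 x : ℂ_[p])‖ := by
  have h := sh_add_pow 0 n x
  rw [zero_add] at h
  rw [← h, ← norm_pow]
  rfl

theorem norm_sh_eq_zero_iff (n : ℕ) (x : Fl p) : ‖(sh n x : ℂ_[p])‖ = 0 ↔ x = 0 := by
  have hz : ∀ m, sh m (0 : Fl p) = 0 := by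
    intro m
    have h0 : sh 0 (0 : Fl p) = 0 := by
      rw [← untilt_eq_sh]
      exact Perfection.teichmuller_zero
    have h1 := sh_add_pow 0 m (0 : Fl p)
    rw [zero_add, h0] at h1
    exact pow_eq_zero_iff (pow_pos (Fact.out : p.Prime).pos m).ne' |>.1 h1
  constructor
  · intro h
    refine ext_sh fun m => ?_
    rw [hz m]
    have h0 : ‖(sh 0 x : ℂ_[p])‖ = 0 := by
      rw [← norm_sh n, h, zero_pow (pow_pos (Fact.out : p.Prime).pos n).ne']
    rw [← norm_sh m] at h0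
    have h1 := pow_eq_zero_iff (pow_pos (Fact.out : p.Prime).pos m).ne' |>.1 h0
    exact Subtype.ext (norm_eq_zero.1 h1)
  · rintro rfl
    rw [hz]
    exact norm_zero

theorem sh_zero (n : ℕ) : sh n (0 : Fl p) = 0 :=
  Subtype.ext (norm_eq_zero.1 ((norm_sh_eq_zero_iff n (0 : Fl p)).2 rfl))

/-- Divisibility in the tilt. -/
theorem dvd_of_norm_le {x y : Fl p} (h : ‖(sh 0 x : ℂ_[p])‖ ≤ ‖(sh 0 y : ℂ_[p])‖) : y ∣ x := by
  by_cases hy : y = 0
  · subst hy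
    rw [(norm_sh_eq_zero_iff 0 (0 : Fl p)).2 rfl] at h
    have hx : x = 0 := (norm_sh_eq_zero_iff 0 x).1 (le_antisymm h (norm_nonneg _))
    rw [hx]
  · have hy' : ∀ n, (sh n y : ℂ_[p]) ≠ 0 := fun n h0 =>
      hy ((norm_sh_eq_zero_iff n y).1 (by rw [h0, norm_zero]))
    have hle : ∀ n, ‖(sh n x : ℂ_[p])‖ ≤ ‖(sh n y : ℂ_[p])‖ := by
      intro n
      rw [← norm_sh n x, ← norm_sh n y] at h
      exact le_of_pow_le_pow_left₀ (pow_pos (Fact.out : p.Prime).pos n).ne' (norm_nonneg _) h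
    refine ⟨ofSeq (fun n => ⟨(sh n x : ℂ_[p]) / sh n y, ?_⟩) ?_, ?_⟩
    · rw [mem_Oc_iff, norm_div]
      exact div_le_one_of_le₀ (hle n) (norm_nonneg _)
    · intro n
      ext
      show ((sh (n + 1) x : ℂ_[p]) / sh (n + 1) y) ^ p = (sh n x : ℂ_[p]) / sh n y
      rw [div_pow, ← sh_succ_pow n x, ← sh_succ_pow n y]
      rfl
    · refine ext_sh fun n => ?_
      rw [map_mul, sh_ofSeq]
      ext
      show (sh n x : ℂ_[p]) = (sh n y : ℂ_[p]) * ((sh n x : ℂ_[p]) / sh n y)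
      rw [mul_div_cancel₀ _ (hy' n)]

instance : NoZeroDivisors (Fl p) where
  eq_zero_or_eq_zero_of_mul_eq_zero {a b} h := by
    have h1 := (norm_sh_eq_zero_iff 0 (a * b)).2 h
    rw [map_mul, show ((sh 0 a * sh 0 b : 𝓞_ℂ_[p]) : ℂ_[p]) = (sh 0 a : ℂ_[p]) * sh 0 b from rfl,
      norm_mul, mul_eq_zero] at h1
    exact h1.imp (norm_sh_eq_zero_iff 0 a).1 (norm_sh_eq_zero_iff 0 b).1

instance : Nontrivial (Fl p) := ⟨0, 1, fun h => by
  have h1 := (norm_sh_eq_zero_iff 0 (1 : Fl p)).2 h.symm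
  rw [map_one] at h1
  exact one_ne_zero (α := ℝ) (norm_one (α := ℂ_[p]) ▸ h1)⟩

instance : IsDomain (Fl p) := NoZeroDivisors.to_isDomain _

/-! ### Roots of unity -/

theorem exists_primitive_p : ∃ z : PadicAlgCl p, z ^ p = 1 ∧ z ≠ 1 := by
  have hp : p.Prime := Fact.out
  have : NeZero ((p : ℕ) : PadicAlgCl p) := ⟨by exact_mod_cast hp.ne_zero⟩
  obtain ⟨z, hz⟩ := IsAlgClosed.exists_root (Polynomial.cyclotomic p (PadicAlgCl p)) (by
    rw [Polynomial.degree_cyclotomic]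
    exact_mod_cast (Nat.totient_pos.2 hp.pos).ne')
  have h := (Polynomial.isRoot_cyclotomic_iff).1 hz
  exact ⟨z, h.pow_eq_one, h.ne_one hp.one_lt⟩

/-- A compatible system of `p`-power roots of unity, starting with a nontrivial `p`-th root. -/
def zsAux : ℕ → PadicAlgCl p
  | 0 => (exists_primitive_p (p := p)).choose
  | n + 1 => (IsAlgClosed.exists_pow_nat_eq (zsAux n) (Fact.out : p.Prime).pos).choose

/-- `ζ_{p^n}` -/
def zs : ℕ → PadicAlgCl p
  | 0 => 1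
  | n + 1 => zsAux n

theorem zs_zero : zs (p := p) 0 = 1 := rfl

theorem zs_one_ne : zs (p := p) 1 ≠ 1 := (exists_primitive_p (p := p)).choose_spec.2

theorem zs_succ (n : ℕ) : zs (p := p) (n + 1) ^ p = zs n := by
  cases n with
  | zero => exact (exists_primitive_p (p := p)).choose_spec.1
  | succ n => exact (IsAlgClosed.exists_pow_nat_eq (zsAux (p := p) n) (Fact.out : p.Prime).pos).choose_spec

theorem zs_add (n m : ℕ) : zs (p := p) (n + m) ^ p ^ m = zs n := by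
  induction m with
  | zero => simp
  | succ m ih => rw [pow_succ', pow_mul, ← add_assoc, zs_succ, ih]

theorem zs_pow (n : ℕ) : zs (p := p) n ^ p ^ n = 1 := by
  have h := zs_add (p := p) 0 n
  rwa [zero_add, zs_zero] at h

theorem zs_primitive (n : ℕ) : IsPrimitiveRoot (zs (p := p) n) (p ^ n) := by
  cases n with
  | zero => rw [zs_zero, pow_zero]; exact IsPrimitiveRoot.one
  | succ n =>
    have h : orderOf (zs (p := p) (n + 1)) = p ^ (n + 1) := by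
      refine orderOf_eq_prime_pow ?_ (zs_pow _)
      rw [add_comm n 1, zs_add]
      exact zs_one_ne
    rw [← h]
    exact IsPrimitiveRoot.orderOf _

theorem norm_zs (n : ℕ) : ‖zs (p := p) n‖ = 1 :=
  norm_root_of_unity (pow_pos (Fact.out : p.Prime).pos n).ne' (zs_pow n)

/-- `ζ_{p^n}` in `𝓞_ℂ_[p]` -/
def zO (n : ℕ) : 𝓞_ℂ_[p] := ⟨(zs (p := p) n : ℂ_[p]), by
  rw [mem_Oc_iff, PadicComplex.norm_extends, norm_zs]⟩

theorem coe_zO (n : ℕ) : ((zO (p := p) n : 𝓞_ℂ_[p]) : ℂ_[p]) = (zs (p := p) n : ℂ_[p]) := rfl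

theorem zO_succ (n : ℕ) : zO (p := p) (n + 1) ^ p = zO n := by
  ext
  show ((zs (p := p) (n + 1) : ℂ_[p])) ^ p = (zs (p := p) n : ℂ_[p])
  rw [← zs_succ n]
  exact (map_pow (algebraMap (PadicAlgCl p) ℂ_[p]) _ _).symm

theorem zO_zero : zO (p := p) 0 = 1 := by
  ext
  show ((1 : PadicAlgCl p) : ℂ_[p]) = 1
  exact map_one (algebraMap (PadicAlgCl p) ℂ_[p])

theorem zO_one_ne : zO (p := p) 1 ≠ 1 := by
  intro h
  have h1 : ((zs (p := p) 1 : PadicAlgCl p) : ℂ_[p]) = ((1 : PadicAlgCl p) : ℂ_[p]) := by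
    rw [← coe_zO, h]
    exact (map_one (algebraMap (PadicAlgCl p) ℂ_[p])).symm
  exact zs_one_ne ((algebraMap (PadicAlgCl p) ℂ_[p]).injective h1)

/-- `ε` -/
def eps : Fl p := ofSeq zO zO_succ

/-- `ε^{1/p}` -/
def epsR : Fl p := ofSeq (fun n => zO (n + 1)) (fun n => zO_succ (n + 1))

@[simp] theorem sh_eps (n : ℕ) : sh n (eps (p := p)) = zO n := sh_ofSeq _ _ _

@[simp] theorem sh_epsR (n : ℕ) : sh n (epsR (p := p)) = zO (n + 1) := sh_ofSeq _ _ _

theorem epsR_pow : (epsR (p := p)) ^ p = eps := by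
  refine ext_sh fun n => ?_
  rw [map_pow, sh_epsR, sh_eps, zO_succ]

theorem norm_zs_sub_one (n : ℕ) :
    ‖((zs (p := p) (n + 1) : PadicAlgCl p) : ℂ_[p]) - 1‖ ^ (p ^ n * (p - 1)) = (p : ℝ)⁻¹ := by
  have h := norm_zeta_sub_one (p := p) (M := n + 1) (by omega) (zs_primitive (n + 1))
  rw [Nat.add_sub_cancel] at h
  rw [← h, ← PadicComplex.norm_extends]
  congr 2
  rw [show (1 : ℂ_[p]) = ((1 : PadicAlgCl p) : ℂ_[p]) from
    (map_one (algebraMap (PadicAlgCl p) ℂ_[p])).symm]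
  exact (map_sub (algebraMap (PadicAlgCl p) ℂ_[p]) _ _).symm

theorem mk_eq_iff_norm (a b : 𝓞_ℂ_[p]) :
    Ideal.Quotient.mk (Ideal.span {((p : ℕ) : 𝓞_ℂ_[p])}) a =
      Ideal.Quotient.mk (Ideal.span {((p : ℕ) : 𝓞_ℂ_[p])}) b ↔
    ‖(a : ℂ_[p]) - b‖ ≤ (p : ℝ)⁻¹ := by
  rw [Ideal.Quotient.eq]
  have h := mem_span_p_pow_iff 1 (a - b)
  rw [pow_one, pow_one] at h
  exact h

/-- the norm of `ε^{1/p} - 1` -/
theorem norm_sh_epsR_sub_one :
    ‖(sh 0 (epsR (p := p) - 1) : ℂ_[p])‖ ^ (p - 1) = (p : ℝ)⁻¹ := by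
  have hp : p.Prime := Fact.out
  have h1 := norm_zs_sub_one (p := p) 1
  rw [pow_one] at h1
  set c : ℝ := ‖((zs (p := p) (1 + 1) : PadicAlgCl p) : ℂ_[p]) - 1‖ with hc
  have hc0 : 0 ≤ c := norm_nonneg _
  have hp1 : (1 : ℝ) < p := one_lt_p
  have hlt : (p : ℝ)⁻¹ < c := by
    by_contra hle
    push Not at hle
    have h2 : c ^ (p * (p - 1)) ≤ ((p : ℝ)⁻¹) ^ (p * (p - 1)) := pow_le_pow_left₀ hc0 hle _
    rw [h1] at h2
    have h3 : ((p : ℝ)⁻¹) ^ (p * (p - 1)) < ((p : ℝ)⁻¹) ^ 1 := by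
      refine pow_lt_pow_right_of_lt_one₀ (by positivity) (inv_lt_one_of_one_lt₀ hp1) ?_
      have := hp.two_le
      calc 1 < 2 * 1 := by norm_num
        _ ≤ p * (p - 1) := Nat.mul_le_mul this (by omega)
    rw [pow_one] at h3
    linarith
  have h4 : PreTilt.coeff 1 (epsR (p := p) - 1) =
      Ideal.Quotient.mk (Ideal.span {((p : ℕ) : 𝓞_ℂ_[p])}) (zO 2 - 1) := by
    rw [map_sub, map_one, ← mk_sh, sh_epsR, map_sub, map_one]
  rw [← mk_sh, mk_eq_iff_norm] at h4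
  have h5 : ‖(sh 1 (epsR (p := p) - 1) : ℂ_[p])‖ = c := by
    have h6 : ((zO (p := p) 2 - 1 : 𝓞_ℂ_[p]) : ℂ_[p]) =
        ((zs (p := p) (1 + 1) : PadicAlgCl p) : ℂ_[p]) - 1 := rfl
    rw [h6] at h4
    have h7 : ‖(sh 1 (epsR (p := p) - 1) : ℂ_[p]) -
        (((zs (p := p) (1 + 1) : PadicAlgCl p) : ℂ_[p]) - 1)‖ <
        ‖((zs (p := p) (1 + 1) : PadicAlgCl p) : ℂ_[p]) - 1‖ := lt_of_le_of_lt h4 hlt
    rw [hc]
    rw [← norm_neg (((zs (p := p) (1 + 1) : PadicAlgCl p) : ℂ_[p]) - 1)]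
    refine IsUltrametricDist.norm_eq_of_add_norm_lt_max ?_
    rw [← sub_eq_add_neg, norm_neg]
    exact lt_max_of_lt_right h7
  rw [← norm_sh 1, h5, pow_one, ← pow_mul, h1]

/-- The kernel of `R♭ → R/p` is generated by `(ε^{1/p} - 1)^(p-1)`. -/
theorem dvd_of_coeff_zero {x : Fl p} (hx : PreTilt.coeff 0 x = 0) :
    (epsR (p := p) - 1) ^ (p - 1) ∣ x := by
  apply dvd_of_norm_le
  rw [map_pow]
  show ‖(sh 0 x : ℂ_[p])‖ ≤ ‖(sh 0 (epsR (p := p) - 1) : ℂ_[p]) ^ (p - 1)‖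
  rw [norm_pow, norm_sh_epsR_sub_one]
  rw [← mk_sh, ← map_zero (Ideal.Quotient.mk (Ideal.span {((p : ℕ) : 𝓞_ℂ_[p])})),
    mk_eq_iff_norm] at hx
  simpa using hx

open WittVector in
/-- `ξ = ∑_{i < p} [ε^{1/p}]^i` -/
def xi (p : ℕ) [Fact p.Prime] : WittVector p (Fl p) :=
  ∑ i ∈ Finset.range p, (teichmuller p (epsR (p := p))) ^ i

open WittVector in
theorem xi_mul : xi p * (teichmuller p (epsR (p := p)) - 1) = teichmuller p (eps (p := p)) - 1 := by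
  rw [xi, geom_sum_mul, ← map_pow, epsR_pow]

theorem epsR_ne_one : epsR (p := p) ≠ 1 := by
  intro h
  have h1 : sh 0 (epsR (p := p)) = sh 0 1 := by rw [h]
  rw [sh_epsR, map_one] at h1
  exact zO_one_ne h1

theorem xi_coeff_zero : (xi p).coeff 0 = (epsR (p := p) - 1) ^ (p - 1) := by
  have hp : p.Prime := Fact.out
  have h1 : (xi p).coeff 0 = ∑ i ∈ Finset.range p, (epsR (p := p)) ^ i := by
    show WittVector.constantCoeff (xi p) = _
    rw [xi, map_sum]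
    refine Finset.sum_congr rfl fun i _ => ?_
    rw [map_pow]
    congr 1
  have h2 : (xi p).coeff 0 * (epsR (p := p) - 1) = (epsR (p := p) - 1) ^ (p - 1) * (epsR - 1) := by
    rw [h1, geom_sum_mul, ← pow_succ, Nat.sub_add_cancel hp.one_lt.le, sub_pow_char, one_pow]
  exact mul_right_cancel₀ (sub_ne_zero.2 epsR_ne_one) h2

theorem xi_ne_zero : xi p ≠ 0 := by
  intro h
  have h1 := xi_coeff_zero (p := p)
  rw [h, WittVector.zero_coeff] at h1
  exact pow_ne_zero _ (sub_ne_zero.2 (epsR_ne_one (p := p))) h1.symm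

instance : IsDomain (WittVector p (Fl p)) := WittVector.instIsDomain

open WittVector in
theorem theta_epsR : fontaineTheta 𝓞_ℂ_[p] p (teichmuller p (epsR (p := p))) = zO 1 := by
  rw [fontaineTheta_teichmuller, untilt_eq_sh, sh_epsR]

open WittVector in
theorem theta_eps : fontaineTheta 𝓞_ℂ_[p] p (teichmuller p (eps (p := p))) = 1 := by
  rw [fontaineTheta_teichmuller, untilt_eq_sh, sh_eps, zO_zero]

open WittVector in
theorem theta_xi : fontaineTheta 𝓞_ℂ_[p] p (xi p) = 0 := by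
  have h : fontaineTheta 𝓞_ℂ_[p] p (xi p) * (zO 1 - 1) = 0 := by
    rw [← theta_epsR, ← map_one (fontaineTheta 𝓞_ℂ_[p] p), ← map_sub, ← map_mul, xi_mul, map_sub,
      theta_eps, map_one, sub_self]
  exact (mul_eq_zero.1 h).resolve_right (sub_ne_zero.2 zO_one_ne)

open WittVector in
/-- One step of the division by `ξ`. -/
theorem step {x : WittVector p (Fl p)} (hx : fontaineTheta 𝓞_ℂ_[p] p x = 0) :
    ∃ a b : WittVector p (Fl p), x = xi p * a + (p : WittVector p (Fl p)) * b ∧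
      fontaineTheta 𝓞_ℂ_[p] p b = 0 := by
  have h0 : PreTilt.coeff 0 (x.coeff 0) = 0 := by
    rw [← mk_fontaineTheta, hx, map_zero]
  obtain ⟨y, hy⟩ := dvd_of_coeff_zero h0
  have h1 : (x - xi p * teichmuller p y).coeff 0 = 0 := by
    show constantCoeff (x - xi p * teichmuller p y) = 0
    rw [map_sub, map_mul]
    show x.coeff 0 - (xi p).coeff 0 * (teichmuller p y).coeff 0 = 0
    rw [teichmuller_coeff_zero, xi_coeff_zero, hy, sub_self]
  obtain ⟨b, hb⟩ := Ideal.mem_span_singleton.1 ((mem_span_p_iff_coeff_zero_eq_zero _).2 h1)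
  refine ⟨teichmuller p y, b, by rw [← hb]; ring, ?_⟩
  have h2 : fontaineTheta 𝓞_ℂ_[p] p (x - xi p * teichmuller p y) = 0 := by
    rw [map_sub, map_mul, hx, theta_xi, zero_mul, sub_self]
  rw [hb, map_mul, map_natCast] at h2
  refine (mul_eq_zero.1 h2).resolve_left fun h3 => ?_
  have h4 : ((p : 𝓞_ℂ_[p]) : ℂ_[p]) = 0 := by rw [h3]; rfl
  rw [coe_natCast_Oc] at h4
  have h5 := norm_p (p := p)
  rw [h4, norm_zero] at h5
  have h6 : (0 : ℝ) < (p : ℝ)⁻¹ := inv_pos.2 p_pos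
  linarith

open WittVector in
theorem step_pow (n : ℕ) {x : WittVector p (Fl p)} (hx : fontaineTheta 𝓞_ℂ_[p] p x = 0) :
    ∃ a b : WittVector p (Fl p), x = xi p * a + (p : WittVector p (Fl p)) ^ n * b ∧
      fontaineTheta 𝓞_ℂ_[p] p b = 0 := by
  induction n with
  | zero => exact ⟨0, x, by ring, hx⟩
  | succ n ih =>
    obtain ⟨a, b, h1, h2⟩ := ih
    obtain ⟨a', b', h3, h4⟩ := step h2
    exact ⟨a + (p : WittVector p (Fl p)) ^ n * a', b', by rw [h1, h3]; ring, h4⟩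

open WittVector in
/-- **The kernel of `θ` is generated by `ξ`.** -/
theorem ker_theta : RingHom.ker (fontaineTheta 𝓞_ℂ_[p] p) = Ideal.span {xi p} := by
  apply le_antisymm
  · intro x hx
    rw [RingHom.mem_ker] at hx
    -- a Cauchy sequence of quotients
    choose f g hf hg using fun (z : {z : WittVector p (Fl p) // fontaineTheta 𝓞_ℂ_[p] p z = 0}) =>
      step z.2
    let b : ℕ → {z : WittVector p (Fl p) // fontaineTheta 𝓞_ℂ_[p] p z = 0} := fun n =>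
      Nat.rec ⟨x, hx⟩ (fun _ z => ⟨g z, hg z⟩) n
    have hb1 : ∀ n, ((b (n + 1)).1 : WittVector p (Fl p)) = g (b n) := fun n => rfl
    have hb : ∀ n, ((b n).1 : WittVector p (Fl p)) = xi p * f (b n) + p * (b (n + 1)).1 := by
      intro n
      rw [hb1]
      exact hf (b n)
    let s : ℕ → WittVector p (Fl p) := fun n => ∑ i ∈ Finset.range n, (p : WittVector p (Fl p)) ^ i * f (b i)
    have hs : ∀ n, x = xi p * s n + (p : WittVector p (Fl p)) ^ n * (b n).1 := by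
      intro n
      induction n with
      | zero => simp [s, b]
      | succ n ih =>
        have h1 : s (n + 1) = s n + (p : WittVector p (Fl p)) ^ n * f (b n) := Finset.sum_range_succ _ _
        rw [h1]
        calc x = xi p * s n + (p : WittVector p (Fl p)) ^ n * (b n).1 := ih
          _ = xi p * s n + (p : WittVector p (Fl p)) ^ n * (xi p * f (b n) + p * (b (n + 1)).1) := by
            rw [← hb n]
          _ = _ := by ring
    have hcauchy : ∀ {m n : ℕ}, m ≤ n → s m ≡ s n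
        [SMOD (Ideal.span {(p : WittVector p (Fl p))} ^ m • ⊤ : Submodule (WittVector p (Fl p)) (WittVector p (Fl p)))] := by
      intro m n hmn
      rw [SModEq.sub_mem, smul_eq_mul, Ideal.mul_top, Ideal.span_singleton_pow,
        Ideal.mem_span_singleton]
      obtain ⟨k, rfl⟩ := Nat.exists_eq_add_of_le hmn
      have : s m - s (m + k) = - ∑ i ∈ Finset.range k, (p : WittVector p (Fl p)) ^ (m + i) * f (b (m + i)) := by
        show (∑ i ∈ Finset.range m, (p : WittVector p (Fl p)) ^ i * f (b i)) - (∑ i ∈ Finset.range (m + k), (p : WittVector p (Fl p)) ^ i * f (b i)) = _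
        rw [Finset.sum_range_add]
        ring
      rw [this, dvd_neg]
      refine Finset.dvd_sum fun i _ => ?_
      rw [pow_add, mul_assoc]
      exact dvd_mul_right _ _
    obtain ⟨L, hL⟩ := IsPrecomplete.prec' (I := Ideal.span {(p : WittVector p (Fl p))}) s hcauchy
    rw [Ideal.mem_span_singleton]
    refine ⟨L, ?_⟩
    rw [IsHausdorff.eq_iff_smodEq (I := Ideal.span {(p : WittVector p (Fl p))})]
    intro n
    have h1 := hL n
    rw [SModEq.sub_mem, smul_eq_mul, Ideal.mul_top, Ideal.span_singleton_pow,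
      Ideal.mem_span_singleton] at h1 ⊢
    have h2 : x - xi p * L = xi p * (s n - L) + (p : WittVector p (Fl p)) ^ n * (b n).1 := by
      conv_lhs => rw [hs n]
      ring
    rw [h2]
    exact dvd_add (Dvd.dvd.mul_left h1 _) (dvd_mul_right _ _)
  · rw [Ideal.span_singleton_le_iff_mem, RingHom.mem_ker]
    exact theta_xi

/-! ### The Galois action -/

theorem sh_tiltMap (σ : 𝓞_ℂ_[p] ≃+* 𝓞_ℂ_[p]) (x : Fl p) (n : ℕ) :
    sh n (BdR.tiltMap 𝓞_ℂ_[p] p σ x) = σ (sh n x) := by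
  have h : BdR.tiltMap 𝓞_ℂ_[p] p σ x = ofSeq (fun n => σ (sh n x)) (fun n => by
      rw [← map_pow, sh_succ_pow]) := by
    refine Perfection.ext fun n => ?_
    show PreTilt.coeff n (BdR.tiltMap 𝓞_ℂ_[p] p σ x) = PreTilt.coeff n (ofSeq (fun n => σ (sh n x)) _)
    rw [BdR.coeff_tiltMap, ← mk_sh, ← mk_sh, sh_ofSeq, BdR.modPMap_mk]
  rw [h, sh_ofSeq]

/-- `z₁ = ζ_p - 1` -/
def zO1 (p : ℕ) [Fact p.Prime] : 𝓞_ℂ_[p] := zO 1 - 1

theorem zO1_ne_zero : zO1 p ≠ 0 := sub_ne_zero.2 zO_one_ne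

theorem galO_zO (g : Gp p) {n m a : ℕ} (hmn : m ≤ n) (ha : (p : ℤ_[p]) ^ n ∣ (cyc g : ℤ_[p]) - a) :
    galO g (zO m) = zO m ^ a := by
  ext
  rw [coe_galO]
  show galC g ((zs (p := p) m : PadicAlgCl p) : ℂ_[p]) = ((zs (p := p) m : PadicAlgCl p) : ℂ_[p]) ^ a
  rw [galC_coe, gal_rootOfUnity g (zs_pow m) a ((pow_dvd_pow _ hmn).trans ha)]
  exact map_pow (algebraMap (PadicAlgCl p) ℂ_[p]) _ _

open WittVector in
theorem gal_key (g : Gp p) (w : WittVector p (Fl p))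
    (hw : BdR.ainfMap 𝓞_ℂ_[p] p (galO g) (xi p) = w * xi p) (n a : ℕ)
    (ha : (p : ℤ_[p]) ^ n ∣ (cyc g : ℤ_[p]) - a) :
    ∃ u : 𝓞_ℂ_[p], fontaineTheta 𝓞_ℂ_[p] p w * galO g (zO1 p) = a * zO1 p + (p : 𝓞_ℂ_[p]) ^ n * u := by
  set σ := galO g with hσ
  set T := (teichmuller p : Fl p →* WittVector p (Fl p)) with hT
  set θ := fontaineTheta 𝓞_ℂ_[p] p with hθ
  have hunit : ∀ m, ‖(zO (p := p) m : ℂ_[p])‖ = 1 := fun m => by
    rw [coe_zO, PadicComplex.norm_extends, norm_zs]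
  -- `g ε = ε^a η`
  obtain ⟨η, hη⟩ : (eps (p := p)) ^ a ∣ BdR.tiltMap 𝓞_ℂ_[p] p σ eps := by
    apply dvd_of_norm_le
    rw [sh_tiltMap, hσ, coe_galO, norm_galC, map_pow, sh_eps]
    show _ ≤ ‖(zO (p := p) 0 : ℂ_[p]) ^ a‖
    rw [norm_pow, hunit, one_pow]
  have hη1 : ∀ m ≤ n, sh m η = 1 := by
    intro m hm
    have h1 : sh m (BdR.tiltMap 𝓞_ℂ_[p] p σ eps) = sh m (eps ^ a * η) := by rw [hη]
    rw [sh_tiltMap, map_mul, map_pow, sh_eps, hσ, galO_zO g hm ha] at h1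
    have h2 : zO (p := p) m ^ a ≠ 0 := by
      intro h0
      have h3 : ‖((zO (p := p) m ^ a : 𝓞_ℂ_[p]) : ℂ_[p])‖ = 0 := by rw [h0]; exact norm_zero
      rw [show ((zO (p := p) m ^ a : 𝓞_ℂ_[p]) : ℂ_[p]) = (zO (p := p) m : ℂ_[p]) ^ a from rfl,
        norm_pow, hunit, one_pow] at h3
      exact one_ne_zero h3
    exact mul_left_cancel₀ h2 (by rw [← h1, mul_one])
  -- `η = δ^{p^n}`
  obtain ⟨δ, hδ⟩ : ∃ δ : Fl p, δ ^ p ^ n = η := by
    refine ⟨(iterateFrobeniusEquiv (Fl p) p n).symm η, ?_⟩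
    exact (iterateFrobeniusEquiv (Fl p) p n).apply_symm_apply η
  have hδ1 : sh 0 δ = 1 := by
    rw [← hη1 n le_rfl, ← hδ, map_pow]
    have h := sh_add_pow 0 n δ
    rw [zero_add] at h
    exact h.symm
  have hθδ : θ (T δ) = 1 := by rw [hθ, hT, fontaineTheta_teichmuller, untilt_eq_sh, hδ1]
  have hθη : θ (T η) = 1 := by rw [hθ, hT, fontaineTheta_teichmuller, untilt_eq_sh, hη1 0 (Nat.zero_le _)]
  have hker : T δ - 1 ∈ RingHom.ker θ := by
    rw [RingHom.mem_ker, map_sub, hθδ, map_one, sub_self]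
  rw [hθ, ker_theta, Ideal.mem_span_singleton] at hker
  obtain ⟨u, hu⟩ := hker
  have hTη : T η - 1 = xi p * u * ∑ i ∈ Finset.range (p ^ n), T δ ^ i := by
    rw [← hu, mul_comm, geom_sum_mul, ← map_pow, hδ]
  have hTa : T eps ^ a - 1 = xi p * (T epsR - 1) * ∑ i ∈ Finset.range a, T eps ^ i := by
    rw [hT, xi_mul, mul_comm, geom_sum_mul]
  have hgω : BdR.ainfMap 𝓞_ℂ_[p] p σ (xi p * (T epsR - 1)) =
      xi p * ((T epsR - 1) * (∑ i ∈ Finset.range a, T eps ^ i) * T η +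
        u * ∑ i ∈ Finset.range (p ^ n), T δ ^ i) := by
    have h1 : BdR.ainfMap 𝓞_ℂ_[p] p σ (xi p * (T epsR - 1)) = T eps ^ a * T η - 1 := by
      rw [hT, xi_mul, map_sub, map_one, BdR.ainfMap_teichmuller, hη, map_mul, map_pow]
    rw [h1]
    calc T eps ^ a * T η - 1 = (T eps ^ a - 1) * T η + (T η - 1) := by ring
      _ = _ := by rw [hTη, hTa]; ring
  have hcancel : w * BdR.ainfMap 𝓞_ℂ_[p] p σ (T epsR - 1) =
      (T epsR - 1) * (∑ i ∈ Finset.range a, T eps ^ i) * T η +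
        u * ∑ i ∈ Finset.range (p ^ n), T δ ^ i := by
    apply mul_left_cancel₀ (xi_ne_zero (p := p))
    rw [← hgω, map_mul, hw]
    ring
  refine ⟨θ u, ?_⟩
  have h2 := congrArg θ hcancel
  have hz : θ (T epsR - 1) = zO1 p := by
    rw [map_sub, map_one, hθ, hT, theta_epsR]
    rfl
  rw [map_mul, hθ, BdR.theta_ainfMap, ← hθ, hz] at h2
  rw [h2, map_add, map_mul, map_mul, map_mul, hz, hθη, map_sum, map_sum]
  simp only [map_pow, hθδ, one_pow]
  have hθe : θ (T eps) = 1 := by rw [hθ, hT, theta_eps]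
  simp only [hθe, one_pow, Finset.sum_const, Finset.card_range, nsmul_eq_mul, mul_one, Nat.cast_pow]
  ring

open WittVector in
/-- The cocycle of `ξ` is that of `ℂ_p(1)`: `θ(g ξ / ξ) · g(ζ_p - 1) = χ(g) (ζ_p - 1)`. -/
theorem gal_xi (g : Gp p) : ∃ w : WittVector p (Fl p),
    BdR.ainfMap 𝓞_ℂ_[p] p (galO g) (xi p) = w * xi p ∧
    (fontaineTheta 𝓞_ℂ_[p] p w : ℂ_[p]) * galC g (zO1 p : ℂ_[p]) =
      algebraMap ℚ_[p] ℂ_[p] ((cyc g : ℤ_[p]) : ℚ_[p]) * (zO1 p : ℂ_[p]) := by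
  have h0 : BdR.ainfMap 𝓞_ℂ_[p] p (galO g) (xi p) ∈ RingHom.ker (fontaineTheta 𝓞_ℂ_[p] p) := by
    rw [RingHom.mem_ker, BdR.theta_ainfMap, theta_xi, map_zero]
  rw [ker_theta, Ideal.mem_span_singleton] at h0
  obtain ⟨w, hw⟩ := h0
  rw [mul_comm] at hw
  refine ⟨w, hw, ?_⟩
  rw [← sub_eq_zero, ← norm_le_zero_iff]
  have key : ∀ n : ℕ, ‖(fontaineTheta 𝓞_ℂ_[p] p w : ℂ_[p]) * galC g (zO1 p : ℂ_[p]) -
      algebraMap ℚ_[p] ℂ_[p] ((cyc g : ℤ_[p]) : ℚ_[p]) * (zO1 p : ℂ_[p])‖ ≤ ((p : ℝ)⁻¹) ^ n := by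
    intro n
    set a := (cyc g : ℤ_[p]).appr n with ha
    have hdvd : (p : ℤ_[p]) ^ n ∣ (cyc g : ℤ_[p]) - a := by
      have := PadicInt.appr_spec n (cyc g : ℤ_[p])
      rwa [Ideal.mem_span_singleton] at this
    obtain ⟨u, hu⟩ := gal_key g w hw n a hdvd
    obtain ⟨v, hv⟩ := hdvd
    have h1 : (fontaineTheta 𝓞_ℂ_[p] p w : ℂ_[p]) * galC g (zO1 p : ℂ_[p]) =
        (a : ℂ_[p]) * (zO1 p : ℂ_[p]) + (p : ℂ_[p]) ^ n * (u : ℂ_[p]) :=
      congrArg (fun z : 𝓞_ℂ_[p] => (z : ℂ_[p])) hu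
    have h2 : ((cyc g : ℤ_[p]) : ℚ_[p]) = (a : ℚ_[p]) + (p : ℚ_[p]) ^ n * (v : ℚ_[p]) := by
      have : (cyc g : ℤ_[p]) = a + p ^ n * v := by rw [← hv]; ring
      rw [this]
      push_cast
      ring
    have h3 : (fontaineTheta 𝓞_ℂ_[p] p w : ℂ_[p]) * galC g (zO1 p : ℂ_[p]) -
        algebraMap ℚ_[p] ℂ_[p] ((cyc g : ℤ_[p]) : ℚ_[p]) * (zO1 p : ℂ_[p]) =
        (p : ℂ_[p]) ^ n * ((u : ℂ_[p]) - algebraMap ℚ_[p] ℂ_[p] (v : ℚ_[p]) * (zO1 p : ℂ_[p])) := by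
      rw [h1, h2, map_add, map_mul, map_pow, map_natCast, map_natCast]
      ring
    rw [h3, norm_mul, norm_pow, norm_p]
    refine mul_le_of_le_one_right (by positivity) ?_
    rw [sub_eq_add_neg]
    refine (IsUltrametricDist.norm_add_le_max _ _).trans (max_le (norm_Oc_le u) ?_)
    rw [norm_neg, norm_mul, norm_algebraMap']
    exact mul_le_one₀ (PadicInt.norm_le_one v) (norm_nonneg _) (norm_Oc_le _)
  exact ge_of_tendsto' (tendsto_pow_atTop_nhds_zero_of_lt_one (inv_nonneg.2 p_pos.le)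
    (inv_lt_one_of_one_lt₀ one_lt_p)) key

end Helper75K9.FM
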