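import Mathlib
import Pool.Agent.Helper75K9.FM.Base
import Pool.Agent.Helper75K9.FM.ZetaNorm
import Pool.Agent.Helper75K9.FM.TateB

/-!
# Integers of the cyclotomic fields `ℚ_p(μ_{p^M})` and the bound for Tate's traces
-/

noncomputable section

namespace Helper75K9.FM

variable {p : ℕ} [Fact p.Prime]

open Polynomial

/-- Two unequal norms: the norm of a sum is the maximum. -/
theorem norm_add_eq_of_lt {x y : PadicAlgCl p} (h : ‖y‖ < ‖x‖) : ‖x + y‖ = ‖x‖ := by
  apply le_antisymm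
  · exact (IsUltrametricDist.norm_add_le_max x y).trans (max_le le_rfl h.le)
  · have h1 : x = (x + y) + (-y) := by ring
    by_contra hlt
    rw [not_le] at hlt
    have h2 : ‖x‖ ≤ max ‖x + y‖ ‖-y‖ := by
      conv_lhs => rw [h1]
      exact IsUltrametricDist.norm_add_le_max _ _
    rw [norm_neg] at h2
    exact absurd h2 (not_le.2 (max_lt hlt h))

/-- Every term of a finite sum whose non-zero terms have pairwise distinct norms is bounded by
the norm of the sum. -/
theorem norm_le_norm_sum_of_distinct {ι : Type*} (s : Finset ι) (t : ι → PadicAlgCl p)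
    (hd : ∀ i ∈ s, ∀ j ∈ s, t i ≠ 0 → t j ≠ 0 → ‖t i‖ = ‖t j‖ → i = j) (i : ι) (hi : i ∈ s) :
    ‖t i‖ ≤ ‖∑ j ∈ s, t j‖ := by
  classical
  obtain ⟨j0, hj0, hmax⟩ := s.exists_max_image (fun j => ‖t j‖) ⟨i, hi⟩
  rcases eq_or_ne (t j0) 0 with h0 | h0
  · have h1 := hmax i hi
    simp only [h0, norm_zero] at h1
    exact h1.trans (norm_nonneg _)
  · have h2 : ‖∑ j ∈ s, t j‖ = ‖t j0‖ := by
      rw [← Finset.add_sum_erase s t hj0]
      apply norm_add_eq_of_lt
      have hpos : 0 < ‖t j0‖ := norm_pos_iff.2 h0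
      rcases (s.erase j0).eq_empty_or_nonempty with he | he
      · rw [he, Finset.sum_empty, norm_zero]
        exact hpos
      · obtain ⟨k, hk, hle⟩ := IsUltrametricDist.exists_norm_finsetSum_le_of_nonempty he t
        refine hle.trans_lt ?_
        have hks := Finset.mem_of_mem_erase hk
        have hkne := Finset.ne_of_mem_erase hk
        refine lt_of_le_of_ne (hmax k hks) ?_
        intro heq
        have hk0 : t k ≠ 0 := by
          rw [← norm_pos_iff]
          rw [heq]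
          exact hpos
        exact hkne (hd k hks j0 hj0 hk0 h0 heq)
    rw [h2]
    exact hmax i hi

theorem mem_Kcyc_iff_aeval {M : ℕ} {ζ : PadicAlgCl p} (hζ : IsPrimitiveRoot ζ (p ^ M))
    {y : PadicAlgCl p} (hy : y ∈ Kcyc p M) : ∃ F : ℚ_[p][X], y = aeval ζ F := by
  have hpos : 0 < p ^ M := pow_pos (Fact.out : p.Prime).pos M
  have : NeZero (p ^ M) := ⟨hpos.ne'⟩
  have hint : IsAlgebraic ℚ_[p] ζ := Algebra.IsAlgebraic.isAlgebraic ζ
  have hle : Kcyc p M ≤ IntermediateField.adjoin ℚ_[p] {ζ} := by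
    refine IntermediateField.adjoin_le_iff.2 ?_
    intro t ht
    have ht' : t ^ p ^ M = 1 := ht
    obtain ⟨i, _, rfl⟩ := hζ.eq_pow_of_pow_eq_one ht'
    exact pow_mem (IntermediateField.subset_adjoin _ _ (Set.mem_singleton ζ)) i
  have h1 : y ∈ (IntermediateField.adjoin ℚ_[p] {ζ}).toSubalgebra := hle hy
  rw [IntermediateField.adjoin_simple_toSubalgebra_of_isAlgebraic hint,
    Algebra.adjoin_singleton_eq_range_aeval] at h1
  obtain ⟨F, hF⟩ := h1
  exact ⟨F, hF.symm⟩

theorem exists_coeffs {M : ℕ} (hM : 1 ≤ M) {ζ : PadicAlgCl p} (hζ : IsPrimitiveRoot ζ (p ^ M))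
    (y : PadicAlgCl p) (hy : y ∈ Kcyc p M) (h1 : ‖y‖ ≤ 1) :
    ∃ a : ℕ → ℤ_[p], y = ∑ j ∈ Finset.range (p ^ (M - 1) * (p - 1)),
      algebraMap ℚ_[p] (PadicAlgCl p) (a j : ℚ_[p]) * ζ ^ j := by
  have hpp : p.Prime := Fact.out
  have hp0 : (0 : ℝ) < p := by exact_mod_cast hpp.pos
  have hp1 : (1 : ℝ) < p := by exact_mod_cast hpp.one_lt
  set d : ℕ := p ^ (M - 1) * (p - 1) with hd
  clear_value d
  have hd0 : 0 < d := by
    rw [hd]
    exact Nat.mul_pos (pow_pos hpp.pos _) (by have := hpp.two_le; omega)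
  set π : PadicAlgCl p := ζ - 1 with hπ
  have hπd : ‖π‖ ^ d = (p : ℝ)⁻¹ := by rw [hd]; exact norm_zeta_sub_one hM hζ
  have hπ0 : 0 < ‖π‖ := by
    rcases (norm_nonneg π).eq_or_lt with h | h
    · rw [← h, zero_pow hd0.ne'] at hπd
      exact absurd hπd (inv_pos.2 hp0).ne
    · exact h
  -- a polynomial of degree < d
  obtain ⟨F0, hF0⟩ := mem_Kcyc_iff_aeval hζ hy
  set Φ : ℚ_[p][X] := cyclotomic (p ^ M) ℚ_[p] with hΦ
  have hΦm : Φ.Monic := cyclotomic.monic _ _
  have hΦd : Φ.natDegree = d := by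
    rw [hΦ, natDegree_cyclotomic, Nat.totient_prime_pow hpp (by omega), hd]
  have hΦ0 : aeval ζ Φ = 0 := by
    have h2 : (cyclotomic (p ^ M) (PadicAlgCl p)).IsRoot ζ :=
      hζ.isRoot_cyclotomic (pow_pos hpp.pos M)
    rw [hΦ, aeval_def, ← eval_map, map_cyclotomic]
    exact h2
  set F : ℚ_[p][X] := F0 %ₘ Φ with hF
  have hyF : y = aeval ζ F := by rw [hF, aeval_modByMonic_eq_self_of_root hΦ0, hF0]
  have hFd : F.natDegree < d := by
    rw [← hΦd]
    refine natDegree_modByMonic_lt F0 hΦm ?_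
    intro h
    rw [h, natDegree_one] at hΦd
    omega
  set G : ℚ_[p][X] := F.comp (X + C 1) with hG
  have hGd : G.natDegree < d := by
    rw [hG, natDegree_comp, natDegree_X_add_C, mul_one]
    exact hFd
  have hFG : F = G.comp (X - C 1) := by
    rw [hG, comp_assoc, add_comp, X_comp, C_comp, sub_add_cancel, comp_X]
  have hyG : y = ∑ j ∈ Finset.range d, algebraMap ℚ_[p] (PadicAlgCl p) (G.coeff j) * π ^ j := by
    have h2 : aeval π G = aeval ζ F := by
      rw [hG, aeval_comp]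
      congr 1
      simp [hπ]
    rw [hyF, ← h2, aeval_eq_sum_range' hGd]
    exact Finset.sum_congr rfl fun j _ => by rw [Algebra.smul_def]
  -- the norms of the terms
  have hnorm : ∀ j : ℕ, G.coeff j ≠ 0 →
      ‖algebraMap ℚ_[p] (PadicAlgCl p) (G.coeff j) * π ^ j‖ ^ d =
        (p : ℝ) ^ (-((d : ℤ) * (G.coeff j).valuation + j)) := by
    intro j hj
    have h6 : ‖algebraMap ℚ_[p] (PadicAlgCl p) (G.coeff j)‖ = ‖G.coeff j‖ :=
      PadicAlgCl.norm_extends p _
    rw [norm_mul, h6, norm_pow, mul_pow, ← pow_mul, mul_comm j d, pow_mul, hπd,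
      Padic.norm_eq_zpow_neg_valuation hj, ← zpow_natCast, ← zpow_natCast, inv_zpow, ← zpow_neg,
      ← zpow_mul, ← zpow_add₀ hp0.ne']
    congr 1
    ring
  have hcoef : ∀ j : ℕ, j < d → ‖G.coeff j‖ ≤ 1 := by
    intro j hj
    by_cases hj0 : G.coeff j = 0
    · rw [hj0, norm_zero]; exact zero_le_one
    have h2 : ‖algebraMap ℚ_[p] (PadicAlgCl p) (G.coeff j) * π ^ j‖ ≤ ‖y‖ := by
      rw [hyG]
      refine norm_le_norm_sum_of_distinct (Finset.range d)
        (fun j => algebraMap ℚ_[p] (PadicAlgCl p) (G.coeff j) * π ^ j) ?_ j (Finset.mem_range.2 hj)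
      intro a ha b hb ha0 hb0 hab
      have ha0' : G.coeff a ≠ 0 := by
        intro h
        apply ha0
        simp [h]
      have hb0' : G.coeff b ≠ 0 := by
        intro h
        apply hb0
        simp [h]
      have h3 : (p : ℝ) ^ (-((d : ℤ) * (G.coeff a).valuation + a)) =
          (p : ℝ) ^ (-((d : ℤ) * (G.coeff b).valuation + b)) := by
        rw [← hnorm a ha0', ← hnorm b hb0', hab]
      have h4 := zpow_right_injective₀ hp0 hp1.ne' h3
      have h5 : (d : ℤ) * (G.coeff a).valuation + a = (d : ℤ) * (G.coeff b).valuation + b := by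
        omega
      have ha' := Finset.mem_range.1 ha
      have hb' := Finset.mem_range.1 hb
      have h6 : ((a : ℤ)) % d = (b : ℤ) % d := by
        have h7 : ((d : ℤ) * (G.coeff a).valuation + a) % d = (a : ℤ) % d := by
          rw [Int.mul_add_emod_self_left]
        have h8 : ((d : ℤ) * (G.coeff b).valuation + b) % d = (b : ℤ) % d := by
          rw [Int.mul_add_emod_self_left]
        rw [← h7, ← h8, h5]
      rw [Int.emod_eq_of_lt (by omega) (by omega), Int.emod_eq_of_lt (by omega) (by omega)] at h6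
      exact_mod_cast h6
    have h3 : ‖algebraMap ℚ_[p] (PadicAlgCl p) (G.coeff j) * π ^ j‖ ^ d ≤ 1 :=
      pow_le_one₀ (norm_nonneg _) (h2.trans h1)
    rw [hnorm j hj0] at h3
    have h4 : -((d : ℤ) * (G.coeff j).valuation + j) ≤ 0 := by
      by_contra h
      rw [not_le] at h
      exact absurd h3 (not_le.2 (one_lt_zpow₀ hp1 h))
    have h5 : 0 ≤ (G.coeff j).valuation := by
      by_contra h
      rw [not_le] at h
      have h6 : (G.coeff j).valuation ≤ -1 := by omega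
      have h7 : (d : ℤ) * (G.coeff j).valuation ≤ d * (-1) :=
        mul_le_mul_of_nonneg_left h6 (by positivity)
      omega
    rw [Padic.norm_eq_zpow_neg_valuation hj0]
    exact zpow_le_one_of_nonpos₀ hp1.le (by omega)
  -- lift to `ℤ_p`
  have hlift : G ∈ lifts (PadicInt.Coe.ringHom (p := p)) := by
    rw [lifts_iff_coeff_lifts]
    intro j
    rcases Nat.lt_or_ge j d with h | h
    · exact ⟨⟨G.coeff j, hcoef j h⟩, rfl⟩
    · refine ⟨0, ?_⟩
      rw [coeff_eq_zero_of_natDegree_lt (lt_of_lt_of_le hGd h), map_zero]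
  obtain ⟨G', hG'⟩ := (mem_lifts G).1 hlift
  refine ⟨fun j => (G'.comp (X - C 1)).coeff j, ?_⟩
  have hF' : F = (G'.comp (X - C 1)).map (PadicInt.Coe.ringHom (p := p)) := by
    rw [Polynomial.map_comp, hG', Polynomial.map_sub, map_X, map_C, map_one, ← hFG]
  rw [hyF, aeval_eq_sum_range' hFd]
  refine Finset.sum_congr rfl fun j _ => ?_
  rw [Algebra.smul_def]
  congr 2
  conv_lhs => rw [hF', coeff_map]
  rfl

theorem tate_bound (hp : p ≠ 2) {N M : ℕ} (hN : 1 ≤ N) (hNM : N ≤ M) (g : Gp p)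
    (h1 : (p : ℤ_[p]) ^ N ∣ (cyc g : ℤ_[p]) - 1)
    (h2 : ¬ (p : ℤ_[p]) ^ (N + 1) ∣ (cyc g : ℤ_[p]) - 1)
    (y : PadicAlgCl p) (hy : y ∈ Kcyc p M) :
    ‖∑ b ∈ Finset.range (p ^ (M - N)), (g ^ b) y‖ ≤ p * ((p : ℝ)⁻¹) ^ (M - N) * ‖y‖ := by
  have hpos : 0 < p ^ M := pow_pos (Fact.out : p.Prime).pos M
  have : NeZero (p ^ M) := ⟨hpos.ne'⟩
  obtain ⟨ζ, hζ⟩ := HasEnoughRootsOfUnity.exists_primitiveRoot (PadicAlgCl p) (p ^ M)
  exact tate_bound_of hp hN hNM hζ.pow_eq_one
    (fun y hy hy1 => exists_coeffs (hN.trans hNM) hζ y hy hy1) g h1 h2 y hy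

end Helper75K9.FM
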