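import Mathlib
import Pool.Agent.Helper75K9.FM.Base

/-!
# Eigenvectors for an open subgroup give eigenvectors for the whole Galois group

`K` is a finite extension of `ℚ_p` in `ℚ̄_p`, and `η` a character of `Gal(ℚ̄_p/ℚ_p)` whose values
are fixed by the Galois action on `ℂ_p`. If `ℂ_p` contains a nonzero element on which
`Gal(ℚ̄_p/K)` acts through `η`, then it contains one on which the whole group acts through `η`.
-/

noncomputable section

namespace Helper75K9.FM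

variable {p : ℕ} [Fact p.Prime]

theorem eigen_extend (K : IntermediateField ℚ_[p] (PadicAlgCl p)) [FiniteDimensional ℚ_[p] K]
    (η : Gp p →* ℂ_[p]ˣ) (hη : ∀ h g : Gp p, galC h (η g : ℂ_[p]) = η g) (x : ℂ_[p]) (hx : x ≠ 0)
    (h : ∀ g : Gp p, (∀ y ∈ K, g y = y) → galC g x = (η g : ℂ_[p]) * x) :
    ∃ y : ℂ_[p], y ≠ 0 ∧ ∀ g : Gp p, galC g y = (η g : ℂ_[p]) * y := by
  classical
  obtain ⟨N, hN⟩ : ∃ N, N = IntermediateField.normalClosure ℚ_[p] K (PadicAlgCl p) := ⟨_, rfl⟩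
  have hKN : K ≤ N := by rw [hN]; exact IntermediateField.le_normalClosure K
  have hnorm : Normal ℚ_[p] N := by rw [hN]; infer_instance
  have hfin : FiniteDimensional ℚ_[p] N := by rw [hN]; infer_instance
  clear hN
  have hnormal : Normal ℚ_[p] (PadicAlgCl p) := inferInstance
  have : Fintype (N ≃ₐ[ℚ_[p]] N) := Fintype.ofFinite _
  obtain ⟨res, hres⟩ : ∃ res : Gp p →* (N ≃ₐ[ℚ_[p]] N),
      res = AlgEquiv.restrictNormalHom (F := ℚ_[p]) (K₁ := PadicAlgCl p) N := ⟨_, rfl⟩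
  have hsurj : Function.Surjective res := by
    rw [hres]; exact AlgEquiv.restrictNormalHom_surjective (PadicAlgCl p)
  have hres' : ∀ (g : Gp p) (a : N), ((res g a : N) : PadicAlgCl p) = g (a : PadicAlgCl p) := by
    intro g a
    rw [hres]
    exact AlgEquiv.restrictNormal_commutes g N a
  obtain ⟨s, hs⟩ := hsurj.hasRightInverse
  -- the function whose sum over the quotient is taken
  obtain ⟨f, hf⟩ : ∃ f : N → Gp p → ℂ_[p], f = fun (a : N) g =>
      ((η g)⁻¹ : ℂ_[p]ˣ) * galC g (((a : PadicAlgCl p) : ℂ_[p]) * x) := ⟨_, rfl⟩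
  have hηinv : ∀ k g : Gp p, galC k (((η g)⁻¹ : ℂ_[p]ˣ) : ℂ_[p]) = ((η g)⁻¹ : ℂ_[p]ˣ) := by
    intro k g
    rw [Units.val_inv_eq_inv_val, map_inv₀, hη]
  have hfk : ∀ (a : N) (g k : Gp p), res k = 1 → f a (g * k) = f a g := by
    intro a g k hk
    have hfix : ∀ y ∈ N, k y = y := by
      intro y hy
      have := hres' k ⟨y, hy⟩
      rw [hk] at this
      exact this.symm
    have hkx : galC k x = (η k : ℂ_[p]) * x := h k (fun y hy => hfix y (hKN hy))
    have hka : galC k ((a : PadicAlgCl p) : ℂ_[p]) = ((a : PadicAlgCl p) : ℂ_[p]) := by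
      rw [galC_coe, hfix a a.2]
    rw [hf]
    simp only
    rw [map_mul galC, RingAut.mul_apply, map_mul (galC k), hka, hkx, map_mul η, mul_inv_rev,
      Units.val_mul]
    have h1 : galC g (((a : PadicAlgCl p) : ℂ_[p]) * ((η k : ℂ_[p]) * x)) =
        (η k : ℂ_[p]) * galC g (((a : PadicAlgCl p) : ℂ_[p]) * x) := by
      rw [mul_left_comm, map_mul (galC g), hη]
    rw [h1]
    have h2 : (((η k)⁻¹ : ℂ_[p]ˣ) : ℂ_[p]) * (η k : ℂ_[p]) = 1 := Units.inv_mul _
    calc _ = ((((η k)⁻¹ : ℂ_[p]ˣ) : ℂ_[p]) * (η k : ℂ_[p])) * (((η g)⁻¹ : ℂ_[p]ˣ) : ℂ_[p]) *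
          galC g (((a : PadicAlgCl p) : ℂ_[p]) * x) := by ring
      _ = _ := by rw [h2, one_mul]
  have hfeq : ∀ (a : N) (g g' : Gp p), res g = res g' → f a g = f a g' := by
    intro a g g' hgg
    have h1 := hfk a g (g⁻¹ * g') (by rw [map_mul, map_inv, hgg, inv_mul_cancel])
    rw [mul_inv_cancel_left] at h1
    exact h1.symm
  have hfh : ∀ (a : N) (k g : Gp p), galC k (f a g) = (η k : ℂ_[p]) * f a (k * g) := by
    intro a k g
    rw [hf]
    simp only
    rw [map_mul (galC k), hηinv, map_mul galC, RingAut.mul_apply, map_mul η, mul_inv_rev,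
      Units.val_mul]
    have h2 : (η k : ℂ_[p]) * (((η k)⁻¹ : ℂ_[p]ˣ) : ℂ_[p]) = 1 := Units.mul_inv _
    calc _ = ((η k : ℂ_[p]) * (((η k)⁻¹ : ℂ_[p]ˣ) : ℂ_[p])) * (((η g)⁻¹ : ℂ_[p]ˣ) : ℂ_[p]) *
          galC k (galC g (((a : PadicAlgCl p) : ℂ_[p]) * x)) := by rw [h2, one_mul]
      _ = _ := by ring
  -- a nonvanishing sum
  obtain ⟨a, ha⟩ : ∃ a : N, ∑ τ : N ≃ₐ[ℚ_[p]] N, f a (s τ) ≠ 0 := by
    by_contra hcon
    push Not at hcon
    have hli : LinearIndependent ℂ_[p] (fun τ : N ≃ₐ[ℚ_[p]] N =>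
        ((((algebraMap (PadicAlgCl p) ℂ_[p]).comp (algebraMap N (PadicAlgCl p))).comp
          ((τ : N ≃+* N) : N →+* N) : N →+* ℂ_[p]) : N → ℂ_[p])) := by
      have h1 := linearIndependent_monoidHom N ℂ_[p]
      refine (h1.comp (fun τ : N ≃ₐ[ℚ_[p]] N =>
        ((((algebraMap (PadicAlgCl p) ℂ_[p]).comp (algebraMap N (PadicAlgCl p))).comp
          ((τ : N ≃+* N) : N →+* N) : N →+* ℂ_[p]) : N →* ℂ_[p])) ?_)
      intro τ τ' hττ
      ext b
      have h2 := DFunLike.congr_fun hττ b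
      have h3 : (algebraMap (PadicAlgCl p) ℂ_[p]) (algebraMap N (PadicAlgCl p) (τ b)) =
          (algebraMap (PadicAlgCl p) ℂ_[p]) (algebraMap N (PadicAlgCl p) (τ' b)) := h2
      exact (algebraMap (PadicAlgCl p) ℂ_[p]).injective h3
    rw [Fintype.linearIndependent_iff] at hli
    have h4 := hli (fun τ => (((η (s τ))⁻¹ : ℂ_[p]ˣ) : ℂ_[p]) * galC (s τ) x) (by
      ext b
      rw [Finset.sum_apply, Pi.zero_apply, ← hcon b]
      apply Finset.sum_congr rfl
      intro τ _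
      rw [hf]
      simp only [Pi.smul_apply, smul_eq_mul, map_mul, galC_coe]
      rw [← hres' (s τ) b, hs τ]
      change (((η (s τ))⁻¹ : ℂ_[p]ˣ) : ℂ_[p]) * galC (s τ) x *
        (((τ b : N) : PadicAlgCl p) : ℂ_[p]) = _
      ring) 1
    rcases mul_eq_zero.1 h4 with h5 | h5
    · exact Units.ne_zero _ h5
    · exact hx ((map_eq_zero_iff _ (galC (s 1)).injective).1 h5)
  refine ⟨∑ τ : N ≃ₐ[ℚ_[p]] N, f a (s τ), ha, fun g => ?_⟩
  rw [map_sum, Finset.mul_sum]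
  refine Fintype.sum_equiv (Equiv.mulLeft (res g)) _ _ (fun τ => ?_)
  rw [hfh]
  congr 1
  apply hfeq
  rw [Equiv.coe_mulLeft, hs, map_mul, hs]

end Helper75K9.FM
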