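import Mathlib
import Pool.Agent.Helper75K9.FM.BdRDefs

/-!
# Leading coefficients in the ring `B_dR`, abstractly

`A` is a commutative ring with an ideal `I` generated by a nonzerodivisor `ξ`, `θ : A → C` is a
homomorphism to a field with kernel `I`.  We consider the `I`-adic completion of `A` and its
localization at the images of the generators of `I`, with compatible actions.
-/

noncomputable section

open Ideal

namespace Helper75K9.BdR

section Lead

variable {A : Type*} [CommRing A] {I : Ideal A}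

theorem exists_rep (x : AdicCompletion I A) : ∃ f : ℕ → A,
    (∀ n, AdicCompletion.evalₐ I n x = Ideal.Quotient.mk (I ^ n) (f n)) ∧
      ∀ m n, m ≤ n → f n - f m ∈ I ^ m := by
  obtain ⟨f, rfl⟩ := AdicCompletion.mk_surjective I A x
  refine ⟨f, fun n => AdicCompletion.evalₐ_mk I n f, fun m n hmn => ?_⟩
  have h := f.2 hmn
  rw [SModEq.sub_mem, smul_eq_mul, Ideal.mul_top] at h
  have h2 := (I ^ m).neg_mem h
  rwa [neg_sub] at h2

theorem of_mul' (a b : A) : AdicCompletion.of I A (a * b) =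
    AdicCompletion.of I A a * AdicCompletion.of I A b := by
  apply AdicCompletion.ext_evalₐ
  intro n
  rw [_root_.map_mul (AdicCompletion.evalₐ I n), AdicCompletion.evalₐ_of,
    AdicCompletion.evalₐ_of, AdicCompletion.evalₐ_of, _root_.map_mul (Ideal.Quotient.mk (I ^ n))]

theorem of_one' : AdicCompletion.of I A 1 = 1 := by
  apply AdicCompletion.ext_evalₐ
  intro n
  rw [_root_.map_one (AdicCompletion.evalₐ I n), AdicCompletion.evalₐ_of,
    _root_.map_one (Ideal.Quotient.mk (I ^ n))]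

variable {ξ : A}

theorem pow_nzd (hnzd : ∀ a, ξ * a = 0 → a = 0) (m : ℕ) (a : A) (h : ξ ^ m * a = 0) : a = 0 := by
  induction m generalizing a with
  | zero => simpa using h
  | succ m ih =>
    rw [pow_succ, mul_assoc] at h
    exact hnzd a (ih (ξ * a) h)

theorem cancel_level (hI : I = Ideal.span {ξ}) (hnzd : ∀ a, ξ * a = 0 → a = 0) {m k : ℕ} {a : A}
    (h : ξ ^ m * a ∈ I ^ (m + k)) : a ∈ I ^ k := by
  rw [hI, Ideal.span_singleton_pow, Ideal.mem_span_singleton] at h ⊢
  obtain ⟨c, hc⟩ := h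
  refine ⟨c, ?_⟩
  have h2 : ξ ^ m * (a - ξ ^ k * c) = 0 := by rw [mul_sub, hc, pow_add]; ring
  exact sub_eq_zero.1 (pow_nzd hnzd m _ h2)

theorem exists_lead (hI : I = Ideal.span {ξ}) {x : AdicCompletion I A} (hx : x ≠ 0) :
    ∃ m : ℕ, ∀ N, m + 1 ≤ N → ∃ y : A, y ∉ I ∧
      AdicCompletion.evalₐ I N x = Ideal.Quotient.mk (I ^ N) (ξ ^ m * y) := by
  classical
  obtain ⟨f, hf, hf2⟩ := exists_rep x
  have hex : ∃ n, AdicCompletion.evalₐ I n x ≠ 0 := by
    by_contra hcon
    push Not at hcon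
    refine hx (AdicCompletion.ext_evalₐ fun n => ?_)
    rw [hcon n, _root_.map_zero (AdicCompletion.evalₐ I n)]
  have hn0 : Nat.find hex ≠ 0 := by
    intro h0
    have := Nat.find_spec hex
    rw [h0] at this
    apply this
    rw [hf 0, Ideal.Quotient.eq_zero_iff_mem, pow_zero, Ideal.one_eq_top]
    exact Submodule.mem_top
  obtain ⟨m, hm⟩ := Nat.exists_eq_succ_of_ne_zero hn0
  have hne : AdicCompletion.evalₐ I (m + 1) x ≠ 0 := by
    have := Nat.find_spec hex
    rwa [hm] at this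
  have hze : AdicCompletion.evalₐ I m x = 0 := by
    have := Nat.find_min hex (show m < Nat.find hex by rw [hm]; exact Nat.lt_succ_self m)
    rwa [not_not] at this
  rw [hf m, Ideal.Quotient.eq_zero_iff_mem] at hze
  rw [hf (m + 1), Ne, Ideal.Quotient.eq_zero_iff_mem] at hne
  refine ⟨m, fun N hN => ?_⟩
  have h1 : f N ∈ I ^ m := by
    have := (I ^ m).add_mem (hf2 m N (by omega)) hze
    rwa [sub_add_cancel] at this
  rw [hI, Ideal.span_singleton_pow, Ideal.mem_span_singleton] at h1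
  obtain ⟨y, hy⟩ := h1
  refine ⟨y, ?_, by rw [hf N, hy]⟩
  intro hyI
  apply hne
  have h2 : f N ∈ I ^ (m + 1) := by
    rw [hI, Ideal.span_singleton_pow, Ideal.mem_span_singleton]
    rw [hI, Ideal.mem_span_singleton] at hyI
    obtain ⟨z, rfl⟩ := hyI
    exact ⟨z, by rw [hy, pow_succ]; ring⟩
  have h3 := (I ^ (m + 1)).sub_mem h2 (hf2 (m + 1) N hN)
  rwa [sub_sub_cancel] at h3

theorem of_xi_nzd (hI : I = Ideal.span {ξ}) (hnzd : ∀ a, ξ * a = 0 → a = 0)
    (x : AdicCompletion I A) (h : AdicCompletion.of I A ξ * x = 0) : x = 0 := by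
  obtain ⟨f, hf, hf2⟩ := exists_rep x
  apply AdicCompletion.ext_evalₐ
  intro n
  rw [_root_.map_zero (AdicCompletion.evalₐ I n), hf n, Ideal.Quotient.eq_zero_iff_mem]
  have h1 : AdicCompletion.evalₐ I (1 + n) (AdicCompletion.of I A ξ * x) = 0 := by
    rw [h, _root_.map_zero (AdicCompletion.evalₐ I (1 + n))]
  rw [_root_.map_mul (AdicCompletion.evalₐ I (1 + n)), AdicCompletion.evalₐ_of, hf (1 + n),
    ← _root_.map_mul (Ideal.Quotient.mk (I ^ (1 + n))), Ideal.Quotient.eq_zero_iff_mem] at h1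
  have h2 : f (1 + n) ∈ I ^ n := cancel_level (m := 1) hI hnzd (by rwa [pow_one])
  have h3 := (I ^ n).sub_mem h2 (hf2 n (1 + n) (by omega))
  rwa [sub_sub_cancel] at h3

theorem genMonoid_form (hI : I = Ideal.span {ξ}) (hnzd : ∀ a, ξ * a = 0 → a = 0)
    {s : AdicCompletion I A} (hs : s ∈ genMonoid I) :
    ∃ (t : ℕ) (v w : A), v * w = 1 ∧ s = AdicCompletion.of I A (v * ξ ^ t) := by
  induction hs using Submonoid.closure_induction with
  | mem x hx =>
    obtain ⟨a, ha, rfl⟩ := hx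
    have ha' : I = Ideal.span {a} := ha
    have h1 : a ∈ Ideal.span {ξ} := by rw [← hI, ha']; exact Ideal.mem_span_singleton_self a
    have h2 : ξ ∈ Ideal.span {a} := by rw [← ha', hI]; exact Ideal.mem_span_singleton_self ξ
    rw [Ideal.mem_span_singleton] at h1 h2
    obtain ⟨b, hb⟩ := h1
    obtain ⟨c, hc⟩ := h2
    refine ⟨1, b, c, ?_, by rw [hb, pow_one, mul_comm]⟩
    have h3 : ξ * (b * c - 1) = 0 := by
      rw [mul_sub, mul_one, ← mul_assoc, ← hb, ← hc, sub_self]
    exact sub_eq_zero.1 (hnzd _ h3)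
  | one => exact ⟨0, 1, 1, by simp, by rw [pow_zero, mul_one, of_one']⟩
  | mul x y _ _ hx hy =>
    obtain ⟨t, v, w, hvw, rfl⟩ := hx
    obtain ⟨t', v', w', hvw', rfl⟩ := hy
    refine ⟨t + t', v * v', w * w', ?_, ?_⟩
    · calc v * v' * (w * w') = (v * w) * (v' * w') := by ring
        _ = 1 := by rw [hvw, hvw', mul_one]
    · rw [← of_mul']
      congr 1
      rw [pow_add]
      ring

theorem of_xi_pow_nzd (hI : I = Ideal.span {ξ}) (hnzd : ∀ a, ξ * a = 0 → a = 0) (t : ℕ)
    (x : AdicCompletion I A) (h : AdicCompletion.of I A (ξ ^ t) * x = 0) : x = 0 := by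
  induction t generalizing x with
  | zero => rwa [pow_zero, of_one', one_mul] at h
  | succ t ih =>
    rw [pow_succ, of_mul', mul_assoc] at h
    exact of_xi_nzd hI hnzd x (ih _ h)

theorem genMonoid_le (hI : I = Ideal.span {ξ}) (hnzd : ∀ a, ξ * a = 0 → a = 0) :
    genMonoid I ≤ nonZeroDivisors (AdicCompletion I A) := by
  intro s hs
  obtain ⟨t, v, w, hvw, rfl⟩ := genMonoid_form hI hnzd hs
  rw [mem_nonZeroDivisors_iff_right]
  intro x hx
  have h1 : AdicCompletion.of I A (ξ ^ t) * x = 0 := by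
    have h2 : AdicCompletion.of I A w * (x * AdicCompletion.of I A (v * ξ ^ t)) = 0 := by
      rw [hx, mul_zero]
    have h3 : AdicCompletion.of I A w * (x * AdicCompletion.of I A (v * ξ ^ t)) =
        AdicCompletion.of I A (w * (v * ξ ^ t)) * x := by rw [of_mul' w]; ring
    rw [h3] at h2
    have h4 : w * (v * ξ ^ t) = ξ ^ t := by
      calc w * (v * ξ ^ t) = (v * w) * ξ ^ t := by ring
        _ = ξ ^ t := by rw [hvw, one_mul]
    rwa [h4] at h2
  exact of_xi_pow_nzd hI hnzd t x h1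

/-- the action of `bplusMap` at level `n` -/
theorem evalₐ_bplusMap' (φ : A →+* A) (h : I ≤ I.comap φ) {n : ℕ} {x : AdicCompletion I A} {a : A}
    (hx : AdicCompletion.evalₐ I n x = Ideal.Quotient.mk (I ^ n) a) :
    AdicCompletion.evalₐ I n (bplusMap I φ h x) = Ideal.Quotient.mk (I ^ n) (φ a) := by
  rw [evalₐ_bplusMap, hx, Ideal.quotientMap_mk]

/-- **Leading coefficients.** -/
theorem leading' {C : Type*} [Field C] (hI : I = Ideal.span {ξ})
    (hnzd : ∀ a, ξ * a = 0 → a = 0) (θ : A →+* C) (hθ : RingHom.ker θ = I) (b : BFull I)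
    (hb : b ≠ 0) :
    ∃ (k : ℤ) (x : C), x ≠ 0 ∧
      ∀ (φ : A ≃+* A) (h : I ≤ I.comap (φ : A →+* A)) (h' : I ≤ I.comap (φ.symm : A →+* A))
        (φC : C →+* C) (_ : ∀ a, θ (φ a) = φC (θ a)) (w c : A) (_ : φ ξ = w * ξ) (_ : θ w ≠ 0)
        (_ : bfullMap I φ h h' b = ofA I c * b), φC x * θ w ^ k = θ c * x := by
  have hker : ∀ a, θ a = 0 ↔ a ∈ I := fun a => by rw [← hθ, RingHom.mem_ker]
  have hinj : Function.Injective (algebraMap (AdicCompletion I A) (BFull I)) :=
    IsLocalization.injective _ (genMonoid_le hI hnzd)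
  obtain ⟨⟨b', s⟩, hbs⟩ := IsLocalization.surj (genMonoid I) b
  simp only at hbs
  have hb' : b' ≠ 0 := by
    rintro rfl
    rw [_root_.map_zero (algebraMap (AdicCompletion I A) (BFull I))] at hbs
    have hu : IsUnit (algebraMap (AdicCompletion I A) (BFull I) s) := IsLocalization.map_units _ s
    exact hb ((hu.mul_left_eq_zero).1 hbs)
  obtain ⟨t, v, w₁, hvw, hs⟩ := genMonoid_form hI hnzd s.2
  obtain ⟨m, hm⟩ := exists_lead hI hb'
  obtain ⟨y, hyI, hy⟩ := hm (m + t + 1) (by omega)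
  have hY : θ y ≠ 0 := fun h0 => hyI ((hker y).1 h0)
  have hV : θ v ≠ 0 := by
    intro h0
    have := congrArg θ hvw
    rw [map_mul, h0, zero_mul, map_one] at this
    exact zero_ne_one this
  refine ⟨(m : ℤ) - t, θ y / θ v, div_ne_zero hY hV, ?_⟩
  intro φ h h' φC hφ w c hw hθw hbc
  -- the relation in the completion
  have hrel : AdicCompletion.of I A c * b' * bplusMap I (φ : A →+* A) h (s : AdicCompletion I A) =
      bplusMap I (φ : A →+* A) h b' * (s : AdicCompletion I A) := by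
    apply hinj
    rw [map_mul, map_mul, map_mul, ← bfullMap_algebraMap I φ h h', ← bfullMap_algebraMap I φ h h',
      ← hbs, map_mul, hbc, ofA_apply]
    ring
  have hlev := congrArg (AdicCompletion.evalₐ I (m + t + 1)) hrel
  have e1 : AdicCompletion.evalₐ I (m + t + 1)
      (bplusMap I (φ : A →+* A) h (s : AdicCompletion I A)) =
      Ideal.Quotient.mk (I ^ (m + t + 1)) (φ (v * ξ ^ t)) := by
    apply evalₐ_bplusMap'
    rw [hs, AdicCompletion.evalₐ_of]
  have e2 : AdicCompletion.evalₐ I (m + t + 1) (bplusMap I (φ : A →+* A) h b') =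
      Ideal.Quotient.mk (I ^ (m + t + 1)) (φ (ξ ^ m * y)) := evalₐ_bplusMap' _ h hy
  have e3 : AdicCompletion.evalₐ I (m + t + 1) (s : AdicCompletion I A) =
      Ideal.Quotient.mk (I ^ (m + t + 1)) (v * ξ ^ t) := by rw [hs, AdicCompletion.evalₐ_of]
  rw [_root_.map_mul (AdicCompletion.evalₐ I (m + t + 1)),
    _root_.map_mul (AdicCompletion.evalₐ I (m + t + 1)),
    _root_.map_mul (AdicCompletion.evalₐ I (m + t + 1)), AdicCompletion.evalₐ_of, hy, e1, e2, e3,
    ← map_mul, ← map_mul, ← map_mul, Ideal.Quotient.eq] at hlev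
  have h4 : c * (ξ ^ m * y) * φ (v * ξ ^ t) - φ (ξ ^ m * y) * (v * ξ ^ t) =
      ξ ^ (m + t) * (c * y * φ v * w ^ t - w ^ m * φ y * v) := by
    simp only [map_mul, map_pow, hw]
    ring
  rw [h4] at hlev
  have h5 := cancel_level (m := m + t) (k := 1) hI hnzd hlev
  rw [pow_one, ← hker, map_sub, sub_eq_zero] at h5
  simp only [map_mul, map_pow, hφ] at h5
  have hγV : φC (θ v) ≠ 0 := by rw [Ne, map_eq_zero]; exact hV
  rw [map_div₀, zpow_sub₀ hθw, zpow_natCast, zpow_natCast]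
  rw [div_mul_div_comm, mul_div_assoc', div_eq_div_iff (mul_ne_zero hγV (pow_ne_zero _ hθw)) hV]
  linear_combination (-1 : C) * h5

theorem leading {A C : Type*} [CommRing A] [IsDomain A] [Field C] (I : Ideal A) (ξ : A)
    (hI : I = Ideal.span {ξ}) (hξ : ξ ≠ 0) (θ : A →+* C) (hθ : RingHom.ker θ = I) (b : BFull I)
    (hb : b ≠ 0) :
    ∃ (k : ℤ) (x : C), x ≠ 0 ∧
      ∀ (φ : A ≃+* A) (h : I ≤ I.comap (φ : A →+* A)) (h' : I ≤ I.comap (φ.symm : A →+* A))
        (φC : C →+* C) (_ : ∀ a, θ (φ a) = φC (θ a)) (w c : A) (_ : φ ξ = w * ξ) (_ : θ w ≠ 0)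
        (_ : bfullMap I φ h h' b = ofA I c * b), φC x * θ w ^ k = θ c * x :=
  leading' hI (fun a ha => (mul_eq_zero.1 ha).resolve_left hξ) θ hθ b hb

end Lead

end Helper75K9.BdR
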