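import Mathlib
import Pool.Agent.Helper75K9.FM.Base

/-!
# No nonzero element of `ℂ_p` on which an open subgroup acts through a character that is trivial
on the kernel of the cyclotomic character and nontrivial elsewhere (Tate's argument)
-/

noncomputable section

namespace Helper75K9.FM

variable {p : ℕ} [Fact p.Prime]

/-- `Kcyc p M` is stable under the Galois group. -/
theorem gal_mem_Kcyc (g : Gp p) {M : ℕ} {x : PadicAlgCl p} (hx : x ∈ Kcyc p M) :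
    g x ∈ Kcyc p M := by
  have h : Kcyc p M ≤ (Kcyc p M).comap (g : PadicAlgCl p →ₐ[ℚ_[p]] PadicAlgCl p) := by
    refine IntermediateField.adjoin_le_iff.2 ?_
    intro t ht
    have ht' : t ^ p ^ M = 1 := ht
    show g t ∈ Kcyc p M
    refine IntermediateField.subset_adjoin _ _ ?_
    show (g t) ^ p ^ M = 1
    rw [← map_pow, ht', map_one]
  exact h hx

/-- `a ≡ 1 mod p^N` implies `a^{p^k} ≡ 1 mod p^{N+k}` (for `N ≥ 1`). -/
theorem dvd_pow_sub_one {a : ℤ_[p]} {N : ℕ} (hN : 1 ≤ N) (h : (p : ℤ_[p]) ^ N ∣ a - 1) (k : ℕ) :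
    (p : ℤ_[p]) ^ (N + k) ∣ a ^ p ^ k - 1 := by
  induction k with
  | zero => simpa using h
  | succ k ih =>
    rw [pow_succ, pow_mul]
    set b := a ^ p ^ k with hb
    -- b = 1 + c with p^(N+k) | c
    have h1 : b ^ p - 1 = (b - 1) * ∑ i ∈ Finset.range p, b ^ i := (mul_geom_sum b p).symm ▸ rfl
    have h2 : (p : ℤ_[p]) ∣ ∑ i ∈ Finset.range p, b ^ i := by
      have h3 : (p : ℤ_[p]) ∣ b - 1 := by
        refine dvd_trans ?_ ih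
        exact dvd_pow_self _ (by omega)
      have h4 : (p : ℤ_[p]) ∣ ∑ i ∈ Finset.range p, (b ^ i - 1) := by
        refine Finset.dvd_sum fun i _ => ?_
        exact dvd_trans h3 (by simpa using sub_dvd_pow_sub_pow b 1 i)
      rw [Finset.sum_sub_distrib] at h4
      simp only [Finset.sum_const, Finset.card_range, nsmul_eq_mul, mul_one] at h4
      have := dvd_add h4 (dvd_refl (p : ℤ_[p]))
      simpa using this
    rw [h1, show N + (k + 1) = (N + k) + 1 by ring, pow_succ]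
    exact mul_dvd_mul ih h2

/-- `γ^{p^k}` fixes `Kcyc p (N + k)` if `γ` is of level `N ≥ 1`. -/
theorem pow_fixes (γ : Gp p) {N k : ℕ} (hN : 1 ≤ N) (h : (p : ℤ_[p]) ^ N ∣ (cyc γ : ℤ_[p]) - 1)
    {x : PadicAlgCl p} (hx : x ∈ Kcyc p (N + k)) : (γ ^ p ^ k) x = x := by
  refine fixes_Kcyc _ ?_ hx
  rw [map_pow, Units.val_pow_eq_pow_val]
  exact dvd_pow_sub_one hN h k

theorem sum_pow_apply_gal (γ : Gp p) {n : ℕ} {x : PadicAlgCl p} (h : (γ ^ n) x = x) :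
    ∑ b ∈ Finset.range n, (γ ^ b) (γ x) = ∑ b ∈ Finset.range n, (γ ^ b) x := by
  have h1 : ∀ b : ℕ, (γ ^ b) (γ x) = (γ ^ (b + 1)) x := by
    intro b
    rw [pow_succ, AlgEquiv.mul_apply]
  simp_rw [h1]
  have h2 := Finset.sum_range_succ (fun b => (γ ^ b) x) n
  have h3 := Finset.sum_range_succ' (fun b => (γ ^ b) x) n
  rw [h2] at h3
  simp only [pow_zero, AlgEquiv.one_apply] at h3
  rw [h] at h3
  exact (add_right_cancel h3).symm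

theorem tate_sen_of
    (hAX : ∀ x : ℂ_[p], (∀ g : Gp p, cyc g = 1 → galC g x = x) → ∀ ε : ℝ, 0 < ε →
      ∃ M : ℕ, ∃ β ∈ Kcyc p M, ‖x - (β : ℂ_[p])‖ < ε)
    (hLEV : ∀ N : ℕ, 1 ≤ N → ∃ g : Gp p, (p : ℤ_[p]) ^ N ∣ (cyc g : ℤ_[p]) - 1 ∧
      ¬ (p : ℤ_[p]) ^ (N + 1) ∣ (cyc g : ℤ_[p]) - 1)
    (hBD : ∀ {N M : ℕ}, 1 ≤ N → N ≤ M → ∀ g : Gp p, (p : ℤ_[p]) ^ N ∣ (cyc g : ℤ_[p]) - 1 →
      ¬ (p : ℤ_[p]) ^ (N + 1) ∣ (cyc g : ℤ_[p]) - 1 → ∀ y : PadicAlgCl p, y ∈ Kcyc p M →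
      ‖∑ b ∈ Finset.range (p ^ (M - N)), (g ^ b) y‖ ≤ p * ((p : ℝ)⁻¹) ^ (M - N) * ‖y‖)
    (N₀ : ℕ) (x : ℂ_[p]) (hx : x ≠ 0) (η : Gp p → ℤ_[p]) (h1 : ∀ g, cyc g = 1 → η g = 1)
    (h2 : ∀ g, cyc g ≠ 1 → (p : ℤ_[p]) ^ N₀ ∣ (cyc g : ℤ_[p]) - 1 → η g ≠ 1)
    (h : ∀ g : Gp p, (p : ℤ_[p]) ^ N₀ ∣ (cyc g : ℤ_[p]) - 1 →
      galC g x = algebraMap ℚ_[p] ℂ_[p] (η g : ℚ_[p]) * x) : False := by
  have hp0 : (0 : ℝ) < p := by exact_mod_cast (Fact.out : p.Prime).pos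
  have hp2 : (2 : ℝ) ≤ p := by exact_mod_cast (Fact.out : p.Prime).two_le
  have hxn : 0 < ‖x‖ := norm_pos_iff.2 hx
  -- nonarchimedean inequalities
  have hna : ∀ a b : ℂ_[p], ‖a + b‖ ≤ max ‖a‖ ‖b‖ := fun a b => PadicComplex.isNonarchimedean p a b
  have hnas : ∀ a b : ℂ_[p], ‖a - b‖ ≤ max ‖a‖ ‖b‖ := by
    intro a b
    have := hna a (-b)
    rwa [norm_neg, ← sub_eq_add_neg] at this
  -- `x` is fixed by the kernel of the cyclotomic character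
  have hfix : ∀ g : Gp p, cyc g = 1 → galC g x = x := by
    intro g hg
    have := h g (by rw [hg]; simp)
    rw [h1 g hg] at this
    simpa using this
  obtain ⟨M₁, β₀, hβ₀, hxβ₀⟩ := hAX x hfix ((p : ℝ)⁻¹ ^ 2 * ‖x‖) (by positivity)
  set N : ℕ := max (max N₀ 1) M₁ with hN
  have hN1 : 1 ≤ N := le_trans (le_max_right _ _) (le_max_left _ _)
  have hN0 : N₀ ≤ N := le_trans (le_max_left _ _) (le_max_left _ _)
  have hβ₀N : β₀ ∈ Kcyc p N := Kcyc_mono (le_max_right _ _) hβ₀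
  obtain ⟨γ, hγ1, hγ2⟩ := hLEV N hN1
  have hγ0 : (p : ℤ_[p]) ^ N₀ ∣ (cyc γ : ℤ_[p]) - 1 := dvd_trans (pow_dvd_pow _ hN0) hγ1
  have hcγ : cyc γ ≠ 1 := by
    intro hc
    apply hγ2
    rw [hc]
    simp
  have hη : η γ ≠ 1 := h2 γ hcγ hγ0
  set e : ℂ_[p] := algebraMap ℚ_[p] ℂ_[p] (η γ : ℚ_[p]) with he
  set e' : PadicAlgCl p := algebraMap ℚ_[p] (PadicAlgCl p) (η γ : ℚ_[p]) with he'
  have hee : ((e' : PadicAlgCl p) : ℂ_[p]) = e := rfl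
  have hen : ‖e‖ ≤ 1 := by
    rw [← hee, PadicComplex.norm_extends, he', norm_algebraMap']
    exact PadicInt.norm_le_one _
  set c : ℝ := ‖(1 : PadicAlgCl p) - e'‖ with hc
  have hc0 : 0 < c := by
    rw [hc, norm_pos_iff, sub_ne_zero]
    intro h'
    apply hη
    have h3 : algebraMap ℚ_[p] (PadicAlgCl p) (1 : ℚ_[p]) =
        algebraMap ℚ_[p] (PadicAlgCl p) (η γ : ℚ_[p]) := by rw [map_one]; exact h'
    have h4 := (algebraMap ℚ_[p] (PadicAlgCl p)).injective h3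
    have h5 : ((η γ : ℤ_[p]) : ℚ_[p]) = ((1 : ℤ_[p]) : ℚ_[p]) := by rw [← h4]; simp
    exact Subtype.coe_injective h5
  have hc1 : c ≤ 1 := by
    have h3 : ‖(((1 : PadicAlgCl p) - e' : PadicAlgCl p) : ℂ_[p])‖ ≤ 1 := by
      have h4 : (((1 : PadicAlgCl p) - e' : PadicAlgCl p) : ℂ_[p]) = 1 - e := by
        rw [← hee]; push_cast; ring
      rw [h4]
      refine (hnas _ _).trans (max_le (by simp) hen)
    rwa [PadicComplex.norm_extends] at h3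
  obtain ⟨M₂, β, hβ, hxβ⟩ := hAX x hfix ((p : ℝ)⁻¹ ^ 3 * c * ‖x‖) (by positivity)
  obtain ⟨k, hk⟩ : ∃ k, max M₂ N = N + k := ⟨max M₂ N - N, by omega⟩
  have hβM : β ∈ Kcyc p (N + k) := hk ▸ Kcyc_mono (le_max_left _ _) hβ
  have hβ₀M : β₀ ∈ Kcyc p (N + k) := Kcyc_mono (by omega) hβ₀N
  -- the averaging operator
  let T : PadicAlgCl p → PadicAlgCl p := fun y => ∑ b ∈ Finset.range (p ^ k), (γ ^ b) y
  have hTb : ∀ y ∈ Kcyc p (N + k), ‖T y‖ ≤ p * ((p : ℝ)⁻¹) ^ k * ‖y‖ := by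
    intro y hy
    have := hBD hN1 (Nat.le_add_right N k) γ hγ1 hγ2 y hy
    rwa [Nat.add_sub_cancel_left] at this
  have hTadd : ∀ y z, T (y - z) = T y - T z := by
    intro y z
    simp only [T, map_sub, Finset.sum_sub_distrib]
  have hTe : ∀ y, T (e' * y) = e' * T y := by
    intro y
    simp only [T, map_mul, Finset.mul_sum]
    refine Finset.sum_congr rfl fun b _ => ?_
    rw [he', AlgEquiv.commutes]
  have hTγ : T (γ β) = T β := sum_pow_apply_gal γ (pow_fixes γ hN1 hγ1 hβM)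
  have hTβ₀ : T β₀ = (p : PadicAlgCl p) ^ k * β₀ := by
    have h3 : ∀ b : ℕ, (γ ^ b) β₀ = β₀ := by
      intro b
      refine fixes_Kcyc _ ?_ hβ₀N
      rw [map_pow, Units.val_pow_eq_pow_val]
      exact dvd_trans hγ1 (by simpa using sub_dvd_pow_sub_pow (cyc γ : ℤ_[p]) 1 b)
    simp only [T, h3, Finset.sum_const, Finset.card_range, nsmul_eq_mul, Nat.cast_pow]
  have hpk : ‖(p : PadicAlgCl p) ^ k‖ = ((p : ℝ)⁻¹) ^ k := by
    rw [norm_pow]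
    congr 1
    have h3 : (p : PadicAlgCl p) = algebraMap ℚ_[p] (PadicAlgCl p) (p : ℚ_[p]) := by simp
    rw [h3, norm_algebraMap', Padic.norm_p]
  have hpk0 : 0 < ((p : ℝ)⁻¹) ^ k := by positivity
  -- the small element
  have hy : ‖γ β - e' * β‖ < (p : ℝ)⁻¹ ^ 3 * c * ‖x‖ := by
    have h3 : ((γ β - e' * β : PadicAlgCl p) : ℂ_[p]) =
        galC γ ((β : ℂ_[p]) - x) - e * ((β : ℂ_[p]) - x) := by
      rw [map_sub, galC_coe, h γ hγ0, ← he, ← hee]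
      push_cast
      ring
    have hbx : ‖(β : ℂ_[p]) - x‖ < (p : ℝ)⁻¹ ^ 3 * c * ‖x‖ := by rwa [norm_sub_rev]
    rw [← PadicComplex.norm_extends, h3]
    refine lt_of_le_of_lt (hnas _ _) (max_lt ?_ ?_)
    · rw [norm_galC]; exact hbx
    · rw [norm_mul]
      refine lt_of_le_of_lt ?_ hbx
      exact mul_le_of_le_one_left (norm_nonneg _) hen
  have hymem : γ β - e' * β ∈ Kcyc p (N + k) :=
    sub_mem (gal_mem_Kcyc γ hβM) (mul_mem ((Kcyc p (N + k)).algebraMap_mem _) hβM)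
  have hTy : T (γ β - e' * β) = (1 - e') * T β := by
    rw [hTadd, hTγ, hTe]; ring
  have hup : c * ‖T β‖ ≤ p * ((p : ℝ)⁻¹) ^ k * ((p : ℝ)⁻¹ ^ 3 * c * ‖x‖) := by
    have h3 := hTb _ hymem
    rw [hTy, norm_mul] at h3
    exact h3.trans (mul_le_mul_of_nonneg_left hy.le (by positivity))
  -- lower bound for `T β`
  have hβ₀n : ‖β₀‖ = ‖x‖ := by
    have h3 : ‖x - (β₀ : ℂ_[p])‖ < ‖x‖ := by
      refine hxβ₀.trans_le ?_
      have : (p : ℝ)⁻¹ ^ 2 ≤ 1 := by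
        apply pow_le_one₀ (by positivity)
        exact inv_le_one_of_one_le₀ (by linarith)
      nlinarith
    have h4 : ‖(β₀ : ℂ_[p])‖ ≤ ‖x‖ := by
      have h5 : (β₀ : ℂ_[p]) = x - (x - β₀) := by ring
      rw [h5]
      exact (hnas _ _).trans (max_le le_rfl h3.le)
    have h6 : ‖x‖ ≤ max ‖x - (β₀ : ℂ_[p])‖ ‖(β₀ : ℂ_[p])‖ := by
      have h5 : x = (x - β₀) + β₀ := by ring
      conv_lhs => rw [h5]
      exact hna _ _
    have h7 : ‖x‖ ≤ ‖(β₀ : ℂ_[p])‖ := by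
      rcases le_max_iff.1 h6 with h8 | h8
      · exact absurd h8 (not_le.2 h3)
      · exact h8
    rw [← PadicComplex.norm_extends]
    exact le_antisymm h4 h7
  have hdiff : ‖β - β₀‖ ≤ (p : ℝ)⁻¹ ^ 2 * ‖x‖ := by
    have h3 : ((β - β₀ : PadicAlgCl p) : ℂ_[p]) = (x - β₀) - (x - β) := by push_cast; ring
    rw [← PadicComplex.norm_extends, h3]
    refine (hnas _ _).trans (max_le hxβ₀.le (hxβ.le.trans ?_))
    have h4 : (p : ℝ)⁻¹ ≤ 1 := inv_le_one_of_one_le₀ (by linarith)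
    have h5 : (p : ℝ)⁻¹ ^ 3 * c ≤ (p : ℝ)⁻¹ ^ 2 := by
      have h6 : (p : ℝ)⁻¹ ^ 3 ≤ (p : ℝ)⁻¹ ^ 2 := pow_le_pow_of_le_one (by positivity) h4 (by norm_num)
      calc (p : ℝ)⁻¹ ^ 3 * c ≤ (p : ℝ)⁻¹ ^ 3 * 1 := mul_le_mul_of_nonneg_left hc1 (by positivity)
        _ ≤ (p : ℝ)⁻¹ ^ 2 := by rw [mul_one]; exact h6
    exact mul_le_mul_of_nonneg_right h5 hxn.le
  have hlow : ((p : ℝ)⁻¹) ^ k * ‖x‖ ≤ ‖T β‖ := by
    have h3 : ‖T (β - β₀)‖ < ((p : ℝ)⁻¹) ^ k * ‖x‖ := by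
      have h4 := hTb _ (sub_mem hβM hβ₀M)
      refine h4.trans_lt ?_
      have h5 : p * ((p : ℝ)⁻¹) ^ k * ‖β - β₀‖ ≤ p * ((p : ℝ)⁻¹) ^ k * ((p : ℝ)⁻¹ ^ 2 * ‖x‖) :=
        mul_le_mul_of_nonneg_left hdiff (by positivity)
      refine h5.trans_lt ?_
      have h6 : p * ((p : ℝ)⁻¹) ^ k * ((p : ℝ)⁻¹ ^ 2 * ‖x‖) =
          (p : ℝ)⁻¹ * (((p : ℝ)⁻¹) ^ k * ‖x‖) := by
        field_simp
      rw [h6]
      have h7 : (p : ℝ)⁻¹ < 1 := inv_lt_one_of_one_lt₀ (by linarith)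
      exact mul_lt_of_lt_one_left (by positivity) h7
    have h8 : T β₀ = T β - T (β - β₀) := by rw [hTadd]; ring
    have h9 : ‖T β₀‖ = ((p : ℝ)⁻¹) ^ k * ‖x‖ := by rw [hTβ₀, norm_mul, hpk, hβ₀n]
    have h10 : ‖T β₀‖ ≤ max ‖T β‖ ‖T (β - β₀)‖ := by
      rw [h8, ← PadicComplex.norm_extends, ← PadicComplex.norm_extends, ← PadicComplex.norm_extends]
      push_cast
      exact hnas _ _
    rw [h9] at h10
    rcases le_max_iff.1 h10 with h11 | h11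
    · exact h11
    · exact absurd h11 (not_le.2 h3)
  have hfin : c * (((p : ℝ)⁻¹) ^ k * ‖x‖) ≤ p * ((p : ℝ)⁻¹) ^ k * ((p : ℝ)⁻¹ ^ 3 * c * ‖x‖) :=
    (mul_le_mul_of_nonneg_left hlow hc0.le).trans hup
  have h12 : p * ((p : ℝ)⁻¹) ^ k * ((p : ℝ)⁻¹ ^ 3 * c * ‖x‖) =
      (p : ℝ)⁻¹ ^ 2 * (c * (((p : ℝ)⁻¹) ^ k * ‖x‖)) := by
    field_simp
  rw [h12] at hfin
  have h13 : (p : ℝ)⁻¹ ^ 2 < 1 := by
    apply pow_lt_one₀ (by positivity) _ (by norm_num)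
    exact inv_lt_one_of_one_lt₀ (by linarith)
  have h14 : 0 < c * (((p : ℝ)⁻¹) ^ k * ‖x‖) := by positivity
  nlinarith

end Helper75K9.FM
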