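import Mathlib
import Pool.Agent.Helper75K9.FM.Base

/-!
# Elements of the Galois group of exact level `N`
-/

noncomputable section

namespace Helper75K9.FM

open Polynomial

variable {p : ℕ} [hp0 : Fact p.Prime]

/-- `Φ_{p^{n+1}}(X + 1)` is Eisenstein over `ℤ_p` -/
theorem eisenstein_cyclotomic (n : ℕ) :
    ((cyclotomic (p ^ (n + 1)) ℤ_[p]).comp (X + 1)).IsEisensteinAt
      (Ideal.span {(p : ℤ_[p])}) := by
  have h := cyclotomic_prime_pow_comp_X_add_one_isEisensteinAt p n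
  have hmap : (cyclotomic (p ^ (n + 1)) ℤ_[p]).comp (X + 1) =
      ((cyclotomic (p ^ (n + 1)) ℤ).comp (X + 1)).map (Int.castRingHom ℤ_[p]) := by
    rw [map_comp, map_cyclotomic, Polynomial.map_add, map_X, Polynomial.map_one]
  have hmonic : ((cyclotomic (p ^ (n + 1)) ℤ).comp (X + 1)).Monic := by
    rw [show (X + 1 : ℤ[X]) = X + C 1 by simp]
    refine (cyclotomic.monic _ ℤ).comp (monic_X_add_C 1) fun h => ?_
    rw [natDegree_X_add_C] at h
    exact zero_ne_one h.symm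
  rw [hmap]
  have hprime : (Ideal.span {(p : ℤ_[p])}).IsPrime :=
    (Ideal.span_singleton_prime PadicInt.prime_p.ne_zero).2 PadicInt.prime_p
  refine (hmonic.map _).isEisensteinAt_of_mem_of_notMem hprime.ne_top ?_ ?_
  · intro i hi
    rw [hmonic.natDegree_map] at hi
    rw [coeff_map]
    have := h.mem hi
    rw [Ideal.submodule_span_eq, Ideal.mem_span_singleton] at this
    obtain ⟨c, hc⟩ := this
    rw [Ideal.mem_span_singleton, hc]
    exact ⟨(c : ℤ_[p]), by simp⟩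
  · have h2 := h.notMem
    rw [coeff_map, Ideal.span_singleton_pow, Ideal.mem_span_singleton]
    rw [Ideal.submodule_span_eq, Ideal.span_singleton_pow, Ideal.mem_span_singleton] at h2
    intro h3
    apply h2
    have h4 := (PadicInt.norm_int_le_pow_iff_dvd (p := p)
      (k := ((cyclotomic (p ^ (n + 1)) ℤ).comp (X + 1)).coeff 0) (n := 2)).1 (by
        have h5 := (PadicInt.norm_le_pow_iff_mem_span_pow (p := p)
          ((((cyclotomic (p ^ (n + 1)) ℤ).comp (X + 1)).coeff 0 : ℤ) : ℤ_[p]) 2).2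
          (Ideal.mem_span_singleton.2 h3)
        exact h5)
    exact_mod_cast h4

theorem irreducible_cyclotomic (n : ℕ) : Irreducible (cyclotomic (p ^ (n + 1)) ℚ_[p]) := by
  have hprime : (Ideal.span {(p : ℤ_[p])}).IsPrime :=
    (Ideal.span_singleton_prime PadicInt.prime_p.ne_zero).2 PadicInt.prime_p
  have hpos : 0 < p ^ (n + 1) := pow_pos hp0.out.pos _
  have hmonic : ((cyclotomic (p ^ (n + 1)) ℤ_[p]).comp (X + 1)).Monic := by
    rw [show (X + 1 : ℤ_[p][X]) = X + C 1 by simp]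
    refine (cyclotomic.monic _ ℤ_[p]).comp (monic_X_add_C 1) fun h => ?_
    rw [natDegree_X_add_C] at h
    exact zero_ne_one h.symm
  have hdeg : 0 < ((cyclotomic (p ^ (n + 1)) ℤ_[p]).comp (X + 1)).natDegree := by
    rw [natDegree_comp, show (X + 1 : ℤ_[p][X]) = X + C 1 by simp, natDegree_X_add_C, mul_one,
      natDegree_cyclotomic]
    exact Nat.totient_pos.2 hpos
  have h1 : Irreducible ((cyclotomic (p ^ (n + 1)) ℤ_[p]).comp (X + 1)) :=
    (eisenstein_cyclotomic n).irreducible hprime hmonic.isPrimitive hdeg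
  have h2 : Irreducible (cyclotomic (p ^ (n + 1)) ℤ_[p]) := by
    have e : (cyclotomic (p ^ (n + 1)) ℤ_[p]).comp (X + 1) =
        algEquivAevalXAddC (1 : ℤ_[p]) (cyclotomic (p ^ (n + 1)) ℤ_[p]) := by
      rw [show (X + 1 : ℤ_[p][X]) = X + C 1 by simp]
      rw [algEquivAevalXAddC_apply, comp, aeval_def]
      rfl
    rw [e] at h1
    exact (MulEquiv.irreducible_iff
      (algEquivAevalXAddC (1 : ℤ_[p]) : ℤ_[p][X] ≃ₐ[ℤ_[p]] ℤ_[p][X])).1 h1
  have h3 := (Monic.irreducible_iff_irreducible_map_fraction_map (K := ℚ_[p])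
    (cyclotomic.monic (p ^ (n + 1)) ℤ_[p])).1 h2
  rwa [map_cyclotomic] at h3

/-- there is an element of the Galois group whose cyclotomic character is `1` modulo `p^N` but not
modulo `p^{N+1}` -/
theorem exists_gal_level2 (N : ℕ) (hN : 1 ≤ N) : ∃ g : Gp p,
    (p : ℤ_[p]) ^ N ∣ (cyc g : ℤ_[p]) - 1 ∧ ¬ (p : ℤ_[p]) ^ (N + 1) ∣ (cyc g : ℤ_[p]) - 1 := by
  obtain ⟨ζ, hζ⟩ := HasEnoughRootsOfUnity.exists_primitiveRoot (PadicAlgCl p) (p ^ (N + 1))
  have hpos : 0 < p ^ (N + 1) := pow_pos hp0.out.pos _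
  have : NeZero ((p ^ (N + 1) : ℕ) : ℚ_[p]) := ⟨by exact_mod_cast hpos.ne'⟩
  have hmin : cyclotomic (p ^ (N + 1)) ℚ_[p] = minpoly ℚ_[p] ζ :=
    hζ.minpoly_eq_cyclotomic_of_irreducible (irreducible_cyclotomic N)
  have hcop : Nat.Coprime (1 + p ^ N) (p ^ (N + 1)) := by
    apply Nat.Coprime.pow_right
    rw [Nat.coprime_comm, Nat.Prime.coprime_iff_not_dvd hp0.out]
    intro h
    have h1 : p ∣ p ^ N := dvd_pow_self p (by omega)
    have h2 : p ∣ 1 := (Nat.dvd_add_left h1).1 h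
    exact hp0.out.one_lt.ne' (Nat.dvd_one.1 h2)
  have hζ' : IsPrimitiveRoot (ζ ^ (1 + p ^ N)) (p ^ (N + 1)) := hζ.pow_of_coprime _ hcop
  have hroot : aeval (ζ ^ (1 + p ^ N)) (minpoly ℚ_[p] ζ) = 0 := by
    rw [← hmin, aeval_def, ← eval_map, map_cyclotomic]
    exact hζ'.isRoot_cyclotomic hpos
  obtain ⟨g, hg⟩ := minpoly.exists_algEquiv_of_root' (K := ℚ_[p]) (L := PadicAlgCl p)
    (Algebra.IsAlgebraic.isAlgebraic ζ) hroot
  have h1 := cyc_of_primitive g hζ (1 + p ^ N) hg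
  obtain ⟨c, hc⟩ := h1
  have hc' : (cyc g : ℤ_[p]) - 1 = (p : ℤ_[p]) ^ N + (p : ℤ_[p]) ^ (N + 1) * c := by
    rw [← hc]
    push_cast
    ring
  refine ⟨g, ?_, ?_⟩
  · rw [hc']
    refine dvd_add dvd_rfl ?_
    rw [pow_succ, mul_assoc]
    exact dvd_mul_right _ _
  · rw [hc']
    intro h
    have h2 : (p : ℤ_[p]) ^ (N + 1) ∣ (p : ℤ_[p]) ^ N :=
      (dvd_add_left (dvd_mul_right _ c)).1 h
    have hne : (p : ℤ_[p]) ≠ 0 := PadicInt.prime_p.ne_zero
    obtain ⟨d, hd⟩ := h2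
    have h3 : (1 : ℤ_[p]) = p * d := by
      apply mul_left_cancel₀ (pow_ne_zero N hne)
      rw [mul_one]
      calc (p : ℤ_[p]) ^ N = (p : ℤ_[p]) ^ (N + 1) * d := hd
        _ = (p : ℤ_[p]) ^ N * (p * d) := by ring
    exact PadicInt.prime_p.not_isUnit (IsUnit.of_mul_eq_one d h3.symm)

/-- there is an element of the Galois group whose cyclotomic character is `1` modulo `p^N` but not
modulo `p^{N+1}` -/
theorem exists_gal_level (_hp : p ≠ 2) (N : ℕ) (hN : 1 ≤ N) : ∃ g : Gp p,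
    (p : ℤ_[p]) ^ N ∣ (cyc g : ℤ_[p]) - 1 ∧ ¬ (p : ℤ_[p]) ^ (N + 1) ∣ (cyc g : ℤ_[p]) - 1 :=
  exists_gal_level2 N hN

end Helper75K9.FM
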