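import Mathlib
import Pool.Agent.Helper75K9.FM.DdR
import Pool.Agent.Helper75K9.FM.Lead
import Pool.Agent.Helper75K9.FM.Field
import Pool.Agent.Helper75K9.FM.Sen
import Pool.Agent.Helper75K9.FM.Coeffs
import Pool.Agent.Helper75K9.FM.TateLevel
import Pool.Agent.Helper75K9.FM.Ax

/-!
# From periods in `B_dR` to eigenvectors in `ℂ_p`
-/

set_option linter.unusedSectionVars false

noncomputable section

namespace Helper75K9.FM

open Helper75K9.BdR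

variable {p : ℕ} [Fact p.Prime]


/-! ### the map `θ : W(𝓞♭)[1/p] → ℂ_p` -/

/-- the inclusion -/
def ocToC : 𝓞_ℂ_[p] →+* ℂ_[p] := (PadicComplexInt p).subtype

theorem ocToC_injective : Function.Injective (ocToC (p := p)) := Subtype.val_injective

theorem isUnit_ocToC_p : IsUnit (ocToC (p := p) ((p : ℕ) : 𝓞_ℂ_[p])) := by
  rw [map_natCast]
  exact isUnit_iff_ne_zero.2 (Nat.cast_ne_zero.2 (Fact.out : p.Prime).ne_zero)

/-- `𝓞[1/p] → ℂ_p` -/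
def locToC : Localization.Away ((p : ℕ) : 𝓞_ℂ_[p]) →+* ℂ_[p] :=
  IsLocalization.Away.lift ((p : ℕ) : 𝓞_ℂ_[p]) (isUnit_ocToC_p (p := p))

theorem locToC_algebraMap (x : 𝓞_ℂ_[p]) :
    locToC (algebraMap _ (Localization.Away ((p : ℕ) : 𝓞_ℂ_[p])) x) = (x : ℂ_[p]) :=
  IsLocalization.Away.lift_eq _ _ _

theorem locToC_injective : Function.Injective (locToC (p := p)) := by
  rw [injective_iff_map_eq_zero]
  intro a ha
  obtain ⟨n, y, hy⟩ := IsLocalization.Away.surj ((p : ℕ) : 𝓞_ℂ_[p]) a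
  have h1 := congrArg (locToC (p := p)) hy
  rw [map_mul, ha, zero_mul, locToC_algebraMap] at h1
  have h2 : y = 0 := Subtype.ext h1.symm
  rw [h2, map_zero] at hy
  have hu : IsUnit (algebraMap 𝓞_ℂ_[p] (Localization.Away ((p : ℕ) : 𝓞_ℂ_[p])) (p : ℕ)) :=
    IsLocalization.Away.algebraMap_isUnit _
  exact (hu.pow n).mul_left_eq_zero.1 hy

/-- `θ : W(𝓞♭)[1/p] → ℂ_p` -/
def thetaC : Localization.Away ((p : ℕ) : WittVector p (PreTilt 𝓞_ℂ_[p] p)) →+* ℂ_[p] :=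
  (locToC (p := p)).comp (fontaineThetaInvertP 𝓞_ℂ_[p] p)

theorem thetaC_algebraMap (x : WittVector p (PreTilt 𝓞_ℂ_[p] p)) :
    thetaC (algebraMap _ _ x) = ((WittVector.fontaineTheta 𝓞_ℂ_[p] p x : 𝓞_ℂ_[p]) : ℂ_[p]) := by
  show locToC (fontaineThetaInvertP 𝓞_ℂ_[p] p (algebraMap _ _ x)) = _
  rw [thetaP_algebraMap, locToC_algebraMap]

theorem ker_thetaC : RingHom.ker (thetaC (p := p)) =
    RingHom.ker (fontaineThetaInvertP 𝓞_ℂ_[p] p) := by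
  ext x
  rw [RingHom.mem_ker, RingHom.mem_ker]
  show locToC (fontaineThetaInvertP 𝓞_ℂ_[p] p x) = 0 ↔ _
  rw [map_eq_zero_iff _ locToC_injective]

theorem locToC_rpEquiv (g : Gp p) (x : Localization.Away ((p : ℕ) : 𝓞_ℂ_[p])) :
    locToC (rpEquiv 𝓞_ℂ_[p] p (galO g) x) = galC g (locToC x) := by
  have key : (locToC (p := p)).comp (rpEquiv 𝓞_ℂ_[p] p (galO g) : _ →+* _) =
      ((galC g : ℂ_[p] →+* ℂ_[p])).comp locToC := by
    refine IsLocalization.ringHom_ext (Submonoid.powers ((p : ℕ) : 𝓞_ℂ_[p])) ?_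
    ext x
    simp only [RingHom.comp_apply, RingHom.coe_coe, rpEquiv_algebraMap, locToC_algebraMap,
      coe_galO]
  exact congrFun (congrArg DFunLike.coe key) x

theorem thetaC_equiv (g : Gp p) (a : Localization.Away ((p : ℕ) : WittVector p (PreTilt 𝓞_ℂ_[p] p))) :
    thetaC (ainfpEquiv 𝓞_ℂ_[p] p (galO g) a) = galC g (thetaC a) := by
  show locToC (fontaineThetaInvertP 𝓞_ℂ_[p] p (ainfpEquiv 𝓞_ℂ_[p] p (galO g) a)) = _
  rw [thetaP_ainfpEquiv, locToC_rpEquiv]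
  rfl

/-! ### uniqueness of ring homomorphisms out of `ℤ_p` -/

theorem zp_hom_unique {S : Type*} [CommRing S] (hS : ∀ x : S, (∀ n : ℕ, (p : S) ^ n ∣ x) → x = 0)
    (f g : ℤ_[p] →+* S) : f = g := by
  ext a
  rw [← sub_eq_zero]
  refine hS _ fun n => ?_
  have h1 : (p : ℤ_[p]) ^ n ∣ a - (a.appr n : ℕ) := by
    have := PadicInt.appr_spec n a
    rwa [Ideal.mem_span_singleton] at this
  obtain ⟨c, hc⟩ := h1
  have h2 : a = (p : ℤ_[p]) ^ n * c + (a.appr n : ℕ) := by rw [← hc]; ring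
  refine ⟨f c - g c, ?_⟩
  conv_lhs => rw [h2]
  simp only [map_add, map_mul, map_pow, map_natCast]
  ring

/-- The canonical map `ℤ_p → 𝓞_ℂ_p`. -/
def zpToOc : ℤ_[p] →+* 𝓞_ℂ_[p] where
  toFun a := ⟨algebraMap ℚ_[p] ℂ_[p] (a : ℚ_[p]), by
    rw [mem_Oc_iff, norm_algebraMap', PadicInt.padic_norm_e_of_padicInt]
    exact a.norm_le_one⟩
  map_one' := Subtype.ext (by simp)
  map_mul' a b := Subtype.ext (by simp)
  map_zero' := Subtype.ext (by simp)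
  map_add' a b := Subtype.ext (by simp)

theorem Oc_sep (x : 𝓞_ℂ_[p]) (h : ∀ n : ℕ, ((p : ℕ) : 𝓞_ℂ_[p]) ^ n ∣ x) : x = 0 := by
  refine (IsHausdorff.haus (I := Ideal.span {((p : ℕ) : 𝓞_ℂ_[p])}) inferInstance) x fun n => ?_
  rw [SModEq.zero, smul_eq_mul, Ideal.mul_top, Ideal.span_singleton_pow,
    Ideal.mem_span_singleton]
  exact h n

theorem theta_zpToAinf (a : ℤ_[p]) :
    ((WittVector.fontaineTheta 𝓞_ℂ_[p] p (zpToAinf 𝓞_ℂ_[p] p a) : 𝓞_ℂ_[p]) : ℂ_[p]) =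
      algebraMap ℚ_[p] ℂ_[p] (a : ℚ_[p]) := by
  have h := zp_hom_unique (p := p) (S := 𝓞_ℂ_[p]) Oc_sep
    ((WittVector.fontaineTheta 𝓞_ℂ_[p] p).comp (zpToAinf 𝓞_ℂ_[p] p)) zpToOc
  exact congrArg Subtype.val (congrFun (congrArg DFunLike.coe h) a)

theorem thetaC_qpToAinfp_zp (a : ℤ_[p]) :
    thetaC (qpToAinfp 𝓞_ℂ_[p] p (algebraMap ℤ_[p] ℚ_[p] a)) =
      algebraMap ℚ_[p] ℂ_[p] (a : ℚ_[p]) := by
  rw [qpToAinfp_algebraMap, thetaC_algebraMap, theta_zpToAinf]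

/-! ### no eigenvector in `ℂ_p` -/

theorem tate_sen (hp : p ≠ 2) (N₀ : ℕ) (x : ℂ_[p]) (hx : x ≠ 0) (η : Gp p → ℤ_[p])
    (h1 : ∀ g, cyc g = 1 → η g = 1)
    (h2 : ∀ g, cyc g ≠ 1 → (p : ℤ_[p]) ^ N₀ ∣ (cyc g : ℤ_[p]) - 1 → η g ≠ 1)
    (h : ∀ g : Gp p, (p : ℤ_[p]) ^ N₀ ∣ (cyc g : ℤ_[p]) - 1 →
      galC g x = algebraMap ℚ_[p] ℂ_[p] (η g : ℚ_[p]) * x) : False :=
  tate_sen_of ax_closure (exists_gal_level hp)
    (fun {_ _} hN hNM g h1 h2 y hy => tate_bound hp hN hNM g h1 h2 y hy) N₀ x hx η h1 h2 h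

/-- `ℤ_pˣ → ℂ_pˣ` -/
def zpUnitsToC : ℤ_[p]ˣ →* ℂ_[p]ˣ :=
  Units.map (((algebraMap ℚ_[p] ℂ_[p]).comp (algebraMap ℤ_[p] ℚ_[p]) : ℤ_[p] →+* ℂ_[p]) :
    ℤ_[p] →* ℂ_[p])

theorem zpUnitsToC_coe (u : ℤ_[p]ˣ) :
    ((zpUnitsToC u : ℂ_[p]ˣ) : ℂ_[p]) = algebraMap ℚ_[p] ℂ_[p] ((u : ℤ_[p]) : ℚ_[p]) := rfl

theorem galC_algebraMap (g : Gp p) (c : ℚ_[p]) :
    galC g (algebraMap ℚ_[p] ℂ_[p] c) = algebraMap ℚ_[p] ℂ_[p] c := by
  have h1 : algebraMap ℚ_[p] ℂ_[p] c = ((algebraMap ℚ_[p] (PadicAlgCl p) c : PadicAlgCl p) : ℂ_[p]) :=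
    rfl
  rw [h1, galC_coe, AlgEquiv.commutes]

/-- No nonzero `x ∈ ℂ_p` on which an open subgroup acts through a character `η` of
`Gal(ℚ̄_p/ℚ_p)` that factors through `cyc`, and is nontrivial whenever
`1 ≠ cyc g ≡ 1 mod p`. -/
theorem no_eigen (hp : p ≠ 2) (K : IntermediateField ℚ_[p] (PadicAlgCl p))
    [FiniteDimensional ℚ_[p] K] (η : Gp p →* ℤ_[p]ˣ)
    (h1 : ∀ g, cyc g = 1 → η g = 1)
    (h2 : ∀ g, cyc g ≠ 1 → (p : ℤ_[p]) ∣ (cyc g : ℤ_[p]) - 1 → η g ≠ 1)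
    (x : ℂ_[p]) (hx : x ≠ 0)
    (h : ∀ g : Gp p, (∀ y ∈ K, g y = y) → galC g x = algebraMap ℚ_[p] ℂ_[p] ((η g : ℤ_[p]) : ℚ_[p]) * x) :
    False := by
  obtain ⟨y, hy, hgy⟩ := eigen_extend K (zpUnitsToC.comp η)
    (fun k g => by
      show galC k ((zpUnitsToC (η g) : ℂ_[p]ˣ) : ℂ_[p]) = _
      rw [zpUnitsToC_coe, galC_algebraMap]
      rfl) x hx h
  refine tate_sen hp 1 y hy (fun g => (η g : ℤ_[p])) ?_ ?_ ?_
  · intro g hg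
    rw [h1 g hg, Units.val_one]
  · intro g hg hpg h3
    rw [pow_one] at hpg
    exact h2 g hg hpg (Units.ext h3)
  · intro g _
    exact hgy g

/-! ### from `B_dR` to `ℂ_p` -/

/-- The data provided by the computation of `ker θ`. -/
structure KerData (xi : WittVector p (PreTilt 𝓞_ℂ_[p] p)) (z1 : ℂ_[p]) : Prop where
  dom : IsDomain (WittVector p (PreTilt 𝓞_ℂ_[p] p))
  ker : RingHom.ker (WittVector.fontaineTheta 𝓞_ℂ_[p] p) = Ideal.span {xi}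
  xi_ne : xi ≠ 0
  z1_ne : z1 ≠ 0
  gal : ∀ g : Gp p, ∃ w : WittVector p (PreTilt 𝓞_ℂ_[p] p), ainfMap 𝓞_ℂ_[p] p (galO g) xi = w * xi ∧
    ((WittVector.fontaineTheta 𝓞_ℂ_[p] p w : 𝓞_ℂ_[p]) : ℂ_[p]) * galC g z1 =
      algebraMap ℚ_[p] ℂ_[p] ((cyc g : ℤ_[p]) : ℚ_[p]) * z1

theorem p_ne_zero_W : ((p : ℕ) : WittVector p (PreTilt 𝓞_ℂ_[p] p)) ≠ 0 := by
  intro h
  have h1 := congrArg (fun z => ((WittVector.fontaineTheta 𝓞_ℂ_[p] p z : 𝓞_ℂ_[p]) : ℂ_[p])) h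
  simp only [map_natCast, map_zero] at h1
  have h2 : ((p : ℕ) : ℂ_[p]) = 0 := h1
  exact (Nat.cast_ne_zero.2 (Fact.out : p.Prime).ne_zero) h2

theorem ker_thetaP {xi : WittVector p (PreTilt 𝓞_ℂ_[p] p)} {z1 : ℂ_[p]} (hd : KerData xi z1) :
    RingHom.ker (fontaineThetaInvertP 𝓞_ℂ_[p] p) =
      Ideal.span {algebraMap (WittVector p (PreTilt 𝓞_ℂ_[p] p)) (Localization.Away ((p : ℕ) : WittVector p (PreTilt 𝓞_ℂ_[p] p))) xi} := by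
  apply le_antisymm
  · intro x hx
    rw [← ker_thetaC, RingHom.mem_ker] at hx
    obtain ⟨n, a, ha⟩ := IsLocalization.Away.surj ((p : ℕ) : WittVector p (PreTilt 𝓞_ℂ_[p] p)) x
    have h1 := congrArg (thetaC (p := p)) ha
    rw [map_mul, hx, zero_mul, thetaC_algebraMap] at h1
    have h2 : a ∈ RingHom.ker (WittVector.fontaineTheta 𝓞_ℂ_[p] p) := by
      rw [RingHom.mem_ker]
      exact Subtype.ext h1.symm
    rw [hd.ker, Ideal.mem_span_singleton] at h2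
    obtain ⟨c, hc⟩ := h2
    have hu : IsUnit (algebraMap (WittVector p (PreTilt 𝓞_ℂ_[p] p)) (Localization.Away ((p : ℕ) : WittVector p (PreTilt 𝓞_ℂ_[p] p))) (p : ℕ)) :=
      IsLocalization.Away.algebraMap_isUnit _
    rw [Ideal.mem_span_singleton]
    rw [hc, map_mul] at ha
    exact ((hu.pow n).dvd_mul_right).1 ⟨_, ha⟩
  · rw [Ideal.span_singleton_le_iff_mem, RingHom.mem_ker, thetaP_algebraMap]
    have h1 : xi ∈ RingHom.ker (WittVector.fontaineTheta 𝓞_ℂ_[p] p) := by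
      rw [hd.ker]
      exact Ideal.mem_span_singleton_self _
    rw [RingHom.mem_ker] at h1
    rw [h1, map_zero]

theorem no_bdr_period {xi : WittVector p (PreTilt 𝓞_ℂ_[p] p)} {z1 : ℂ_[p]} (hd : KerData xi z1) (hp : p ≠ 2)
    (K : IntermediateField ℚ_[p] (PadicAlgCl p)) [FiniteDimensional ℚ_[p] K]
    (χ : Gp p →* ℤ_[p]ˣ) (hχ1 : ∀ g, cyc g = 1 → χ g = 1)
    (hχ2 : ∀ (k : ℤ) (g : Gp p), cyc g ≠ 1 → (p : ℤ_[p]) ∣ (cyc g : ℤ_[p]) - 1 →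
      χ g * cyc g ^ k ≠ 1)
    (b : BdRField p)
    (hb : ∀ g : Gp p, (∀ y ∈ K, g y = y) →
      algebraMap ℚ_[p] (BdRField p) ((χ g : ℤ_[p]) : ℚ_[p]) * galBdR g b = b) : b = 0 := by
  by_contra hb0
  have hdom := hd.dom
  have hpW := p_ne_zero_W (p := p)
  have hpow : Submonoid.powers ((p : ℕ) : WittVector p (PreTilt 𝓞_ℂ_[p] p)) ≤ nonZeroDivisors (WittVector p (PreTilt 𝓞_ℂ_[p] p)) :=
    powers_le_nonZeroDivisors_of_noZeroDivisors hpW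
  have hdomA : IsDomain (Localization.Away ((p : ℕ) : WittVector p (PreTilt 𝓞_ℂ_[p] p))) :=
    IsLocalization.isDomain_localization hpow
  have hinj : Function.Injective (algebraMap (WittVector p (PreTilt 𝓞_ℂ_[p] p)) (Localization.Away ((p : ℕ) : WittVector p (PreTilt 𝓞_ℂ_[p] p)))) :=
    IsLocalization.injective _ hpow
  obtain ⟨k, x, hx, H⟩ := leading (RingHom.ker (fontaineThetaInvertP 𝓞_ℂ_[p] p))
    (algebraMap (WittVector p (PreTilt 𝓞_ℂ_[p] p)) (Localization.Away ((p : ℕ) : WittVector p (PreTilt 𝓞_ℂ_[p] p))) xi) (ker_thetaP hd)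
    (by
      rw [Ne, map_eq_zero_iff _ hinj]
      exact hd.xi_ne) thetaC ker_thetaC b hb0
  have hgz : ∀ g : Gp p, galC g z1 ≠ 0 := by
    intro g h
    rw [map_eq_zero_iff _ (galC g).injective] at h
    exact hd.z1_ne h
  have hcyc0 : ∀ g : Gp p, algebraMap ℚ_[p] ℂ_[p] ((cyc g : ℤ_[p]) : ℚ_[p]) ≠ 0 := by
    intro g
    exact (zpUnitsToC (cyc g)).ne_zero
  have hχ0 : ∀ g : Gp p, algebraMap ℚ_[p] ℂ_[p] ((χ g : ℤ_[p]) : ℚ_[p]) ≠ 0 := by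
    intro g
    exact (zpUnitsToC (χ g)).ne_zero
  have key : ∀ g : Gp p, (∀ y ∈ K, g y = y) →
      galC g (x / z1 ^ k) = algebraMap ℚ_[p] ℂ_[p] ((((χ g * cyc g ^ k)⁻¹ : ℤ_[p]ˣ) : ℤ_[p]) : ℚ_[p])
        * (x / z1 ^ k) := by
    intro g hg
    obtain ⟨w, hw1, hw2⟩ := hd.gal g
    have hθw : thetaC (algebraMap (WittVector p (PreTilt 𝓞_ℂ_[p] p)) (Localization.Away ((p : ℕ) : WittVector p (PreTilt 𝓞_ℂ_[p] p))) w) =
        algebraMap ℚ_[p] ℂ_[p] ((cyc g : ℤ_[p]) : ℚ_[p]) * z1 / galC g z1 := by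
      rw [thetaC_algebraMap, eq_div_iff (hgz g), hw2]
    have hθw0 : thetaC (algebraMap (WittVector p (PreTilt 𝓞_ℂ_[p] p)) (Localization.Away ((p : ℕ) : WittVector p (PreTilt 𝓞_ℂ_[p] p))) w) ≠ 0 := by
      rw [hθw]
      exact div_ne_zero (mul_ne_zero (hcyc0 g) hd.z1_ne) (hgz g)
    have h1 := H (ainfpEquiv 𝓞_ℂ_[p] p (galO g)) (ker_le_comap _ p _) (ker_le_comap_symm _ p _)
      (galC g : ℂ_[p] →+* ℂ_[p]) (fun a => thetaC_equiv g a)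
      (algebraMap (WittVector p (PreTilt 𝓞_ℂ_[p] p)) (Localization.Away ((p : ℕ) : WittVector p (PreTilt 𝓞_ℂ_[p] p))) w)
      (qpToAinfp 𝓞_ℂ_[p] p (algebraMap ℤ_[p] ℚ_[p] (((χ g)⁻¹ : ℤ_[p]ˣ) : ℤ_[p])))
      (by rw [ainfpEquiv_algebraMap, hw1, map_mul]) hθw0
      (by
        have h2 := hb g hg
        have h3 : algebraMap ℚ_[p] (BdRField p)
            (algebraMap ℤ_[p] ℚ_[p] (((χ g)⁻¹ : ℤ_[p]ˣ) : ℤ_[p])) * b = galBdR g b := by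
          rw [← h2, ← mul_assoc, ← map_mul]
          have h4 : (algebraMap ℤ_[p] ℚ_[p] (((χ g)⁻¹ : ℤ_[p]ˣ) : ℤ_[p])) *
              ((χ g : ℤ_[p]) : ℚ_[p]) = 1 := by
            show (algebraMap ℤ_[p] ℚ_[p] (((χ g)⁻¹ : ℤ_[p]ˣ) : ℤ_[p])) *
              (algebraMap ℤ_[p] ℚ_[p] (χ g : ℤ_[p])) = 1
            rw [← map_mul, Units.inv_mul, map_one]
          rw [h4, map_one, one_mul, h2]
        exact h3.symm)
    rw [thetaC_qpToAinfp_zp, hθw] at h1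
    have h5 : galC g x * (algebraMap ℚ_[p] ℂ_[p] ((cyc g : ℤ_[p]) : ℚ_[p]) * z1 / galC g z1) ^ k =
        algebraMap ℚ_[p] ℂ_[p] ((((χ g)⁻¹ : ℤ_[p]ˣ) : ℤ_[p]) : ℚ_[p]) * x := h1
    have h6 : algebraMap ℚ_[p] ℂ_[p] ((((χ g * cyc g ^ k)⁻¹ : ℤ_[p]ˣ) : ℤ_[p]) : ℚ_[p]) =
        algebraMap ℚ_[p] ℂ_[p] ((((χ g)⁻¹ : ℤ_[p]ˣ) : ℤ_[p]) : ℚ_[p]) *
          ((algebraMap ℚ_[p] ℂ_[p] ((cyc g : ℤ_[p]) : ℚ_[p])) ^ k)⁻¹ := by
      rw [← zpUnitsToC_coe, ← zpUnitsToC_coe, ← zpUnitsToC_coe]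
      have h8 : zpUnitsToC ((χ g * cyc g ^ k)⁻¹) =
          zpUnitsToC ((χ g)⁻¹) * (zpUnitsToC (cyc g) ^ k)⁻¹ := by
        rw [mul_inv, map_mul, map_inv zpUnitsToC (cyc g ^ k), map_zpow]
      rw [h8, Units.val_mul, Units.val_inv_eq_inv_val, Units.val_zpow_eq_zpow_val]
    rw [h6, map_div₀, map_zpow₀]
    have h7 := h5
    rw [div_zpow, mul_zpow] at h7
    have hc := zpow_ne_zero k (hcyc0 g)
    have hz := zpow_ne_zero k hd.z1_ne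
    have hgz' := zpow_ne_zero k (hgz g)
    field_simp
    field_simp at h7
    linear_combination h7
  have hxz : x / z1 ^ k ≠ 0 := div_ne_zero hx (zpow_ne_zero k hd.z1_ne)
  refine no_eigen hp K ((χ * cyc ^ k)⁻¹) ?_ ?_ (x / z1 ^ k) hxz ?_
  · intro g hg
    show (χ g * cyc g ^ k)⁻¹ = 1
    rw [hg, hχ1 g hg]
    simp
  · intro g hg hpg h
    have h' : (χ g * cyc g ^ k)⁻¹ = 1 := h
    rw [inv_eq_one] at h'
    exact hχ2 k g hg hpg h'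
  · intro g hg
    exact key g hg

end Helper75K9.FM
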