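import Mathlib
import Pool.Agent.Helper75K9.FM.Local
import Pool.Agent.Helper75K9.FM.Ker

/-!
# `D_dR = 0`
-/

set_option linter.unusedSectionVars false

noncomputable section

open TensorProduct

namespace Helper75K9.FM

open Helper75K9.BdR

variable {p : ℕ} [Fact p.Prime]

theorem kerData : KerData (xi p) ((zO1 p : 𝓞_ℂ_[p]) : ℂ_[p]) where
  dom := inferInstance
  ker := ker_theta
  xi_ne := xi_ne_zero
  z1_ne := fun h => zO1_ne_zero (Subtype.ext h)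
  gal := fun g => gal_xi g

/-- `ℤ_pˣ → ℚ̄_pˣ` -/
def toUnits (p : ℕ) [Fact p.Prime] : ℤ_[p]ˣ →* (PadicAlgCl p)ˣ :=
  Units.map (((algebraMap ℚ_[p] (PadicAlgCl p)).comp (algebraMap ℤ_[p] ℚ_[p]) :
    ℤ_[p] →+* PadicAlgCl p) : ℤ_[p] →* PadicAlgCl p)

theorem equiv_map {ι : Type*} [DecidableEq ι] (B : Module.Basis ι ℚ_[p] (PadicAlgCl p)) (c : ℚ_[p])
    (φ : BdRField p →ₗ[ℚ_[p]] BdRField p) (x : PadicAlgCl p ⊗[ℚ_[p]] BdRField p) (i : ι) :
    TensorProduct.equivFinsuppOfBasisLeft B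
      (TensorProduct.map (c • (LinearMap.id : PadicAlgCl p →ₗ[ℚ_[p]] PadicAlgCl p)) φ x) i =
      c • φ (TensorProduct.equivFinsuppOfBasisLeft B x i) := by
  induction x using TensorProduct.induction_on with
  | zero => simp
  | tmul v b =>
    simp [TensorProduct.map_tmul, smul_smul]
  | add x y hx hy => simp only [map_add, Finsupp.add_apply, hx, hy, smul_add]

theorem ddR_eq_bot (hp : p ≠ 2) (K : IntermediateField ℚ_[p] (PadicAlgCl p))
    [FiniteDimensional ℚ_[p] K] (χ : Gp p →* ℤ_[p]ˣ) (hχ1 : ∀ g, cyc g = 1 → χ g = 1)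
    (hχ2 : ∀ (k : ℤ) (g : Gp p), cyc g ≠ 1 → (p : ℤ_[p]) ∣ (cyc g : ℤ_[p]) - 1 →
      χ g * cyc g ^ k ≠ 1)
    (ρ : K.fixingSubgroup →* (PadicAlgCl p)ˣ)
    (hρ : ∀ g : K.fixingSubgroup, ρ g = toUnits p (χ (g : Gp p))) :
    DdR K (charRep ρ) = ⊥ := by
  rw [eq_bot_iff]
  intro x hx
  rw [Submodule.mem_bot]
  classical
  let B := Module.Basis.ofVectorSpace ℚ_[p] (PadicAlgCl p)
  rw [← (TensorProduct.equivFinsuppOfBasisLeft (N := BdRField p) B).map_eq_zero_iff]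
  ext i
  rw [Finsupp.zero_apply]
  refine no_bdr_period kerData hp K χ hχ1 hχ2 _ ?_
  intro g hg
  have h1 := hx ⟨g, (IntermediateField.mem_fixingSubgroup_iff _ _).2 hg⟩
  have h2 : (charRep ρ ⟨g, (IntermediateField.mem_fixingSubgroup_iff _ _).2 hg⟩).restrictScalars
      ℚ_[p] = ((χ g : ℤ_[p]) : ℚ_[p]) • (LinearMap.id : PadicAlgCl p →ₗ[ℚ_[p]] PadicAlgCl p) := by
    ext v
    show ((ρ _ : (PadicAlgCl p)ˣ) : PadicAlgCl p) * v = _
    rw [hρ]
    show algebraMap ℚ_[p] (PadicAlgCl p) ((χ g : ℤ_[p]) : ℚ_[p]) * v = _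
    rw [LinearMap.smul_apply, Algebra.smul_def]
    rfl
  rw [h2] at h1
  have h3 := equiv_map B ((χ g : ℤ_[p]) : ℚ_[p]) (galBdR g).toLinearMap x i
  rw [h1, Algebra.smul_def] at h3
  exact h3.symm

end Helper75K9.FM
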