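import Mathlib
import Pool.Agent.Helper75K9.FM.Local
import Pool.Agent.Helper75K9.FM.DdRZero

/-!
# `D_dR = 0`, for every prime `p`

The character only has to satisfy `φ(u)^{2m} = u^{-m}` for some `m > 0`.
-/

set_option linter.unusedSectionVars false

noncomputable section

open TensorProduct

namespace Helper75K9.FM

open Helper75K9.BdR

variable {p : ℕ} [Fact p.Prime]

/-- Statement of Tate's theorem `H^0(G, ℂ_p(j)) = 0` for `j ≠ 0`, in the form needed. -/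
def TateStmt (p : ℕ) [Fact p.Prime] : Prop :=
  ∀ (x : ℂ_[p]), x ≠ 0 → ∀ (j : ℤ), j ≠ 0 →
    (∀ g : Gp p, galC g x = algebraMap ℚ_[p] ℂ_[p] (((cyc g ^ j : ℤ_[p]ˣ) : ℤ_[p]) : ℚ_[p]) * x) →
    False

theorem no_eigen2 (hT : TateStmt p) (K : IntermediateField ℚ_[p] (PadicAlgCl p))
    [FiniteDimensional ℚ_[p] K] (j : ℤ) (hj : j ≠ 0) (x : ℂ_[p]) (hx : x ≠ 0)
    (h : ∀ g : Gp p, (∀ y ∈ K, g y = y) →
      galC g x = algebraMap ℚ_[p] ℂ_[p] (((cyc g ^ j : ℤ_[p]ˣ) : ℤ_[p]) : ℚ_[p]) * x) :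
    False := by
  obtain ⟨y, hy, hgy⟩ := eigen_extend K (zpUnitsToC.comp (cyc ^ j))
    (fun k g => by
      show galC k ((zpUnitsToC (cyc g ^ j) : ℂ_[p]ˣ) : ℂ_[p]) = _
      rw [zpUnitsToC_coe, galC_algebraMap]
      rfl) x hx h
  exact hT y hy j hj fun g => hgy g

theorem no_bdr_period2 (hT : TateStmt p) {xi : WittVector p (PreTilt 𝓞_ℂ_[p] p)} {z1 : ℂ_[p]}
    (hd : KerData xi z1)
    (K : IntermediateField ℚ_[p] (PadicAlgCl p)) [FiniteDimensional ℚ_[p] K]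
    (m : ℕ) (hm : 0 < m) (c : Gp p → ℤ_[p]ˣ)
    (hc : ∀ g : Gp p, (∀ y ∈ K, g y = y) → c g ^ (2 * m) = (cyc g)⁻¹ ^ m)
    (b : BdRField p)
    (hb : ∀ g : Gp p, (∀ y ∈ K, g y = y) →
      algebraMap ℚ_[p] (BdRField p) ((c g : ℤ_[p]) : ℚ_[p]) * galBdR g b = b) : b = 0 := by
  by_contra hb0
  have hdom := hd.dom
  have hpW := p_ne_zero_W (p := p)
  have hpow : Submonoid.powers ((p : ℕ) : WittVector p (PreTilt 𝓞_ℂ_[p] p)) ≤
      nonZeroDivisors (WittVector p (PreTilt 𝓞_ℂ_[p] p)) :=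
    powers_le_nonZeroDivisors_of_noZeroDivisors hpW
  have hdomA : IsDomain (Localization.Away ((p : ℕ) : WittVector p (PreTilt 𝓞_ℂ_[p] p))) :=
    IsLocalization.isDomain_localization hpow
  have hinj : Function.Injective (algebraMap (WittVector p (PreTilt 𝓞_ℂ_[p] p))
      (Localization.Away ((p : ℕ) : WittVector p (PreTilt 𝓞_ℂ_[p] p)))) :=
    IsLocalization.injective _ hpow
  obtain ⟨k, x, hx, H⟩ := leading (RingHom.ker (fontaineThetaInvertP 𝓞_ℂ_[p] p))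
    (algebraMap (WittVector p (PreTilt 𝓞_ℂ_[p] p))
      (Localization.Away ((p : ℕ) : WittVector p (PreTilt 𝓞_ℂ_[p] p))) xi) (ker_thetaP hd)
    (by
      rw [Ne, map_eq_zero_iff _ hinj]
      exact hd.xi_ne) thetaC ker_thetaC b hb0
  have hgz : ∀ g : Gp p, galC g z1 ≠ 0 := by
    intro g h
    rw [map_eq_zero_iff _ (galC g).injective] at h
    exact hd.z1_ne h
  have hcyc0 : ∀ g : Gp p, algebraMap ℚ_[p] ℂ_[p] ((cyc g : ℤ_[p]) : ℚ_[p]) ≠ 0 := by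
    intro g
    exact (zpUnitsToC (cyc g)).ne_zero
  have key : ∀ g : Gp p, (∀ y ∈ K, g y = y) →
      galC g (x / z1 ^ k) = algebraMap ℚ_[p] ℂ_[p] ((((c g * cyc g ^ k)⁻¹ : ℤ_[p]ˣ) : ℤ_[p]) : ℚ_[p])
        * (x / z1 ^ k) := by
    intro g hg
    obtain ⟨w, hw1, hw2⟩ := hd.gal g
    have hθw : thetaC (algebraMap (WittVector p (PreTilt 𝓞_ℂ_[p] p))
        (Localization.Away ((p : ℕ) : WittVector p (PreTilt 𝓞_ℂ_[p] p))) w) =
        algebraMap ℚ_[p] ℂ_[p] ((cyc g : ℤ_[p]) : ℚ_[p]) * z1 / galC g z1 := by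
      rw [thetaC_algebraMap, eq_div_iff (hgz g), hw2]
    have hθw0 : thetaC (algebraMap (WittVector p (PreTilt 𝓞_ℂ_[p] p))
        (Localization.Away ((p : ℕ) : WittVector p (PreTilt 𝓞_ℂ_[p] p))) w) ≠ 0 := by
      rw [hθw]
      exact div_ne_zero (mul_ne_zero (hcyc0 g) hd.z1_ne) (hgz g)
    have h1 := H (ainfpEquiv 𝓞_ℂ_[p] p (galO g)) (ker_le_comap _ p _) (ker_le_comap_symm _ p _)
      (galC g : ℂ_[p] →+* ℂ_[p]) (fun a => thetaC_equiv g a)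
      (algebraMap (WittVector p (PreTilt 𝓞_ℂ_[p] p))
        (Localization.Away ((p : ℕ) : WittVector p (PreTilt 𝓞_ℂ_[p] p))) w)
      (qpToAinfp 𝓞_ℂ_[p] p (algebraMap ℤ_[p] ℚ_[p] (((c g)⁻¹ : ℤ_[p]ˣ) : ℤ_[p])))
      (by rw [ainfpEquiv_algebraMap, hw1, map_mul]) hθw0
      (by
        have h2 := hb g hg
        have h3 : algebraMap ℚ_[p] (BdRField p)
            (algebraMap ℤ_[p] ℚ_[p] (((c g)⁻¹ : ℤ_[p]ˣ) : ℤ_[p])) * b = galBdR g b := by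
          rw [← h2, ← mul_assoc, ← map_mul]
          have h4 : (algebraMap ℤ_[p] ℚ_[p] (((c g)⁻¹ : ℤ_[p]ˣ) : ℤ_[p])) *
              ((c g : ℤ_[p]) : ℚ_[p]) = 1 := by
            show (algebraMap ℤ_[p] ℚ_[p] (((c g)⁻¹ : ℤ_[p]ˣ) : ℤ_[p])) *
              (algebraMap ℤ_[p] ℚ_[p] (c g : ℤ_[p])) = 1
            rw [← map_mul, Units.inv_mul, map_one]
          rw [h4, map_one, one_mul, h2]
        exact h3.symm)
    rw [thetaC_qpToAinfp_zp, hθw] at h1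
    have h5 : galC g x * (algebraMap ℚ_[p] ℂ_[p] ((cyc g : ℤ_[p]) : ℚ_[p]) * z1 / galC g z1) ^ k =
        algebraMap ℚ_[p] ℂ_[p] ((((c g)⁻¹ : ℤ_[p]ˣ) : ℤ_[p]) : ℚ_[p]) * x := h1
    have h6 : algebraMap ℚ_[p] ℂ_[p] ((((c g * cyc g ^ k)⁻¹ : ℤ_[p]ˣ) : ℤ_[p]) : ℚ_[p]) =
        algebraMap ℚ_[p] ℂ_[p] ((((c g)⁻¹ : ℤ_[p]ˣ) : ℤ_[p]) : ℚ_[p]) *
          ((algebraMap ℚ_[p] ℂ_[p] ((cyc g : ℤ_[p]) : ℚ_[p])) ^ k)⁻¹ := by
      rw [← zpUnitsToC_coe, ← zpUnitsToC_coe, ← zpUnitsToC_coe]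
      have h8 : zpUnitsToC ((c g * cyc g ^ k)⁻¹) =
          zpUnitsToC ((c g)⁻¹) * (zpUnitsToC (cyc g) ^ k)⁻¹ := by
        rw [mul_inv, map_mul, map_inv zpUnitsToC (cyc g ^ k), map_zpow]
      rw [h8, Units.val_mul, Units.val_inv_eq_inv_val, Units.val_zpow_eq_zpow_val]
    rw [h6, map_div₀, map_zpow₀]
    have h7 := h5
    rw [div_zpow, mul_zpow] at h7
    have hc := zpow_ne_zero k (hcyc0 g)
    have hz := zpow_ne_zero k hd.z1_ne
    have hgz' := zpow_ne_zero k (hgz g)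
    field_simp
    field_simp at h7
    linear_combination h7
  have hxz : x / z1 ^ k ≠ 0 := div_ne_zero hx (zpow_ne_zero k hd.z1_ne)
  have hm' : (m : ℤ) ≠ 0 := by exact_mod_cast hm.ne'
  refine no_eigen2 hT K ((m : ℤ) * (1 - 2 * k)) (mul_ne_zero hm' (by omega))
    ((x / z1 ^ k) ^ (2 * m)) (pow_ne_zero _ hxz) ?_
  intro g hg
  rw [map_pow, key g hg, mul_pow]
  congr 1
  have h9 : (c g * cyc g ^ k)⁻¹ ^ (2 * m) = cyc g ^ ((m : ℤ) * (1 - 2 * k)) := by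
    rw [inv_pow, mul_pow, hc g hg, mul_inv, inv_pow, inv_inv, ← zpow_natCast (cyc g) m,
      ← zpow_natCast (cyc g ^ k), ← zpow_mul, ← zpow_neg, ← zpow_add]
    congr 1
    push_cast
    ring
  rw [← h9, ← zpUnitsToC_coe, ← zpUnitsToC_coe, map_pow, Units.val_pow_eq_pow_val]

theorem finiteDimensional_Kcyc (N : ℕ) : FiniteDimensional ℚ_[p] (Kcyc p N) := by
  classical
  have hfin : {x : PadicAlgCl p | x ^ p ^ N = 1}.Finite := by
    have hpos : 0 < p ^ N := pow_pos (Fact.out : p.Prime).pos N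
    refine ((Polynomial.nthRoots (p ^ N) (1 : PadicAlgCl p)).toFinset.finite_toSet).subset ?_
    intro x hx
    rw [Finset.mem_coe, Multiset.mem_toFinset, Polynomial.mem_nthRoots hpos]
    exact hx
  have := hfin.to_subtype
  exact IntermediateField.finiteDimensional_adjoin fun x _ => Algebra.IsIntegral.isIntegral x

theorem toUnits_injective : Function.Injective (toUnits p) := by
  intro a b h
  ext
  have h1 : algebraMap ℚ_[p] (PadicAlgCl p) ((a : ℤ_[p]) : ℚ_[p]) =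
      algebraMap ℚ_[p] (PadicAlgCl p) ((b : ℤ_[p]) : ℚ_[p]) := congrArg Units.val h
  exact Subtype.ext ((algebraMap ℚ_[p] (PadicAlgCl p)).injective h1)

theorem ddR_eq_bot2 (hT : TateStmt p) (K : IntermediateField ℚ_[p] (PadicAlgCl p))
    [FiniteDimensional ℚ_[p] K] (m : ℕ) (hm : 0 < m) (φ : ℤ_[p]ˣ →* (PadicAlgCl p)ˣ)
    (h1 : ∀ u, φ u ^ (2 * m) = (toUnits p u)⁻¹ ^ m)
    (h2 : ∀ u : ℤ_[p]ˣ, (p : ℤ_[p]) ^ 3 ∣ (u : ℤ_[p]) - 1 → ∃ c : ℤ_[p]ˣ, φ u = toUnits p c)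
    (ρ : K.fixingSubgroup →* (PadicAlgCl p)ˣ)
    (hρ : ∀ g : K.fixingSubgroup, ρ g = φ (cyc (g : Gp p))) :
    DdR K (charRep ρ) = ⊥ := by
  have hKc := finiteDimensional_Kcyc (p := p) 3
  have hfd : FiniteDimensional ℚ_[p] (K ⊔ Kcyc p 3 : IntermediateField ℚ_[p] (PadicAlgCl p)) :=
    IntermediateField.finiteDimensional_sup K (Kcyc p 3)
  have hg3 : ∀ g : Gp p, (∀ y ∈ K ⊔ Kcyc p 3, g y = y) →
      (p : ℤ_[p]) ^ 3 ∣ (cyc g : ℤ_[p]) - 1 := by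
    intro g hg
    obtain ⟨ζ, hζ⟩ := HasEnoughRootsOfUnity.exists_primitiveRoot (PadicAlgCl p) (p ^ 3)
    have h3 : g ζ = ζ ^ 1 := by
      rw [pow_one]
      refine hg ζ ((le_sup_right : Kcyc p 3 ≤ K ⊔ Kcyc p 3) ?_)
      exact IntermediateField.subset_adjoin _ _ hζ.pow_eq_one
    simpa using cyc_of_primitive g hζ 1 h3
  have hex : ∀ g : Gp p, ∃ c : ℤ_[p]ˣ, (∀ y ∈ K ⊔ Kcyc p 3, g y = y) →
      φ (cyc g) = toUnits p c := by
    intro g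
    by_cases hg : ∀ y ∈ K ⊔ Kcyc p 3, g y = y
    · obtain ⟨c, hc⟩ := h2 (cyc g) (hg3 g hg)
      exact ⟨c, fun _ => hc⟩
    · exact ⟨1, fun h => absurd h hg⟩
  choose c hc using hex
  rw [eq_bot_iff]
  intro x hx
  rw [Submodule.mem_bot]
  classical
  let B := Module.Basis.ofVectorSpace ℚ_[p] (PadicAlgCl p)
  rw [← (TensorProduct.equivFinsuppOfBasisLeft (N := BdRField p) B).map_eq_zero_iff]
  ext i
  rw [Finsupp.zero_apply]
  refine no_bdr_period2 hT kerData (K ⊔ Kcyc p 3) m hm c ?_ _ ?_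
  · intro g hg
    apply toUnits_injective
    rw [map_pow, ← hc g hg, h1, map_pow, map_inv]
  · intro g hg
    have hgK : ∀ y ∈ K, g y = y := fun y hy => hg y ((le_sup_left : K ≤ K ⊔ Kcyc p 3) hy)
    have h3 := hx ⟨g, (IntermediateField.mem_fixingSubgroup_iff _ _).2 hgK⟩
    have h4 : (charRep ρ ⟨g, (IntermediateField.mem_fixingSubgroup_iff _ _).2 hgK⟩).restrictScalars
        ℚ_[p] = ((c g : ℤ_[p]) : ℚ_[p]) • (LinearMap.id : PadicAlgCl p →ₗ[ℚ_[p]] PadicAlgCl p) := by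
      ext v
      show ((ρ _ : (PadicAlgCl p)ˣ) : PadicAlgCl p) * v = _
      rw [hρ]
      show ((φ (cyc g) : (PadicAlgCl p)ˣ) : PadicAlgCl p) * v = _
      rw [hc g hg]
      show algebraMap ℚ_[p] (PadicAlgCl p) ((c g : ℤ_[p]) : ℚ_[p]) * v = _
      rw [LinearMap.smul_apply, Algebra.smul_def]
      rfl
    rw [h4] at h3
    have h5 := equiv_map B ((c g : ℤ_[p]) : ℚ_[p]) (galBdR g).toLinearMap x i
    rw [h3, Algebra.smul_def] at h5
    exact h5.symm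

end Helper75K9.FM
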