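import Mathlib
import Pool.Agent.Helper75K9.FM.TateB
import Pool.Agent.Helper75K9.FM.Coeffs

/-!
# Bound for Tate's normalized traces on cyclotomic fields, all primes, level `N ≥ 2`
-/

noncomputable section

namespace Helper75K9.FM

variable {p : ℕ} [Fact p.Prime]

/-- `v(a^k - 1) = v(a - 1) + v(k)` if `p^2 ∣ a - 1`. -/
theorem lte2 {a : ℕ} (ha1 : 1 < a) (h1 : p ^ 2 ∣ a - 1) {k : ℕ} (hk : k ≠ 0) :
    padicValNat p (a ^ k - 1 ^ k) = padicValNat p (a - 1) + padicValNat p k := by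
  have hpp : p.Prime := Fact.out
  have hpa : p ∣ a - 1 := dvd_trans (dvd_pow_self p (by omega)) h1
  have hpna : ¬ p ∣ a := by
    intro h
    have h3 : p ∣ a - (a - 1) := (Nat.dvd_sub h hpa)
    rw [Nat.sub_sub_self ha1.le] at h3
    exact hpp.one_lt.ne' (Nat.dvd_one.1 h3)
  by_cases hp : p = 2
  · subst hp
    rcases Nat.even_or_odd k with hke | hko
    · have h2 := padicValNat.pow_two_sub_pow (x := a) (y := 1) ha1 hpa hpna hk hke
      have h3 : padicValNat 2 (a + 1) = 1 := by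
        have h4 : a + 1 ≠ 0 := by omega
        have h5 : 1 ≤ padicValNat 2 (a + 1) := by
          rw [← padicValNat_dvd_iff_le h4]
          omega
        have h6 : ¬ 2 ≤ padicValNat 2 (a + 1) := by
          rw [← padicValNat_dvd_iff_le h4]
          omega
        omega
      omega
    · have hne : a - 1 ≠ 0 := by omega
      have hk2 : ¬ 2 ∣ k := by
        rw [← even_iff_two_dvd]
        exact Nat.not_even_iff_odd.2 hko
      rw [padicValNat.eq_zero_of_not_dvd hk2, add_zero]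
      -- a^k - 1 = (a-1) * odd
      have h7 : a ^ k - 1 ^ k = (∑ i ∈ Finset.range k, a ^ i) * (a - 1) := by
        have h8 := Nat.geomSum_eq (m := a) (by omega) k
        rw [h8, one_pow, Nat.div_mul_cancel]
        have : a - 1 ∣ a ^ k - 1 ^ k := Nat.sub_dvd_pow_sub_pow a 1 k
        rwa [one_pow] at this
      have hodd : ¬ 2 ∣ ∑ i ∈ Finset.range k, a ^ i := by
        have hao : a % 2 = 1 := by omega
        have h9 : (∑ i ∈ Finset.range k, a ^ i) % 2 = k % 2 := by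
          rw [Finset.sum_nat_mod]
          have h10 : ∀ i ∈ Finset.range k, a ^ i % 2 = 1 := by
            intro i _
            rw [Nat.pow_mod, hao, one_pow]; rfl
          rw [Finset.sum_congr rfl h10]
          simp
        rw [Nat.dvd_iff_mod_eq_zero, h9]
        rcases hko with ⟨t, ht⟩
        omega
      have hsum0 : (∑ i ∈ Finset.range k, a ^ i) ≠ 0 := by
        intro h
        rw [h] at hodd
        exact hodd (dvd_zero _)
      rw [h7, padicValNat.mul hsum0 hne, padicValNat.eq_zero_of_not_dvd hodd, zero_add]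
  · exact padicValNat.pow_sub_pow (hpp.odd_of_ne_two hp) ha1 hpa hpna hk

/-- powers of `a` where `a ≡ 1 mod p^N` exactly: `b ↦ (a^b - 1) / p^N mod p^m` is injective on
`range (p^m)`. -/
theorem pow_div_mod_injOn2 {N m a : ℕ} (hN : 2 ≤ N) (ha1 : 1 < a)
    (h1 : p ^ N ∣ a - 1) (h2 : ¬ p ^ (N + 1) ∣ a - 1) :
    Set.InjOn (fun b : ℕ => (a ^ b - 1) / p ^ N % p ^ m) (Finset.range (p ^ m) : Set ℕ) := by
  have hpp : p.Prime := Fact.out
  have hpa : p ∣ a - 1 := dvd_trans (dvd_pow_self p (by omega)) h1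
  have hpna : ¬ p ∣ a := by
    intro h
    have h3 : p ∣ a - (a - 1) := (Nat.dvd_sub h hpa)
    rw [Nat.sub_sub_self ha1.le] at h3
    exact hpp.one_lt.ne' (Nat.dvd_one.1 h3)
  have hdvd : ∀ b : ℕ, p ^ N ∣ a ^ b - 1 := by
    intro b
    have : a - 1 ∣ a ^ b - 1 ^ b := Nat.sub_dvd_pow_sub_pow a 1 b
    rw [one_pow] at this
    exact dvd_trans h1 this
  have hval : padicValNat p (a - 1) = N := by
    have hne : a - 1 ≠ 0 := by omega
    have hle : N ≤ padicValNat p (a - 1) := (padicValNat_dvd_iff_le hne).1 h1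
    have hlt : ¬ (N + 1 ≤ padicValNat p (a - 1)) := fun h => h2 ((padicValNat_dvd_iff_le hne).2 h)
    omega
  -- main claim
  have key : ∀ b b' : ℕ, b < b' → b' < p ^ m →
      (a ^ b - 1) / p ^ N % p ^ m = (a ^ b' - 1) / p ^ N % p ^ m → False := by
    intro b b' hbb hb' heq
    obtain ⟨k, rfl⟩ := Nat.exists_eq_add_of_lt hbb
    have hk0 : k + 1 ≠ 0 := by omega
    obtain ⟨e, he⟩ := hdvd b
    obtain ⟨e', he'⟩ := hdvd (b + k + 1)
    have hpN : 0 < p ^ N := pow_pos hpp.pos N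
    rw [he, he', Nat.mul_div_cancel_left _ hpN, Nat.mul_div_cancel_left _ hpN] at heq
    -- e ≡ e' mod p^m
    have hab : 1 ≤ a ^ b := Nat.one_le_pow _ _ (by omega)
    have hab' : 1 ≤ a ^ (b + k + 1) := Nat.one_le_pow _ _ (by omega)
    have hmono : a ^ b ≤ a ^ (b + k + 1) := Nat.pow_le_pow_right (by omega) (by omega)
    have hee : e ≤ e' := by
      have : p ^ N * e ≤ p ^ N * e' := by rw [← he, ← he']; omega
      exact Nat.le_of_mul_le_mul_left this hpN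
    have hd : p ^ m ∣ e' - e := (Nat.modEq_iff_dvd' hee).1 heq
    have hd2 : p ^ (N + m) ∣ a ^ (b + k + 1) - a ^ b := by
      have h5 : a ^ (b + k + 1) - a ^ b = p ^ N * (e' - e) := by
        rw [Nat.mul_sub, ← he, ← he']; omega
      rw [h5, pow_add]
      exact mul_dvd_mul_left _ hd
    have h6 : a ^ (b + k + 1) - a ^ b = a ^ b * (a ^ (k + 1) - 1) := by
      rw [Nat.mul_sub, mul_one, ← pow_add, add_assoc]
    rw [h6] at hd2
    have hcop : Nat.Coprime (p ^ (N + m)) (a ^ b) :=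
      Nat.Coprime.pow _ _ ((Nat.Prime.coprime_iff_not_dvd hpp).2 hpna)
    have hd3 : p ^ (N + m) ∣ a ^ (k + 1) - 1 := hcop.dvd_of_dvd_mul_left hd2
    have hne : a ^ (k + 1) - 1 ≠ 0 := by
      have : 1 < a ^ (k + 1) := Nat.one_lt_pow hk0 ha1
      omega
    have h7 : N + m ≤ padicValNat p (a ^ (k + 1) - 1) := (padicValNat_dvd_iff_le hne).1 hd3
    have h8 : padicValNat p (a ^ (k + 1) - 1 ^ (k + 1)) =
        padicValNat p (a - 1) + padicValNat p (k + 1) :=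
      lte2 ha1 (dvd_trans (pow_dvd_pow p hN) h1) hk0
    rw [one_pow, hval] at h8
    have h9 : m ≤ padicValNat p (k + 1) := by omega
    have h10 : p ^ m ∣ k + 1 := (padicValNat_dvd_iff_le hk0).2 h9
    have h11 : p ^ m ≤ k + 1 := Nat.le_of_dvd (Nat.succ_pos k) h10
    omega
  intro b hb b' hb' heq
  rw [Finset.mem_coe, Finset.mem_range] at hb hb'
  rcases lt_trichotomy b b' with h | h | h
  · exact (key b b' h hb' heq).elim
  · exact h
  · exact (key b' b h hb heq.symm).elim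

/-- The sum of `z^(a^b)` over `b < p^m` for a `p^(N+m)`-th root of unity `z`. -/
theorem norm_sum_pow_pow_le2 {N m a : ℕ} (hN : 2 ≤ N) (ha1 : 1 < a)
    (h1 : p ^ N ∣ a - 1) (h2 : ¬ p ^ (N + 1) ∣ a - 1) (z : PadicAlgCl p)
    (hz : z ^ p ^ (N + m) = 1) :
    ‖∑ b ∈ Finset.range (p ^ m), z ^ (a ^ b)‖ ≤ ((p : ℝ)⁻¹) ^ m := by
  have hpp : p.Prime := Fact.out
  set w : PadicAlgCl p := z ^ p ^ N with hw
  have hwm : w ^ p ^ m = 1 := by rw [hw, ← pow_mul, ← pow_add, hz]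
  set σ : ℕ → ℕ := fun b => (a ^ b - 1) / p ^ N % p ^ m with hσ
  have hterm : ∀ b : ℕ, z ^ (a ^ b) = z * w ^ (σ b) := by
    intro b
    have hd : p ^ N ∣ a ^ b - 1 := by
      have : a - 1 ∣ a ^ b - 1 ^ b := Nat.sub_dvd_pow_sub_pow a 1 b
      rw [one_pow] at this
      exact dvd_trans h1 this
    obtain ⟨e, he⟩ := hd
    have hab : 1 ≤ a ^ b := Nat.one_le_pow _ _ (by omega)
    have h3 : a ^ b = 1 + p ^ N * e := by omega
    have hpN : 0 < p ^ N := pow_pos hpp.pos N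
    have h4 : σ b = e % p ^ m := by
      simp only [hσ]
      rw [he, Nat.mul_div_cancel_left _ hpN]
    have h5 : w ^ e = w ^ (e % p ^ m) := by
      conv_lhs => rw [← Nat.div_add_mod e (p ^ m), pow_add, pow_mul, hwm, one_pow, one_mul]
    rw [h4, ← h5, h3, pow_add, pow_one, pow_mul]
  have hsum : ∑ b ∈ Finset.range (p ^ m), z ^ (a ^ b) =
      z * ∑ c ∈ Finset.range (p ^ m), w ^ c := by
    have hinj : Set.InjOn σ (Finset.range (p ^ m) : Set ℕ) :=
      pow_div_mod_injOn2 hN ha1 h1 h2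
    have himg : (Finset.range (p ^ m)).image σ = Finset.range (p ^ m) := by
      refine Finset.eq_of_subset_of_card_le ?_ ?_
      · intro c hc
        obtain ⟨b, _, rfl⟩ := Finset.mem_image.1 hc
        exact Finset.mem_range.2 (Nat.mod_lt _ (pow_pos hpp.pos m))
      · rw [Finset.card_image_of_injOn hinj]
    have h6 : ∑ c ∈ Finset.range (p ^ m), w ^ c = ∑ b ∈ Finset.range (p ^ m), w ^ σ b := by
      conv_lhs => rw [← himg]
      exact Finset.sum_image hinj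
    rw [h6, Finset.mul_sum]
    exact Finset.sum_congr rfl fun b _ => hterm b
  have hznorm : ‖z‖ = 1 := by
    have h3 : ‖z‖ ^ p ^ (N + m) = 1 := by rw [← norm_pow, hz, norm_one]
    exact (pow_eq_one_iff_of_nonneg (norm_nonneg z) (pow_pos hpp.pos _).ne').1 h3
  rw [hsum, norm_mul, hznorm, one_mul]
  by_cases hw1 : w = 1
  · rw [hw1]
    simp only [one_pow, Finset.sum_const, Finset.card_range, nsmul_eq_mul, mul_one]
    have h3 : ((p ^ m : ℕ) : PadicAlgCl p) = algebraMap ℚ_[p] (PadicAlgCl p) ((p : ℚ_[p]) ^ m) := by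
      simp
    rw [h3]
    have h4 : ‖algebraMap ℚ_[p] (PadicAlgCl p) ((p : ℚ_[p]) ^ m)‖ = ‖(p : ℚ_[p]) ^ m‖ :=
      PadicAlgCl.norm_extends p _
    rw [h4, norm_pow, Padic.norm_p]
  · have h3 : (w - 1) * ∑ c ∈ Finset.range (p ^ m), w ^ c = 0 := by
      rw [mul_geom_sum, hwm, sub_self]
    have h4 : ∑ c ∈ Finset.range (p ^ m), w ^ c = 0 := by
      rcases mul_eq_zero.1 h3 with h | h
      · exact absurd (sub_eq_zero.1 h) hw1
      · exact h
    rw [h4, norm_zero]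
    positivity

theorem tate_bound_of2 {N M : ℕ} (hN : 2 ≤ N) (hNM : N ≤ M)
    {ζ : PadicAlgCl p} (hζ : ζ ^ p ^ M = 1) (hco : Coeffs p M ζ) (g : Gp p)
    (h1 : (p : ℤ_[p]) ^ N ∣ (cyc g : ℤ_[p]) - 1)
    (h2 : ¬ (p : ℤ_[p]) ^ (N + 1) ∣ (cyc g : ℤ_[p]) - 1)
    (y : PadicAlgCl p) (hy : y ∈ Kcyc p M) :
    ‖∑ b ∈ Finset.range (p ^ (M - N)), (g ^ b) y‖ ≤ p * ((p : ℝ)⁻¹) ^ (M - N) * ‖y‖ := by
  have hpp : p.Prime := Fact.out
  have hp0 : (0 : ℝ) < p := by exact_mod_cast hpp.pos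
  have hp1 : (1 : ℝ) < p := by exact_mod_cast hpp.one_lt
  obtain ⟨a, ha1, haN, haN', haM⟩ := exists_nat_approx (by omega) hNM g h1 h2
  set m := M - N with hm
  have hMm : M = N + m := by omega
  -- integral case
  have hint : ∀ y : PadicAlgCl p, y ∈ Kcyc p M → ‖y‖ ≤ 1 →
      ‖∑ b ∈ Finset.range (p ^ m), (g ^ b) y‖ ≤ ((p : ℝ)⁻¹) ^ m := by
    intro y hy hy1
    obtain ⟨c, hc⟩ := hco y hy hy1
    have h3 : ∑ b ∈ Finset.range (p ^ m), (g ^ b) y =
        ∑ j ∈ Finset.range (p ^ (M - 1) * (p - 1)),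
          algebraMap ℚ_[p] (PadicAlgCl p) (c j : ℚ_[p]) *
            ∑ b ∈ Finset.range (p ^ m), (ζ ^ j) ^ (a ^ b) := by
      have h4 : ∀ b : ℕ, (g ^ b) y = ∑ j ∈ Finset.range (p ^ (M - 1) * (p - 1)),
          algebraMap ℚ_[p] (PadicAlgCl p) (c j : ℚ_[p]) * (ζ ^ j) ^ (a ^ b) := by
        intro b
        conv_lhs => rw [hc]
        rw [map_sum]
        refine Finset.sum_congr rfl fun j _ => ?_
        rw [map_mul, AlgEquiv.commutes]
        congr 1
        exact pow_gal_rootOfUnity g haM (by rw [← pow_mul, mul_comm, pow_mul, hζ, one_pow]) b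
      simp only [h4]
      rw [Finset.sum_comm]
      exact Finset.sum_congr rfl fun j _ => (Finset.mul_sum _ _ _).symm
    rw [h3]
    refine IsUltrametricDist.norm_sum_le_of_forall_le_of_nonneg (by positivity) fun j _ => ?_
    rw [norm_mul]
    have h5 : ‖algebraMap ℚ_[p] (PadicAlgCl p) (c j : ℚ_[p])‖ ≤ 1 := by
      have h6 : ‖algebraMap ℚ_[p] (PadicAlgCl p) (c j : ℚ_[p])‖ = ‖(c j : ℚ_[p])‖ :=
        PadicAlgCl.norm_extends p _
      rw [h6]
      exact (c j).2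
    have h7 : ‖∑ b ∈ Finset.range (p ^ m), (ζ ^ j) ^ (a ^ b)‖ ≤ ((p : ℝ)⁻¹) ^ m :=
      norm_sum_pow_pow_le2 hN ha1 haN haN' (ζ ^ j)
        (by rw [← hMm, ← pow_mul, mul_comm, pow_mul, hζ, one_pow])
    calc ‖algebraMap ℚ_[p] (PadicAlgCl p) (c j : ℚ_[p])‖ *
          ‖∑ b ∈ Finset.range (p ^ m), (ζ ^ j) ^ (a ^ b)‖
        ≤ 1 * ((p : ℝ)⁻¹) ^ m := mul_le_mul h5 h7 (norm_nonneg _) zero_le_one
      _ = _ := one_mul _
  by_cases hy0 : y = 0
  · simp [hy0]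
  obtain ⟨n, hn1, hn2⟩ := exists_mem_Ioc_zpow (norm_pos_iff.2 hy0) hp1
  set c : PadicAlgCl p := algebraMap ℚ_[p] (PadicAlgCl p) ((p : ℚ_[p]) ^ (n + 1)) with hcdef
  have hcn : ‖c‖ = ((p : ℝ) ^ (n + 1))⁻¹ := by
    have h6 : ‖c‖ = ‖(p : ℚ_[p]) ^ (n + 1)‖ := PadicAlgCl.norm_extends p _
    rw [h6, norm_zpow, Padic.norm_p, inv_zpow]
  have hcpos : (0 : ℝ) < (p : ℝ) ^ (n + 1) := zpow_pos hp0 _
  have hcy : c * y ∈ Kcyc p M := mul_mem (IntermediateField.algebraMap_mem _ _) hy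
  have hcy1 : ‖c * y‖ ≤ 1 := by
    rw [norm_mul, hcn, inv_mul_le_iff₀ hcpos, mul_one]
    exact hn2
  have h3 := hint (c * y) hcy hcy1
  have h4 : ∑ b ∈ Finset.range (p ^ m), (g ^ b) (c * y) =
      c * ∑ b ∈ Finset.range (p ^ m), (g ^ b) y := by
    rw [Finset.mul_sum]
    refine Finset.sum_congr rfl fun b _ => ?_
    rw [map_mul, hcdef, AlgEquiv.commutes]
  rw [h4, norm_mul, hcn, inv_mul_le_iff₀ hcpos] at h3
  refine h3.trans ?_
  have h5 : (p : ℝ) ^ (n + 1) = p * (p : ℝ) ^ n := by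
    rw [zpow_add_one₀ hp0.ne', mul_comm]
  rw [h5]
  have h6 : (0 : ℝ) ≤ ((p : ℝ)⁻¹) ^ m := by positivity
  nlinarith [mul_le_mul_of_nonneg_left hn1.le (mul_nonneg hp0.le h6)]

theorem tate_bound2 {N M : ℕ} (hN : 2 ≤ N) (hNM : N ≤ M) (g : Gp p)
    (h1 : (p : ℤ_[p]) ^ N ∣ (cyc g : ℤ_[p]) - 1)
    (h2 : ¬ (p : ℤ_[p]) ^ (N + 1) ∣ (cyc g : ℤ_[p]) - 1)
    (y : PadicAlgCl p) (hy : y ∈ Kcyc p M) :
    ‖∑ b ∈ Finset.range (p ^ (M - N)), (g ^ b) y‖ ≤ p * ((p : ℝ)⁻¹) ^ (M - N) * ‖y‖ := by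
  have hpos : 0 < p ^ M := pow_pos (Fact.out : p.Prime).pos M
  have : NeZero (p ^ M) := ⟨hpos.ne'⟩
  obtain ⟨ζ, hζ⟩ := HasEnoughRootsOfUnity.exists_primitiveRoot (PadicAlgCl p) (p ^ M)
  exact tate_bound_of2 hN hNM hζ.pow_eq_one
    (fun y hy hy1 => exists_coeffs (by omega) hζ y hy hy1) g h1 h2 y hy

end Helper75K9.FM
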