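import Mathlib

/-!
# Torsion of the one-units of `ℤ_p`, `p` odd
-/

namespace Helper75K9.FM

open Finset

variable {p : ℕ} [Fact p.Prime]

private lemma isUnit_one_add (c : ℤ_[p]) : IsUnit (1 + (p : ℤ_[p]) * c) := by
  by_contra h
  have h1 : 1 + (p : ℤ_[p]) * c ∈ IsLocalRing.maximalIdeal ℤ_[p] :=
    (IsLocalRing.mem_maximalIdeal _).2 h
  have h2 : (p : ℤ_[p]) * c ∈ IsLocalRing.maximalIdeal ℤ_[p] := by
    refine Ideal.mul_mem_right _ _ ?_
    rw [PadicInt.maximalIdeal_eq_span_p]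
    exact Ideal.mem_span_singleton_self _
  have h3 : (1 : ℤ_[p]) ∈ IsLocalRing.maximalIdeal ℤ_[p] := by
    have := Ideal.sub_mem _ h1 h2
    simpa using this
  exact (Ideal.ne_top_iff_one _).1 (IsLocalRing.maximalIdeal.isMaximal _).ne_top h3

private lemma pow_p_step (hp : p ≠ 2) {x : ℤ_[p]} (hx : (p : ℤ_[p]) ∣ x - 1) (h : x ^ p = 1) : x = 1 := by
  obtain ⟨b, hb⟩ := hx
  have hx' : x = 1 + p * b := by rw [← hb]; ring
  have hodd : Odd p := (Fact.out : p.Prime).odd_of_ne_two hp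
  have h1 := odd_sq_dvd_geom_sum₂_sub (R := ℤ_[p]) (a := 1) (b := b) hodd
  obtain ⟨c, hc⟩ := h1
  simp only [one_pow, mul_one, ← hx'] at hc
  have h2 : (∑ i ∈ range p, x ^ i) * (x - 1) = x ^ p - 1 := geom_sum_mul x p
  rw [h, sub_self] at h2
  rcases mul_eq_zero.1 h2 with h3 | h3
  · exfalso
    rw [h3] at hc
    have h4 : (p : ℤ_[p]) * (1 + (p : ℤ_[p]) * c) = 0 := by linear_combination -hc
    rcases mul_eq_zero.1 h4 with h5 | h5
    · exact (Nat.cast_ne_zero.2 (Fact.out : p.Prime).ne_zero) h5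
    · exact (isUnit_one_add c).ne_zero h5
  · exact sub_eq_zero.1 h3

private lemma pow_coprime_step {x : ℤ_[p]} (hx : (p : ℤ_[p]) ∣ x - 1) {m : ℕ} (hm : ¬ p ∣ m)
    (h : x ^ m = 1) : x = 1 := by
  have h2 : (∑ i ∈ range m, x ^ i) * (x - 1) = x ^ m - 1 := geom_sum_mul x m
  rw [h, sub_self] at h2
  rcases mul_eq_zero.1 h2 with h3 | h3
  · exfalso
    have h4 : (p : ℤ_[p]) ∣ (∑ i ∈ range m, x ^ i) - m := by
      have h5 : (∑ i ∈ range m, x ^ i) - (m : ℤ_[p]) = ∑ i ∈ range m, (x ^ i - 1) := by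
        simp [sum_sub_distrib]
      rw [h5]
      refine dvd_sum fun i _ => hx.trans ?_
      simpa using sub_dvd_pow_sub_pow x 1 i
    rw [h3, zero_sub, dvd_neg] at h4
    have h6 : ((p : ℤ) : ℤ_[p]) ∣ ((m : ℤ) : ℤ_[p]) := by exact_mod_cast h4
    have h7 : ‖((m : ℤ) : ℤ_[p])‖ < 1 := by
      rw [PadicInt.norm_lt_one_iff_dvd]
      exact_mod_cast h4
    have h8 := (PadicInt.norm_int_lt_one_iff_dvd (p := p) (m : ℤ)).1 h7
    exact hm (by exact_mod_cast h8)
  · exact sub_eq_zero.1 h3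

private lemma eq_one_of_pow (hp : p ≠ 2) {x : ℤ_[p]} (hx : (p : ℤ_[p]) ∣ x - 1) {m : ℕ} (hm : m ≠ 0)
    (h : x ^ m = 1) : x = 1 := by
  induction m using Nat.strong_induction_on generalizing x with
  | _ m ih =>
    by_cases hpm : p ∣ m
    · obtain ⟨k, rfl⟩ := hpm
      have hk : k ≠ 0 := by rintro rfl; simp at hm
      have hp1 : 1 < p := (Fact.out : p.Prime).one_lt
      have h1 : x ^ p = 1 := by
        refine ih k ?_ ?_ hk (by rw [← pow_mul]; exact h)
        · exact lt_mul_of_one_lt_left (Nat.pos_of_ne_zero hk) hp1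
        · exact hx.trans (by simpa using sub_dvd_pow_sub_pow x 1 p)
      exact pow_p_step hp hx h1
    · exact pow_coprime_step hx hpm h

private lemma pow_p_step2 {x : ℤ_[p]} (hx : (p : ℤ_[p]) ^ 2 ∣ x - 1) (h : x ^ p = 1) : x = 1 := by
  by_cases hp : p = 2
  · subst hp
    have h1 : (x - 1) * (x + 1) = 0 := by linear_combination h
    rcases mul_eq_zero.1 h1 with h2 | h2
    · exact sub_eq_zero.1 h2
    · exfalso
      obtain ⟨b, hb⟩ := hx
      have h3 : (2 : ℤ_[2]) * (1 + ((2 : ℕ) : ℤ_[2]) * b) = 0 := by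
        push_cast at hb ⊢
        linear_combination h2 - hb
      rcases mul_eq_zero.1 h3 with h5 | h5
      · exact two_ne_zero h5
      · exact (isUnit_one_add b).ne_zero h5
  · exact pow_p_step hp ((dvd_pow_self _ two_ne_zero).trans hx) h

private lemma eq_one_of_pow2 {x : ℤ_[p]} (hx : (p : ℤ_[p]) ^ 2 ∣ x - 1) {m : ℕ} (hm : m ≠ 0)
    (h : x ^ m = 1) : x = 1 := by
  induction m using Nat.strong_induction_on generalizing x with
  | _ m ih =>
    by_cases hpm : p ∣ m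
    · obtain ⟨k, rfl⟩ := hpm
      have hk : k ≠ 0 := by rintro rfl; simp at hm
      have hp1 : 1 < p := (Fact.out : p.Prime).one_lt
      have h1 : x ^ p = 1 := by
        refine ih k ?_ ?_ hk (by rw [← pow_mul]; exact h)
        · exact lt_mul_of_one_lt_left (Nat.pos_of_ne_zero hk) hp1
        · exact hx.trans (by simpa using sub_dvd_pow_sub_pow x 1 p)
      exact pow_p_step2 hx h1
    · exact pow_coprime_step ((dvd_pow_self _ two_ne_zero).trans hx) hpm h

/-- The units of `ℤ_p` congruent to `1` modulo `p ^ 2` have no torsion. -/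
theorem eq_one_of_zpow2 (u : ℤ_[p]ˣ) (hu : (p : ℤ_[p]) ^ 2 ∣ (u : ℤ_[p]) - 1) (m : ℤ)
    (hm : m ≠ 0) (h : u ^ m = 1) : u = 1 := by
  have h1 : u ^ m.natAbs = 1 := by
    rcases Int.natAbs_eq m with h2 | h2
    · rw [h2, zpow_natCast] at h
      exact h
    · rw [h2, zpow_neg, zpow_natCast, inv_eq_one] at h
      exact h
  have h2 : (u : ℤ_[p]) ^ m.natAbs = 1 := by
    have := congrArg Units.val h1
    simpa using this
  exact Units.ext (eq_one_of_pow2 hu (Int.natAbs_ne_zero.2 hm) h2)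

/-- The one-units of `ℤ_p` (`p` odd) have no torsion. -/
theorem eq_one_of_zpow (hp : p ≠ 2) (u : ℤ_[p]ˣ) (hu : (p : ℤ_[p]) ∣ (u : ℤ_[p]) - 1) (m : ℤ)
    (hm : m ≠ 0) (h : u ^ m = 1) : u = 1 := by
  have h1 : u ^ m.natAbs = 1 := by
    rcases Int.natAbs_eq m with h2 | h2
    · rw [h2, zpow_natCast] at h
      exact h
    · rw [h2, zpow_neg, zpow_natCast, inv_eq_one] at h
      exact h
  have h2 : (u : ℤ_[p]) ^ m.natAbs = 1 := by
    have := congrArg Units.val h1
    simpa using this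
  exact Units.ext (eq_one_of_pow hp hu (Int.natAbs_ne_zero.2 hm) h2)

end Helper75K9.FM
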