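import Mathlib
import Pool.Agent.Helper75K9.FM.Local2
import Pool.Agent.Helper75K9.FM.Sen2
import Pool.Agent.Helper75K9.FM.Tors
import Pool.Agent.Helper75K9.FM.TateLevel
import Pool.Agent.Helper75K9.FM.TateB2

/-!
# Tate's theorem `H^0(Gal(ℚ̄_p/ℚ_p), ℂ_p(j)) = 0` for `j ≠ 0`
-/

noncomputable section

namespace Helper75K9.FM

theorem tateStmt {p : ℕ} [Fact p.Prime] : TateStmt p := by
  intro x hx j hj h
  refine tate_sen2 ax_closure (fun N hN => exists_gal_level2 N (by omega))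
    (fun {_ _} hN hNM g h1 h2 y hy => tate_bound2 hN hNM g h1 h2 y hy) 2 x hx
    (fun g => ((cyc g ^ j : ℤ_[p]ˣ) : ℤ_[p])) ?_ ?_ (fun g _ => h g)
  · intro g hg
    simp [hg]
  · intro g hg hpg h3
    exact hg (eq_one_of_zpow2 (cyc g) hpg j hj (Units.ext h3))

end Helper75K9.FM
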