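import Mathlib
import Pool.Agent.Helper75K9.FM.Clean
import Pool.Agent.Helper75K9.FM.Local2
import Pool.Agent.Helper75K9.FM.TateThm

/-!
# `D_dR = 0` for the definitions of `Clean.lean`
-/

noncomputable section

open TensorProduct Helper75K9.BdR

namespace Helper75K9.FM

variable {p : ℕ} [Fact p.Prime]

theorem galOc_eq (g : Gp p) : galOc g = galO g := rfl

theorem galB_eq (g : Gp p) (b : BdR p) : galB g b = (galBdR g (b : BdRField p) : BdRField p) := rfl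

theorem no_period_clean
    (K : IntermediateField ℚ_[p] (PadicAlgCl p)) [FiniteDimensional ℚ_[p] K]
    (m : ℕ) (hm : 0 < m) (c : Gp p → ℤ_[p]ˣ)
    (hc : ∀ g : Gp p, (∀ y ∈ K, g y = y) → c g ^ (2 * m) = (cyc g)⁻¹ ^ m)
    (b : BdR p)
    (hb : ∀ g : Gp p, (∀ y ∈ K, g y = y) →
      algebraMap ℚ_[p] (BdR p) ((c g : ℤ_[p]) : ℚ_[p]) * galB g b = b) : b = 0 :=
  no_bdr_period2 tateStmt kerData K m hm c hc b hb

/-- coordinates of an element of `ℚ̄_p ⊗ B_dR` in a basis of `ℚ̄_p` -/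
def coordTB {ι : Type*} [DecidableEq ι] (B : Module.Basis ι ℚ_[p] (PadicAlgCl p)) :
    PadicAlgCl p ⊗[ℚ_[p]] BdR p ≃ₗ[ℚ_[p]] ι →₀ BdR p :=
  TensorProduct.equivFinsuppOfBasisLeft B

theorem equiv_twisted {ι : Type*} [DecidableEq ι] (B : Module.Basis ι ℚ_[p] (PadicAlgCl p))
    (K : IntermediateField ℚ_[p] (PadicAlgCl p)) (χ : K.fixingSubgroup →* (PadicAlgCl p)ˣ)
    (g : K.fixingSubgroup) (c : ℚ_[p])
    (hc : ((χ g : (PadicAlgCl p)ˣ) : PadicAlgCl p) = algebraMap ℚ_[p] (PadicAlgCl p) c)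
    (x : PadicAlgCl p ⊗[ℚ_[p]] BdR p) (i : ι) :
    coordTB B (twistedAction K χ g x) i =
      algebraMap ℚ_[p] (BdR p) c * galB (g : Gp p) (coordTB B x i) := by
  induction x using TensorProduct.induction_on with
  | zero =>
    rw [show twistedAction K χ g (0 : PadicAlgCl p ⊗[ℚ_[p]] BdR p) =
      (0 : PadicAlgCl p ⊗[ℚ_[p]] BdR p) from map_zero (twistedAction K χ g)]
    simp
  | tmul v b =>
    have h1 : (twistedAction K χ g (v ⊗ₜ[ℚ_[p]] b) : PadicAlgCl p ⊗[ℚ_[p]] BdR p) =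
        (c • v) ⊗ₜ[ℚ_[p]] (galB (g : Gp p) b) := by
      have h0 : (twistedAction K χ g (v ⊗ₜ[ℚ_[p]] b) : PadicAlgCl p ⊗[ℚ_[p]] BdR p) =
        ((LinearMap.lsmul (PadicAlgCl p) (PadicAlgCl p) ((χ g : (PadicAlgCl p)ˣ) : PadicAlgCl p)) v)
          ⊗ₜ[ℚ_[p]] (galB (g : Gp p) b) := rfl
      rw [h0, LinearMap.lsmul_apply, hc, smul_eq_mul, Algebra.smul_def]
    rw [h1, coordTB, TensorProduct.equivFinsuppOfBasisLeft_apply_tmul_apply,
      TensorProduct.equivFinsuppOfBasisLeft_apply_tmul_apply, map_smul, Finsupp.smul_apply,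
      map_smul, smul_assoc, Algebra.smul_def]
  | add x y hx hy =>
    have e : coordTB B (twistedAction K χ g (x + y)) =
        coordTB B (twistedAction K χ g x) + coordTB B (twistedAction K χ g y) :=
      (congrArg (coordTB B) (map_add (twistedAction K χ g) x y)).trans (map_add (coordTB B) _ _)
    rw [e, Finsupp.add_apply, hx, hy, map_add, Finsupp.add_apply, map_add, mul_add]

theorem ddr_eq_bot (K : IntermediateField ℚ_[p] (PadicAlgCl p))
    [FiniteDimensional ℚ_[p] K] (m : ℕ) (hm : 0 < m) (φ : ℤ_[p]ˣ →* (PadicAlgCl p)ˣ)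
    (h1 : ∀ u, φ u ^ (2 * m) = (toUnits p u)⁻¹ ^ m)
    (h2 : ∀ u : ℤ_[p]ˣ, (p : ℤ_[p]) ^ 3 ∣ (u : ℤ_[p]) - 1 → ∃ c : ℤ_[p]ˣ, φ u = toUnits p c)
    (χ : K.fixingSubgroup →* (PadicAlgCl p)ˣ)
    (hχ : ∀ g : K.fixingSubgroup, χ g = φ (cyc (g : Gp p))) :
    Ddr K χ = ⊥ := by
  have hKc := finiteDimensional_Kcyc (p := p) 3
  have hfd : FiniteDimensional ℚ_[p] (K ⊔ Kcyc p 3 : IntermediateField ℚ_[p] (PadicAlgCl p)) :=
    IntermediateField.finiteDimensional_sup K (Kcyc p 3)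
  have hg3 : ∀ g : Gp p, (∀ y ∈ K ⊔ Kcyc p 3, g y = y) →
      (p : ℤ_[p]) ^ 3 ∣ (cyc g : ℤ_[p]) - 1 := by
    intro g hg
    obtain ⟨ζ, hζ⟩ := HasEnoughRootsOfUnity.exists_primitiveRoot (PadicAlgCl p) (p ^ 3)
    have h3 : g ζ = ζ ^ 1 := by
      rw [pow_one]
      refine hg ζ ((le_sup_right : Kcyc p 3 ≤ K ⊔ Kcyc p 3) ?_)
      exact IntermediateField.subset_adjoin _ _ hζ.pow_eq_one
    simpa using cyc_of_primitive g hζ 1 h3
  have hex : ∀ g : Gp p, ∃ c : ℤ_[p]ˣ, (∀ y ∈ K ⊔ Kcyc p 3, g y = y) →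
      φ (cyc g) = toUnits p c := by
    intro g
    by_cases hg : ∀ y ∈ K ⊔ Kcyc p 3, g y = y
    · obtain ⟨c, hc⟩ := h2 (cyc g) (hg3 g hg)
      exact ⟨c, fun _ => hc⟩
    · exact ⟨1, fun h => absurd h hg⟩
  choose c hc using hex
  rw [eq_bot_iff]
  intro x hx
  rw [Submodule.mem_bot]
  rw [mem_Ddr] at hx
  classical
  let B := Module.Basis.ofVectorSpace ℚ_[p] (PadicAlgCl p)
  refine (coordTB B).map_eq_zero_iff.1 (Finsupp.ext fun i => ?_)
  rw [Finsupp.zero_apply]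
  refine no_period_clean (K ⊔ Kcyc p 3) m hm c ?_ _ ?_
  · intro g hg
    apply toUnits_injective
    rw [map_pow, ← hc g hg, h1, map_pow, map_inv]
  · intro g hg
    have hgK : ∀ y ∈ K, g y = y := fun y hy => hg y ((le_sup_left : K ≤ K ⊔ Kcyc p 3) hy)
    have h3 := hx ⟨g, (IntermediateField.mem_fixingSubgroup_iff _ _).2 hgK⟩
    have h5 := equiv_twisted B K χ ⟨g, (IntermediateField.mem_fixingSubgroup_iff _ _).2 hgK⟩
      ((c g : ℤ_[p]) : ℚ_[p]) (by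
        rw [hχ]
        show ((φ (cyc g) : (PadicAlgCl p)ˣ) : PadicAlgCl p) = _
        rw [hc g hg]
        rfl) x i
    rw [h3] at h5
    exact h5.symm

end Helper75K9.FM
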