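import Mathlib
import Pool.Agent.Helper75K9.FM.Base
import Pool.Agent.Helper75K9.FM.DdR

/-!
# Characters of `G_F` : conditions (1) and (2)

`F` is a number field, `G_F = Gal(F̄/F)`, `ρ : G_F → GL_1(ℚ̄_l) = ℚ̄_lˣ` a character.
-/

noncomputable section

open NumberField

namespace Helper75K9.FM

section global

variable (F : Type) [Field F] [NumberField F]

/-- The absolute Galois group `G_F`. -/
abbrev GF : Type := AlgebraicClosure F ≃ₐ[F] AlgebraicClosure F

/-- The ring `Z̄` of all algebraic integers in `F̄`, as the integral closure of `𝓞 F`. -/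
abbrev Zb : Type := integralClosure (𝓞 F) (AlgebraicClosure F)

variable {F}

/-- `σ` acts on `Z̄/P` as `x ↦ x ^ n`. -/
def ActsAs (σ : GF F) (P : Ideal (Zb F)) (n : ℕ) : Prop :=
  ∀ x : Zb F, ∃ y ∈ P, (y : AlgebraicClosure F) = σ (x : AlgebraicClosure F) -
    (x : AlgebraicClosure F) ^ n

/-- The cardinality `q_v` of the residue field of the place `v = P ∩ 𝓞_F` of `F`. -/
def resCard (P : Ideal (Zb F)) : ℕ := Nat.card (𝓞 F ⧸ P.comap (algebraMap (𝓞 F) (Zb F)))

/-- `σ` is in the inertia group of `P`. -/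
def IsInertia (P : Ideal (Zb F)) (σ : GF F) : Prop := ActsAs σ P 1

/-- `σ` is a geometric Frobenius at `P`: its inverse acts on `Z̄/P` as `x ↦ x ^ q_v`. -/
def IsGeomFrob (P : Ideal (Zb F)) (σ : GF F) : Prop := ActsAs σ⁻¹ P (resCard P)

variable {l : ℕ} [Fact l.Prime]

/-- `α ∈ ℚ̄_l` is an algebraic number all of whose complex conjugates have absolute value
`q^{w/2}`. -/
def IsWeil (q : ℕ) (w : ℤ) (α : PadicAlgCl l) : Prop :=
  IsAlgebraic ℚ α ∧ ∀ z : ℂ, Polynomial.aeval z (minpoly ℚ α) = 0 →
    ‖z‖ = (q : ℝ) ^ ((w : ℝ) / 2)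

/-- For a character `ρ` which is unramified at (the place of `F` below) `P`, the Weil-Deligne
representation is `(ρ|_{W_v}, N_v = 0)`; it is integral and pure of weight `w`. -/
structure UnramifiedIntegralPure (ρ : GF F →* (PadicAlgCl l)ˣ) (w : ℤ) (P : Ideal (Zb F)) :
    Prop where
  unramified : ∀ σ : GF F, IsInertia P σ → ρ σ = 1
  integral : ∀ σ : GF F, IsGeomFrob P σ → IsIntegral ℤ ((ρ σ : (PadicAlgCl l)ˣ) : PadicAlgCl l)
  pure : ∀ σ : GF F, IsGeomFrob P σ → IsWeil (resCard P) w ((ρ σ : (PadicAlgCl l)ˣ) : PadicAlgCl l)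

end global

section local'

variable {F : Type} [Field F] [NumberField F] {l : ℕ} [Fact l.Prime]

/-- For an embedding `ι : F̄ → ℚ̄_l`, the completion `F_v = ℚ_l · ι(F)` of `F` at the place `v ∣ l`
defined by `ι`. -/
def Fv (ι : AlgebraicClosure F →+* PadicAlgCl l) : IntermediateField ℚ_[l] (PadicAlgCl l) :=
  IntermediateField.adjoin ℚ_[l] (Set.range fun x : F => ι (algebraMap F (AlgebraicClosure F) x))

theorem exists_localRestrict (ι : AlgebraicClosure F →+* PadicAlgCl l) :
    ∃ f : (Fv ι).fixingSubgroup →* GF F, ∀ g x, ι (f g x) = (g : Gp l) (ι x) := by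
  let _ : Algebra (AlgebraicClosure F) (PadicAlgCl l) := ι.toAlgebra
  let _ : Algebra F (PadicAlgCl l) := (ι.comp (algebraMap F (AlgebraicClosure F))).toAlgebra
  have _ : IsScalarTower F (AlgebraicClosure F) (PadicAlgCl l) :=
    IsScalarTower.of_algebraMap_eq fun x => rfl
  have _ : Normal F (AlgebraicClosure F) := IsAlgClosure.normal F (AlgebraicClosure F)
  let r : (Fv ι).fixingSubgroup →* (PadicAlgCl l ≃ₐ[F] PadicAlgCl l) :=
    { toFun := fun g =>
        { (g : Gp l) with
          commutes' := fun x => by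
            have hx : ι (algebraMap F (AlgebraicClosure F) x) ∈ Fv ι :=
              IntermediateField.subset_adjoin _ _ ⟨x, rfl⟩
            exact (IntermediateField.mem_fixingSubgroup_iff _ _).1 g.2 _ hx }
      map_one' := rfl
      map_mul' := fun _ _ => rfl }
  refine ⟨(AlgEquiv.restrictNormalHom (AlgebraicClosure F)).comp r, fun g x => ?_⟩
  exact AlgEquiv.restrictNormal_commutes (r g) (AlgebraicClosure F) x

/-- The restriction homomorphism `G_{F_v} → G_F` attached to `ι`; it is characterised by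
`ι (localRestrict ι g x) = g (ι x)`. -/
def localRestrict (ι : AlgebraicClosure F →+* PadicAlgCl l) : (Fv ι).fixingSubgroup →* GF F :=
  (exists_localRestrict ι).choose

theorem localRestrict_spec (ι : AlgebraicClosure F →+* PadicAlgCl l) (g : (Fv ι).fixingSubgroup)
    (x : AlgebraicClosure F) : ι (localRestrict ι g x) = (g : Gp l) (ι x) :=
  (exists_localRestrict ι).choose_spec g x

end local'

end Helper75K9.FM
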