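import Mathlib
import Pool.Agent.Helper75K9.FM.Base

/-!
# Global side: the cyclotomic character of `Gal(ℚ̄/ℚ)`, Frobenius elements and the
`2(l-1)`-th root character on `ℤ_lˣ`.
-/

noncomputable section

namespace Helper75K9.FM

/-! ### Units of `ℤ_l` congruent to one -/

theorem norm_mul_sub_one_lt {l : ℕ} [Fact l.Prime] {a b : ℤ_[l]} (ha : ‖a - 1‖ < 1)
    (hb : ‖b - 1‖ < 1) : ‖a * b - 1‖ < 1 := by
  have h : a * b - 1 = a * (b - 1) + (a - 1) := by ring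
  rw [h]
  refine lt_of_le_of_lt (IsUltrametricDist.norm_add_le_max _ _) (max_lt ?_ ha)
  rw [norm_mul]
  exact lt_of_le_of_lt (mul_le_of_le_one_left (norm_nonneg _) (PadicInt.norm_le_one _)) hb

theorem norm_pow_sub_one_lt {l : ℕ} [Fact l.Prime] {a : ℤ_[l]} (ha : ‖a - 1‖ < 1) (k : ℕ) :
    ‖a ^ k - 1‖ < 1 := by
  induction k with
  | zero => simp
  | succ k ih =>
    rw [pow_succ]
    exact norm_mul_sub_one_lt ih ha

/-- `m`-th power map is isometric on `1 + l ℤ_l` for `m` prime to `l`. -/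
theorem norm_pow_sub_pow {l : ℕ} [Fact l.Prime] {a b : ℤ_[l]} (ha : ‖a - 1‖ < 1)
    (hb : ‖b - 1‖ < 1) {m : ℕ} (hm : ¬ l ∣ m) : ‖a ^ m - b ^ m‖ = ‖a - b‖ := by
  have h1 : (∑ i ∈ Finset.range m, a ^ i * b ^ (m - 1 - i)) * (a - b) = a ^ m - b ^ m :=
    (Commute.all a b).geom_sum₂_mul m
  have h2 : ‖(∑ i ∈ Finset.range m, a ^ i * b ^ (m - 1 - i)) - m‖ < 1 := by
    have h3 : (∑ i ∈ Finset.range m, a ^ i * b ^ (m - 1 - i)) - m
        = ∑ i ∈ Finset.range m, (a ^ i * b ^ (m - 1 - i) - 1) := by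
      rw [Finset.sum_sub_distrib]; simp
    rw [h3]
    rcases Nat.eq_zero_or_pos m with rfl | hm0
    · simp
    · obtain ⟨i, -, hi⟩ := IsUltrametricDist.exists_norm_finsetSum_le_of_nonempty
        (Finset.nonempty_range_iff.2 hm0.ne') (fun i => a ^ i * b ^ (m - 1 - i) - 1)
      exact lt_of_le_of_lt hi (norm_mul_sub_one_lt (norm_pow_sub_one_lt ha _)
        (norm_pow_sub_one_lt hb _))
  have h4 : ‖((m : ℕ) : ℤ_[l])‖ = 1 := by
    rw [PadicInt.norm_natCast_eq_one_iff]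
    exact (Nat.Prime.coprime_iff_not_dvd (Fact.out : l.Prime)).2 hm
  have h5 : ‖∑ i ∈ Finset.range m, a ^ i * b ^ (m - 1 - i)‖ = 1 := by
    have h6 := PadicInt.norm_eq_of_norm_add_lt_right
      (z1 := ∑ i ∈ Finset.range m, a ^ i * b ^ (m - 1 - i)) (z2 := -(m : ℤ_[l]))
      (by rw [← sub_eq_add_neg, norm_neg, h4]; exact h2)
    rw [h6, norm_neg, h4]
  rw [← h1, norm_mul, h5, one_mul]

theorem not_dvd_two_mul_sub_one {l : ℕ} [Fact l.Prime] (hl : l ≠ 2) : ¬ l ∣ 2 * (l - 1) := by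
  have hp : l.Prime := Fact.out
  intro h
  rcases (Nat.Prime.dvd_mul hp).1 h with h | h
  · exact hl ((Nat.prime_dvd_prime_iff_eq hp Nat.prime_two).1 h)
  · have h1 := Nat.le_of_dvd (by have := hp.two_le; omega) h
    have := hp.two_le
    omega

/-- For `x ≡ 1 mod l` and `m` prime to `l` there is a unique `z ≡ 1` with `z^m = x`. -/
theorem exists_root {l : ℕ} [Fact l.Prime] {m : ℕ} (hm : ¬ l ∣ m) {x : ℤ_[l]}
    (hx : ‖x - 1‖ < 1) : ∃ z : ℤ_[l], ‖z - 1‖ < 1 ∧ z ^ m = x := by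
  have h4 : ‖((m : ℕ) : ℤ_[l])‖ = 1 := by
    rw [PadicInt.norm_natCast_eq_one_iff]
    exact (Nat.Prime.coprime_iff_not_dvd (Fact.out : l.Prime)).2 hm
  have hd : Polynomial.aeval (1 : ℤ_[l])
      (Polynomial.derivative (Polynomial.X ^ m - Polynomial.C x)) = (m : ℤ_[l]) := by
    simp [Polynomial.derivative_X_pow]
  have he : Polynomial.aeval (1 : ℤ_[l]) (Polynomial.X ^ m - Polynomial.C x : Polynomial ℤ_[l])
      = 1 - x := by
    simp
  obtain ⟨z, hz, hz1, -, -⟩ := hensels_lemma (p := l)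
    (F := (Polynomial.X ^ m - Polynomial.C x : Polynomial ℤ_[l])) (a := (1 : ℤ_[l])) (by
      rw [hd, he, h4, one_pow, norm_sub_rev]
      exact hx)
  refine ⟨z, ?_, ?_⟩
  · rw [hd, h4] at hz1
    exact hz1
  · have : z ^ m - x = 0 := by simpa using hz
    exact sub_eq_zero.1 this

theorem root_unique {l : ℕ} [Fact l.Prime] {m : ℕ} (hm : ¬ l ∣ m) {a b : ℤ_[l]}
    (ha : ‖a - 1‖ < 1) (hb : ‖b - 1‖ < 1) (h : a ^ m = b ^ m) : a = b := by
  have h1 := norm_pow_sub_pow ha hb hm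
  rw [h, sub_self, norm_zero] at h1
  exact sub_eq_zero.1 (norm_eq_zero.1 h1.symm)

theorem unit_pow_sub_one (l : ℕ) [Fact l.Prime] (u : ℤ_[l]ˣ) :
    ‖((u ^ (l - 1) : ℤ_[l]ˣ) : ℤ_[l]) - 1‖ < 1 := by
  have h1 : ((u ^ (l - 1) : ℤ_[l]ˣ) : ℤ_[l]) - 1 ∈ RingHom.ker (PadicInt.toZMod (p := l)) := by
    have h0 : PadicInt.toZMod (u : ℤ_[l]) ≠ 0 := (u.isUnit.map PadicInt.toZMod).ne_zero
    rw [RingHom.mem_ker, map_sub, map_one, Units.val_pow_eq_pow_val, map_pow,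
      ZMod.pow_card_sub_one_eq_one h0, sub_self]
  rw [PadicInt.ker_toZMod] at h1
  exact PadicInt.not_isUnit_iff.1 h1

theorem exists_rootChar (l : ℕ) [Fact l.Prime] (hl : l ≠ 2) : ∃ r : ℤ_[l]ˣ →* ℤ_[l]ˣ,
    Continuous r ∧ (∀ u, ‖((r u : ℤ_[l]ˣ) : ℤ_[l]) - 1‖ < 1) ∧
      ∀ u, r u ^ (2 * (l - 1)) = u⁻¹ ^ (l - 1) := by
  have hm := not_dvd_two_mul_sub_one (l := l) hl
  have hex : ∀ u : ℤ_[l]ˣ, ∃ z : ℤ_[l], ‖z - 1‖ < 1 ∧
      z ^ (2 * (l - 1)) = ((u⁻¹ ^ (l - 1) : ℤ_[l]ˣ) : ℤ_[l]) := fun u =>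
    exists_root hm (unit_pow_sub_one l u⁻¹)
  choose z hz1 hz2 using hex
  have hm0 : 2 * (l - 1) ≠ 0 := fun h => hm (h ▸ dvd_zero _)
  have hunit : ∀ u, IsUnit (z u) := fun u => by
    have h : IsUnit (z u ^ (2 * (l - 1))) := by
      rw [hz2]; exact Units.isUnit _
    exact (isUnit_pow_iff hm0).1 h
  have hmul : ∀ u v, z (u * v) = z u * z v := fun u v => by
    refine root_unique hm (hz1 _) (norm_mul_sub_one_lt (hz1 u) (hz1 v)) ?_
    rw [mul_pow, hz2, hz2, hz2, ← Units.val_mul, ← mul_pow, mul_inv]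
  have hcont : Continuous z := by
    rw [continuous_iff_continuousAt]
    intro v
    rw [ContinuousAt, tendsto_iff_dist_tendsto_zero]
    have h2 : ∀ u, dist (z u) (z v) = dist ((u⁻¹ ^ (l - 1) : ℤ_[l]ˣ) : ℤ_[l])
        ((v⁻¹ ^ (l - 1) : ℤ_[l]ˣ) : ℤ_[l]) := fun u => by
      rw [dist_eq_norm, dist_eq_norm, ← hz2, ← hz2, norm_pow_sub_pow (hz1 _) (hz1 _) hm]
    simp only [h2]
    rw [← tendsto_iff_dist_tendsto_zero]
    exact (Units.continuous_val.comp (continuous_inv.pow _)).tendsto v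
  have hone : z 1 = 1 := by
    have h1 := hmul 1 1
    rw [mul_one] at h1
    exact (hunit 1).mul_left_cancel (by rw [mul_one]; exact h1.symm)
  refine ⟨⟨⟨fun u => (hunit u).unit, ?_⟩, ?_⟩, ?_, ?_, ?_⟩
  · ext; simpa using hone
  · intro u v; ext; simpa using hmul u v
  · rw [Units.continuous_iff]
    refine ⟨hcont, ?_⟩
    have h3 : ∀ u : ℤ_[l]ˣ, (((hunit u).unit⁻¹ : ℤ_[l]ˣ) : ℤ_[l]) = z u⁻¹ := fun u => by
      have h4 : (hunit u).unit * (hunit u⁻¹).unit = 1 := by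
        ext
        simp only [Units.val_mul, IsUnit.unit_spec, Units.val_one, ← hmul, mul_inv_cancel, hone]
      rw [inv_eq_of_mul_eq_one_right h4, IsUnit.unit_spec]
    exact (hcont.comp continuous_inv).congr fun u => (h3 u).symm
  · intro u; exact hz1 u
  · intro u; ext; simpa using hz2 u

/-! ### The cyclotomic character of `Gal(ℚ̄/ℚ)` -/

abbrev GQ : Type := AlgebraicClosure ℚ ≃ₐ[ℚ] AlgebraicClosure ℚ

abbrev Zbar : Type := integralClosure ℤ (AlgebraicClosure ℚ)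

/-- The `l`-adic cyclotomic character of `Gal(ℚ̄/ℚ)`. -/
def cycQ (l : ℕ) [Fact l.Prime] : GQ →* ℤ_[l]ˣ :=
  (cyclotomicCharacter (AlgebraicClosure ℚ) l).comp
    { toFun := fun g => (g : AlgebraicClosure ℚ ≃+* AlgebraicClosure ℚ)
      map_one' := rfl
      map_mul' := fun _ _ => rfl }

theorem continuous_cycQ (l : ℕ) [Fact l.Prime] : Continuous (cycQ l) :=
  cyclotomicCharacter.continuous l ℚ (AlgebraicClosure ℚ)

theorem cycQ_spec (l : ℕ) [Fact l.Prime] (g : GQ) {k : ℕ} {t : AlgebraicClosure ℚ}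
    (ht : t ^ l ^ k = 1) : g t = t ^ ((cycQ l g : ℤ_[l]).toZModPow k).val :=
  cyclotomicCharacter.spec (L := AlgebraicClosure ℚ) l
    (g : AlgebraicClosure ℚ ≃+* AlgebraicClosure ℚ) t ht

theorem pow_dvd_sub_val {l : ℕ} [Fact l.Prime] (x : ℤ_[l]) (k : ℕ) :
    (l : ℤ_[l]) ^ k ∣ x - ((x.toZModPow k).val : ℕ) := by
  rw [← Ideal.mem_span_singleton, ← PadicInt.ker_toZModPow, RingHom.mem_ker, map_sub,
    map_natCast, sub_eq_zero, ZMod.natCast_zmod_val]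

theorem eq_of_forall_pow_dvd {l : ℕ} [Fact l.Prime] {x y : ℤ_[l]}
    (h : ∀ k : ℕ, (l : ℤ_[l]) ^ k ∣ x - y) : x = y := by
  by_contra hne
  obtain ⟨n, hn⟩ := PadicInt.exists_pow_neg_lt l (norm_pos_iff.2 (sub_ne_zero.2 hne))
  have h3 := (PadicInt.norm_le_pow_iff_mem_span_pow (x - y) n).2
    (Ideal.mem_span_singleton.2 (h n))
  exact absurd h3 (not_le.2 hn)

/-- `g` acts as `x ↦ x^n` modulo `P`. -/
def ActsAsPow (g : GQ) (P : Ideal Zbar) (n : ℕ) : Prop :=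
  ∀ x : Zbar, ∃ y ∈ P, (y : AlgebraicClosure ℚ) = g (x : AlgebraicClosure ℚ) -
    (x : AlgebraicClosure ℚ) ^ n

/-- Roots of unity of order prime to the residue characteristic are distinct mod `P`. -/
theorem rootOfUnity_eq_of_sub_mem {q N : ℕ} (hqN : Nat.Coprime q N) (P : Ideal Zbar) [P.IsPrime]
    (hP : (q : Zbar) ∈ P) {z : Zbar} (hz : z ^ N = 1) {a b : ℕ} (h : z ^ a - z ^ b ∈ P) :
    z ^ a = z ^ b := by
  rcases Nat.eq_zero_or_pos N with rfl | hN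
  · have hq1 : q = 1 := by simpa using hqN
    subst hq1
    exact absurd ((Ideal.eq_top_iff_one P).2 (by simpa using hP)) (Ideal.IsPrime.ne_top ‹_›)
  have hzu : z ^ b * z ^ ((N - 1) * b) = 1 := by
    rw [← pow_add]
    have : b + (N - 1) * b = N * b := by
      obtain ⟨k, rfl⟩ := Nat.exists_eq_add_of_le' hN
      simp only [Nat.add_sub_cancel]; ring
    rw [this, pow_mul, hz, one_pow]
  set x : Zbar := z ^ a * z ^ ((N - 1) * b) with hx
  have hxN : x ^ N = 1 := by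
    rw [hx, ← pow_add, ← pow_mul, mul_comm, pow_mul, hz, one_pow]
  have hx1 : x = 1 := by
    by_contra hne
    have hs : ∑ i ∈ Finset.range N, x ^ i = 0 := by
      have h1 := geom_sum_mul x N
      rw [hxN, sub_self] at h1
      exact (mul_eq_zero.1 h1).resolve_right (sub_ne_zero.2 hne)
    have hxP : Ideal.Quotient.mk P x = 1 := by
      have h2 : x - 1 = (z ^ a - z ^ b) * z ^ ((N - 1) * b) := by
        rw [hx, sub_mul, hzu]
      rw [← map_one (Ideal.Quotient.mk P), Ideal.Quotient.eq, h2]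
      exact P.mul_mem_right _ h
    have hNP : (N : Zbar) ∈ P := by
      rw [← Ideal.Quotient.eq_zero_iff_mem, map_natCast]
      have h3 := congrArg (Ideal.Quotient.mk P) hs
      simpa [map_sum, hxP] using h3
    have h1P : (1 : Zbar) ∈ P := by
      obtain ⟨u, v, huv⟩ := (Nat.isCoprime_iff_coprime.2 hqN)
      have h4 : (1 : Zbar) = (u : Zbar) * (q : Zbar) + (v : Zbar) * (N : Zbar) := by
        exact_mod_cast huv.symm
      rw [h4]
      exact P.add_mem (P.mul_mem_left _ hP) (P.mul_mem_left _ hNP)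
    exact Ideal.IsPrime.ne_top ‹_› ((Ideal.eq_top_iff_one P).2 h1P)
  calc z ^ a = z ^ a * (z ^ b * z ^ ((N - 1) * b)) := by rw [hzu, mul_one]
    _ = x * z ^ b := by rw [hx]; ring
    _ = z ^ b := by rw [hx1, one_mul]

theorem cycQ_of_actsAsPow (l : ℕ) [Fact l.Prime] (q : ℕ) (hq : q.Prime) (hql : q ≠ l)
    (P : Ideal Zbar) [P.IsPrime] (hP : (q : Zbar) ∈ P) (g : GQ) (n : ℕ) (_hn : ¬ l ∣ n)
    (hg : ActsAsPow g P n) : ((cycQ l g : ℤ_[l]ˣ) : ℤ_[l]) = n := by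
  refine eq_of_forall_pow_dvd fun k => ?_
  obtain ⟨ζ, hζ⟩ := HasEnoughRootsOfUnity.exists_primitiveRoot (AlgebraicClosure ℚ) (l ^ k)
  have hl : l.Prime := Fact.out
  have hpos : 0 < l ^ k := pow_pos hl.pos k
  have hint : IsIntegral ℤ ζ := hζ.isIntegral hpos
  let z : Zbar := ⟨ζ, hint⟩
  have hz : z ^ (l ^ k) = 1 := Subtype.ext hζ.pow_eq_one
  obtain ⟨y, hy, hyz⟩ := hg z
  have h1 : g ζ = ζ ^ ((cycQ l g : ℤ_[l]).toZModPow k).val := cycQ_spec l g hζ.pow_eq_one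
  have h2 : y = z ^ ((cycQ l g : ℤ_[l]).toZModPow k).val - z ^ n := by
    apply Subtype.ext
    rw [hyz]
    push_cast
    rw [show g (z : AlgebraicClosure ℚ) = _ from h1]
  have h3 := rootOfUnity_eq_of_sub_mem (N := l ^ k)
    (Nat.Coprime.pow_right k ((Nat.coprime_primes hq hl).2 hql)) P hP hz (h2 ▸ hy)
  have h4 : ζ ^ ((cycQ l g : ℤ_[l]).toZModPow k).val = ζ ^ n := congrArg Subtype.val h3
  have h5 : ((cycQ l g : ℤ_[l]).toZModPow k).val = n % l ^ k := by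
    refine hζ.pow_inj (ZMod.val_lt _) (Nat.mod_lt _ hpos) ?_
    rw [h4]
    conv_lhs => rw [← Nat.div_add_mod n (l ^ k), pow_add, pow_mul, hζ.pow_eq_one, one_pow,
      one_mul]
  have h6 := pow_dvd_sub_val (l := l) (cycQ l g : ℤ_[l]) k
  have h7 : (l : ℤ_[l]) ^ k ∣ (((n % l ^ k : ℕ) : ℤ_[l]) - (n : ℤ_[l])) := by
    refine ⟨-((n / l ^ k : ℕ) : ℤ_[l]), ?_⟩
    have h8 : ((n : ℕ) : ℤ_[l]) = ((l ^ k * (n / l ^ k) + n % l ^ k : ℕ) : ℤ_[l]) := by
      rw [Nat.div_add_mod]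
    rw [h8]
    push_cast
    ring
  rw [h5] at h6
  have h9 := dvd_add h6 h7
  rwa [sub_add_sub_cancel] at h9

theorem pure_of_pow (l : ℕ) [Fact l.Prime] (q : ℕ) (_hq : q.Prime) (m : ℕ) (hm : 0 < m)
    (α : PadicAlgCl l) (hα : α ^ (2 * m) = (q : PadicAlgCl l) ^ m) : IsIntegral ℤ α ∧
      ∀ z : ℂ, Polynomial.aeval z (minpoly ℚ α) = 0 → ‖z‖ = (q : ℝ) ^ ((1 : ℝ) / 2) := by
  have h2m : 0 < 2 * m := by omega
  constructor
  · refine IsIntegral.of_pow h2m ?_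
    rw [hα]
    exact (isIntegral_natCast q).pow m
  · intro z hz
    have h1 : Polynomial.aeval α (Polynomial.X ^ (2 * m) - Polynomial.C ((q : ℚ) ^ m)) = 0 := by
      simp [hα]
    obtain ⟨c, hc⟩ := minpoly.dvd ℚ α h1
    have h2 : z ^ (2 * m) = (q : ℂ) ^ m := by
      have h3 := congrArg (Polynomial.aeval z) hc
      rw [map_mul, hz, zero_mul] at h3
      simpa [sub_eq_zero] using h3
    have h4 : (‖z‖ ^ 2) ^ m = (q : ℝ) ^ m := by
      rw [← pow_mul, ← norm_pow, h2, norm_pow, Complex.norm_natCast]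
    have h5 : ‖z‖ ^ 2 = (q : ℝ) :=
      (pow_left_inj₀ (by positivity) (by positivity) hm.ne').1 h4
    rw [← Real.sqrt_eq_rpow, ← h5, Real.sqrt_sq (norm_nonneg z)]

theorem cycQ_restrict (l : ℕ) [Fact l.Prime] (ι : AlgebraicClosure ℚ →+* PadicAlgCl l)
    (g : Gp l) (σ : GQ) (h : ∀ x, ι (σ x) = g (ι x)) : cycQ l σ = cyc g := by
  ext
  refine (eq_of_forall_pow_dvd fun k => ?_).symm
  obtain ⟨ζ, hζ⟩ := HasEnoughRootsOfUnity.exists_primitiveRoot (AlgebraicClosure ℚ) (l ^ k)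
  have h1 := cycQ_spec l σ hζ.pow_eq_one
  have h2 := h ζ
  rw [h1, map_pow] at h2
  have h3 := cyc_of_primitive g (hζ.map_of_injective ι.injective) _ h2.symm
  have h4 := pow_dvd_sub_val (l := l) (cycQ l σ : ℤ_[l]) k
  have h5 := dvd_sub h3 h4
  rwa [sub_sub_sub_cancel_right] at h5

theorem normal_Qbar : Normal ℚ (AlgebraicClosure ℚ) := by
  rw [normal_iff]
  intro x
  refine ⟨?_, IsAlgClosed.splits _⟩
  refine IsAlgebraic.isIntegral ?_
  obtain ⟨f, hf, h0⟩ := (AlgebraicClosure.isAlgebraic ℚ).isAlgebraic x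
  refine ⟨f, hf, ?_⟩
  rw [Polynomial.aeval_def] at h0 ⊢
  rw [← h0]
  congr 1

theorem exists_restrict (l : ℕ) [Fact l.Prime] (ι : AlgebraicClosure ℚ →+* PadicAlgCl l) :
    ∃ f : Gp l →* GQ, ∀ g x, ι (f g x) = g (ι x) := by
  let _ : Algebra (AlgebraicClosure ℚ) (PadicAlgCl l) := ι.toAlgebra
  have _ : Normal ℚ (AlgebraicClosure ℚ) := normal_Qbar
  have _ : IsScalarTower ℚ (AlgebraicClosure ℚ) (PadicAlgCl l) :=
    IsScalarTower.of_algebraMap_eq fun x => by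
      rw [eq_ratCast, eq_ratCast, map_ratCast]
  let r : Gp l →* (PadicAlgCl l ≃ₐ[ℚ] PadicAlgCl l) :=
    { toFun := fun g => g.restrictScalars ℚ
      map_one' := rfl
      map_mul' := fun _ _ => rfl }
  refine ⟨(AlgEquiv.restrictNormalHom (AlgebraicClosure ℚ)).comp r, fun g x => ?_⟩
  exact AlgEquiv.restrictNormal_commutes (r g) (AlgebraicClosure ℚ) x

end Helper75K9.FM
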