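import Mathlib
import Pool.Agent.Helper75K9.FM.Base
import Pool.Agent.Helper75K9.FM.Defs
import Pool.Agent.Helper75K9.FM.Global
import Pool.Agent.Helper75K9.FM.DdRZero

/-!
# The character `⟨ε⟩^{-1/2}` of `G_F`: purity and integrality outside `l`
-/

noncomputable section

open NumberField

namespace Helper75K9.FM

/-- Roots of unity of order prime to the residue characteristic are distinct modulo `P`. -/
theorem pow_eq_of_sub_mem {R : Type*} [CommRing R] [IsDomain R] {q N : ℕ}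
    (hqN : Nat.Coprime q N) (P : Ideal R) [P.IsPrime] (hP : (q : R) ∈ P) {z : R} (hz : z ^ N = 1)
    {a b : ℕ} (h : z ^ a - z ^ b ∈ P) : z ^ a = z ^ b := by
  rcases Nat.eq_zero_or_pos N with rfl | hN
  · have hq1 : q = 1 := by simpa using hqN
    subst hq1
    exact absurd ((Ideal.eq_top_iff_one P).2 (by simpa using hP)) (Ideal.IsPrime.ne_top ‹_›)
  have hzu : z ^ b * z ^ ((N - 1) * b) = 1 := by
    rw [← pow_add]
    have : b + (N - 1) * b = N * b := by
      obtain ⟨k, rfl⟩ := Nat.exists_eq_add_of_le' hN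
      simp only [Nat.add_sub_cancel]; ring
    rw [this, pow_mul, hz, one_pow]
  set x : R := z ^ a * z ^ ((N - 1) * b) with hx
  have hxN : x ^ N = 1 := by
    rw [hx, ← pow_add, ← pow_mul, mul_comm, pow_mul, hz, one_pow]
  have hx1 : x = 1 := by
    by_contra hne
    have hs : ∑ i ∈ Finset.range N, x ^ i = 0 := by
      have h1 := geom_sum_mul x N
      rw [hxN, sub_self] at h1
      exact (mul_eq_zero.1 h1).resolve_right (sub_ne_zero.2 hne)
    have hxP : Ideal.Quotient.mk P x = 1 := by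
      have h2 : x - 1 = (z ^ a - z ^ b) * z ^ ((N - 1) * b) := by
        rw [hx, sub_mul, hzu]
      rw [← map_one (Ideal.Quotient.mk P), Ideal.Quotient.eq, h2]
      exact P.mul_mem_right _ h
    have hNP : (N : R) ∈ P := by
      rw [← Ideal.Quotient.eq_zero_iff_mem, map_natCast]
      have h3 := congrArg (Ideal.Quotient.mk P) hs
      simpa [map_sum, hxP] using h3
    have h1P : (1 : R) ∈ P := by
      obtain ⟨u, v, huv⟩ := (Nat.isCoprime_iff_coprime.2 hqN)
      have h4 : (1 : R) = (u : R) * (q : R) + (v : R) * (N : R) := by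
        exact_mod_cast congrArg (Int.cast : ℤ → R) huv.symm
      rw [h4]
      exact P.add_mem (P.mul_mem_left _ hP) (P.mul_mem_left _ hNP)
    exact Ideal.IsPrime.ne_top ‹_› ((Ideal.eq_top_iff_one P).2 h1P)
  calc z ^ a = z ^ a * (z ^ b * z ^ ((N - 1) * b)) := by rw [hzu, mul_one]
    _ = x * z ^ b := by rw [hx]; ring
    _ = z ^ b := by rw [hx1, one_mul]

variable (F : Type) [Field F] [NumberField F] (l : ℕ) [Fact l.Prime]

/-- The `l`-adic cyclotomic character of `G_F`. -/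
def cycF : GF F →* ℤ_[l]ˣ :=
  (cyclotomicCharacter (AlgebraicClosure F) l).comp
    { toFun := fun g => (g : AlgebraicClosure F ≃+* AlgebraicClosure F)
      map_one' := rfl
      map_mul' := fun _ _ => rfl }

/-- The character `φ ∘ ε` of `G_F`, with values in `ℚ̄_lˣ = GL_1(ℚ̄_l)`. -/
def rhoF (φ : ℤ_[l]ˣ →* (PadicAlgCl l)ˣ) : GF F →* (PadicAlgCl l)ˣ := φ.comp (cycF F l)

theorem continuous_cycF : Continuous (cycF F l) :=
  cyclotomicCharacter.continuous l F (AlgebraicClosure F)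

theorem continuous_toUnits : Continuous (toUnits l) := by
  refine Continuous.units_map _ ?_
  exact (continuous_algebraMap ℚ_[l] (PadicAlgCl l)).comp continuous_subtype_val

variable {l}

theorem continuous_rhoF {φ : ℤ_[l]ˣ →* (PadicAlgCl l)ˣ} (hφ : Continuous φ) :
    Continuous (rhoF F l φ) :=
  hφ.comp (continuous_cycF F l)

variable {F}

theorem cycF_spec (g : GF F) {k : ℕ} {t : AlgebraicClosure F}
    (ht : t ^ l ^ k = 1) : g t = t ^ ((cycF F l g : ℤ_[l]).toZModPow k).val :=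
  cyclotomicCharacter.spec (L := AlgebraicClosure F) l
    (g : AlgebraicClosure F ≃+* AlgebraicClosure F) t ht

theorem cycF_of_actsAs {q : ℕ} (hq : q.Prime) (hql : q ≠ l)
    (P : Ideal (Zb F)) [P.IsPrime] (hP : (q : Zb F) ∈ P) (g : GF F) (n : ℕ)
    (hg : ActsAs g P n) : ((cycF F l g : ℤ_[l]ˣ) : ℤ_[l]) = n := by
  refine eq_of_forall_pow_dvd fun k => ?_
  obtain ⟨ζ, hζ⟩ := HasEnoughRootsOfUnity.exists_primitiveRoot (AlgebraicClosure F) (l ^ k)
  have hl : l.Prime := Fact.out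
  have hpos : 0 < l ^ k := pow_pos hl.pos k
  have hint : IsIntegral (𝓞 F) ζ := hζ.isIntegral hpos |>.tower_top
  let z : Zb F := ⟨ζ, hint⟩
  have hz : z ^ (l ^ k) = 1 := Subtype.ext hζ.pow_eq_one
  obtain ⟨y, hy, hyz⟩ := hg z
  have h1 : g ζ = ζ ^ ((cycF F l g : ℤ_[l]).toZModPow k).val := cycF_spec g hζ.pow_eq_one
  have h2 : y = z ^ ((cycF F l g : ℤ_[l]).toZModPow k).val - z ^ n := by
    apply Subtype.ext
    rw [hyz]
    push_cast
    rw [show g (z : AlgebraicClosure F) = _ from h1]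
  have h3 := pow_eq_of_sub_mem (N := l ^ k)
    (Nat.Coprime.pow_right k ((Nat.coprime_primes hq hl).2 hql)) P hP hz (h2 ▸ hy)
  have h4 : ζ ^ ((cycF F l g : ℤ_[l]).toZModPow k).val = ζ ^ n := congrArg Subtype.val h3
  have h5 : ((cycF F l g : ℤ_[l]).toZModPow k).val = n % l ^ k := by
    refine hζ.pow_inj (ZMod.val_lt _) (Nat.mod_lt _ hpos) ?_
    rw [h4]
    conv_lhs => rw [← Nat.div_add_mod n (l ^ k), pow_add, pow_mul, hζ.pow_eq_one, one_pow,
      one_mul]
  have h6 := pow_dvd_sub_val (l := l) (cycF F l g : ℤ_[l]) k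
  have h7 : (l : ℤ_[l]) ^ k ∣ (((n % l ^ k : ℕ) : ℤ_[l]) - (n : ℤ_[l])) := by
    refine ⟨-((n / l ^ k : ℕ) : ℤ_[l]), ?_⟩
    have h8 : ((n : ℕ) : ℤ_[l]) = ((l ^ k * (n / l ^ k) + n % l ^ k : ℕ) : ℤ_[l]) := by
      rw [Nat.div_add_mod]
    rw [h8]
    push_cast
    ring
  rw [h5] at h6
  have h9 := dvd_add h6 h7
  rwa [sub_add_sub_cancel] at h9

theorem comap_ne_bot {P : Ideal (Zb F)} (hP : P ≠ ⊥) :
    P.comap (algebraMap (𝓞 F) (Zb F)) ≠ ⊥ := fun h => hP (Ideal.eq_bot_of_comap_eq_bot h)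

/-- The residue characteristic. -/
theorem exists_resChar (P : Ideal (Zb F)) [P.IsPrime] (hP : P ≠ ⊥) :
    ∃ q : ℕ, q.Prime ∧ (q : Zb F) ∈ P ∧ ∃ f : ℕ, 0 < f ∧ resCard P = q ^ f := by
  have h0 := comap_ne_bot hP
  set p := P.comap (algebraMap (𝓞 F) (Zb F)) with hp
  have hpp : p.IsPrime := Ideal.IsPrime.comap _
  have hmax : p.IsMaximal := hpp.isMaximal h0
  let _ : Field (𝓞 F ⧸ p) := Ideal.Quotient.field p
  have _ : Finite (𝓞 F ⧸ p) := Ring.HasFiniteQuotients.finiteQuotient h0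
  let _ : Fintype (𝓞 F ⧸ p) := Fintype.ofFinite _
  obtain ⟨n, hq, hn⟩ := FiniteField.card (𝓞 F ⧸ p) (ringChar (𝓞 F ⧸ p))
  refine ⟨ringChar (𝓞 F ⧸ p), hq, ?_, n, n.pos, ?_⟩
  · have h1 : ((ringChar (𝓞 F ⧸ p) : ℕ) : 𝓞 F) ∈ p := by
      rw [← Ideal.Quotient.eq_zero_iff_mem, map_natCast]
      exact CharP.cast_eq_zero _ _
    have h2 := Ideal.mem_comap.1 (hp ▸ h1)
    simpa using h2
  · rw [resCard, ← hp, Nat.card_eq_fintype_card, hn]

theorem isWeil_of_pow {q m : ℕ} (hm : 0 < m) {α : PadicAlgCl l}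
    (hα : α ^ (2 * m) = (q : PadicAlgCl l) ^ m) : IsIntegral ℤ α ∧ IsWeil q 1 α := by
  have h2m : 0 < 2 * m := by omega
  have hint : IsIntegral ℤ α := by
    refine IsIntegral.of_pow h2m ?_
    rw [hα]
    exact (isIntegral_natCast q).pow m
  refine ⟨hint, (hint.tower_top (A := ℚ)).isAlgebraic, ?_⟩
  intro z hz
  have h1 : Polynomial.aeval α (Polynomial.X ^ (2 * m) - Polynomial.C ((q : ℚ) ^ m)) = 0 := by
    simp [hα]
  obtain ⟨c, hc⟩ := minpoly.dvd ℚ α h1
  have h2 : z ^ (2 * m) = (q : ℂ) ^ m := by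
    have h3 := congrArg (Polynomial.aeval z) hc
    rw [map_mul, hz, zero_mul] at h3
    simpa [sub_eq_zero] using h3
  have h4 : (‖z‖ ^ 2) ^ m = (q : ℝ) ^ m := by
    rw [← pow_mul, ← norm_pow, h2, norm_pow, Complex.norm_natCast]
  have h5 : ‖z‖ ^ 2 = (q : ℝ) :=
    (pow_left_inj₀ (by positivity) (by positivity) hm.ne').1 h4
  rw [Int.cast_one, ← Real.sqrt_eq_rpow, ← h5, Real.sqrt_sq (norm_nonneg z)]

theorem rhoF_pure (m : ℕ) (hm : 0 < m) {φ : ℤ_[l]ˣ →* (PadicAlgCl l)ˣ}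
    (hφ : ∀ u, φ u ^ (2 * m) = (toUnits l u)⁻¹ ^ m) (P : Ideal (Zb F)) [P.IsPrime]
    (hP : P ≠ ⊥) (hlP : (l : Zb F) ∉ P) : UnramifiedIntegralPure (rhoF F l φ) 1 P := by
  obtain ⟨q, hq, hqP, f, -, hf⟩ := exists_resChar P hP
  have hql : q ≠ l := by
    rintro rfl
    exact hlP hqP
  have key : ∀ σ : GF F, IsGeomFrob P σ → IsIntegral ℤ ((rhoF F l φ σ : (PadicAlgCl l)ˣ) :
      PadicAlgCl l) ∧ IsWeil (resCard P) 1 ((rhoF F l φ σ : (PadicAlgCl l)ˣ) : PadicAlgCl l) := by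
    intro σ hσ
    have h3 := cycF_of_actsAs (l := l) hq hql P hqP σ⁻¹ (resCard P) hσ
    refine isWeil_of_pow hm ?_
    have h4 : (rhoF F l φ σ) ^ (2 * m) = toUnits l (cycF F l σ⁻¹ ^ m) := by
      rw [rhoF, MonoidHom.comp_apply, hφ, ← map_inv, ← map_inv, ← map_pow]
    rw [← Units.val_pow_eq_pow_val, h4, map_pow, Units.val_pow_eq_pow_val]
    congr 1
    change algebraMap ℚ_[l] (PadicAlgCl l) (algebraMap ℤ_[l] ℚ_[l]
      ((cycF F l σ⁻¹ : ℤ_[l]ˣ) : ℤ_[l])) = _
    rw [h3, map_natCast, map_natCast]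
  refine ⟨fun σ hσ => ?_, fun σ hσ => (key σ hσ).1, fun σ hσ => (key σ hσ).2⟩
  have h3 := cycF_of_actsAs (l := l) hq hql P hqP σ 1 hσ
  have h4 : cycF F l σ = 1 := by
    ext
    simpa using h3
  rw [rhoF, MonoidHom.comp_apply, h4, map_one]

theorem cycF_localRestrict (ι : AlgebraicClosure F →+* PadicAlgCl l)
    (g : (Fv ι).fixingSubgroup) : cycF F l (localRestrict ι g) = cyc (g : Gp l) := by
  ext
  refine (eq_of_forall_pow_dvd fun k => ?_).symm
  obtain ⟨ζ, hζ⟩ := HasEnoughRootsOfUnity.exists_primitiveRoot (AlgebraicClosure F) (l ^ k)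
  have h1 := cycF_spec (l := l) (localRestrict ι g) hζ.pow_eq_one
  have h2 := localRestrict_spec ι g ζ
  rw [h1, map_pow] at h2
  have h3 := cyc_of_primitive (g : Gp l) (hζ.map_of_injective ι.injective) _ h2.symm
  have h4 := pow_dvd_sub_val (l := l) (cycF F l (localRestrict ι g) : ℤ_[l]) k
  have h5 := dvd_sub h3 h4
  rwa [sub_sub_sub_cancel_right] at h5

theorem finiteDimensional_Fv (ι : AlgebraicClosure F →+* PadicAlgCl l) :
    FiniteDimensional ℚ_[l] (Fv ι) := by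
  let b := Module.finBasis ℚ F
  let S : Set (PadicAlgCl l) := Set.range fun i => ι (algebraMap F (AlgebraicClosure F) (b i))
  have hS : ∀ x ∈ S, IsIntegral ℚ_[l] x := by
    rintro _ ⟨i, rfl⟩
    have h1 : IsIntegral ℚ (b i) := Algebra.IsIntegral.isIntegral _
    obtain ⟨p, hp, hp0⟩ := h1
    refine ⟨p.map (algebraMap ℚ ℚ_[l]), hp.map _, ?_⟩
    rw [Polynomial.eval₂_map]
    have h2 := congrArg (fun x => ι (algebraMap F (AlgebraicClosure F) x)) hp0
    simp only [map_zero] at h2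
    rw [← h2, ← RingHom.comp_apply, Polynomial.hom_eval₂]
    congr 1
    exact RingHom.ext_rat _ _
  have hfin : FiniteDimensional ℚ_[l] (IntermediateField.adjoin ℚ_[l] S) :=
    IntermediateField.finiteDimensional_adjoin hS
  have hle : Fv ι ≤ IntermediateField.adjoin ℚ_[l] S := by
    refine IntermediateField.adjoin_le_iff.2 ?_
    rintro _ ⟨x, rfl⟩
    have hx := b.sum_repr x
    change ι (algebraMap F (AlgebraicClosure F) x) ∈ _
    rw [← hx, map_sum, map_sum]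
    refine sum_mem fun i _ => ?_
    rw [Algebra.smul_def, map_mul, map_mul]
    refine mul_mem ?_ (IntermediateField.subset_adjoin _ _ ⟨i, rfl⟩)
    rw [eq_ratCast, map_ratCast, map_ratCast]
    have := (IntermediateField.adjoin ℚ_[l] S).algebraMap_mem ((b.repr x i : ℚ) : ℚ_[l])
    rwa [map_ratCast] at this
  exact Module.Finite.of_injective (IntermediateField.inclusion hle).toLinearMap
    (IntermediateField.inclusion_injective hle)

end Helper75K9.FM
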