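import Mathlib
import Pool.Agent.Helper75K9.FM.Defs

/-!
# Existence of Frobenius elements in `G_F`
-/

set_option linter.all false

noncomputable section

open NumberField

namespace Helper75K9.FM

section
variable (F : Type) [Field F]

/-- The Galois group acts on `Z̄`. -/
def galZb (σ : GF F) (x : Zb F) : Zb F :=
  ⟨σ (x : AlgebraicClosure F), by
    have h : IsIntegral (𝓞 F) (x : AlgebraicClosure F) := x.2
    exact h.map (σ.restrictScalars (𝓞 F)).toAlgHom⟩

@[simp] theorem coe_galZb (σ : GF F) (x : Zb F) :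
    ((galZb F σ x : Zb F) : AlgebraicClosure F) = σ (x : AlgebraicClosure F) := rfl

/-- The action of `G_F` on `Z̄` as a `MulSemiringAction`. -/
@[implicit_reducible]
def actZb : MulSemiringAction (GF F) (Zb F) where
  smul := galZb F
  one_smul x := Subtype.ext rfl
  mul_smul σ τ x := Subtype.ext rfl
  smul_zero σ := Subtype.ext (map_zero σ)
  smul_add σ x y := Subtype.ext (map_add σ _ _)
  smul_one σ := Subtype.ext (map_one σ)
  smul_mul σ x y := Subtype.ext (map_mul σ _ _)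

end

variable {F : Type} [Field F] [NumberField F]

theorem exists_actsAs (P : Ideal (Zb F)) (hP : P.IsPrime) (h0 : P ≠ ⊥) :
    ∃ σ : GF F, ActsAs σ P (resCard P) := by
  letI := actZb F
  have hsm : ∀ (σ : GF F) (x : Zb F), σ • x = galZb F σ x := fun _ _ => rfl
  haveI : SMulCommClass (GF F) (𝓞 F) (Zb F) := ⟨fun σ a x => by
    rw [hsm, hsm]
    apply Subtype.ext
    rw [coe_galZb]
    change σ (a • (x : AlgebraicClosure F)) = a • σ (x : AlgebraicClosure F)
    exact (σ.restrictScalars (𝓞 F)).toAlgHom.toLinearMap.map_smul a _⟩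
  haveI hint : Algebra.IsIntegral (𝓞 F) (Zb F) := by infer_instance
  haveI : Algebra.IsInvariant (𝓞 F) (Zb F) (GF F) := ⟨fun b hb => by
    have h1 : (b : AlgebraicClosure F) ∈ (⊥ : IntermediateField F (AlgebraicClosure F)) := by
      rw [InfiniteGalois.mem_bot_iff_fixed]
      intro g
      have := congrArg (fun z : Zb F => (z : AlgebraicClosure F)) (hb g)
      exact this
    rw [IntermediateField.mem_bot] at h1
    obtain ⟨k, hk⟩ := h1
    have hb : IsIntegral (𝓞 F) (b : AlgebraicClosure F) := b.2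
    rw [← hk, isIntegral_algebraMap_iff (FaithfulSMul.algebraMap_injective F _)] at hb
    obtain ⟨a, rfl⟩ := IsIntegrallyClosed.algebraMap_eq_of_integral hb
    exact ⟨a, Subtype.ext hk⟩⟩
  letI : TopologicalSpace (Zb F) := ⊥
  haveI : DiscreteTopology (Zb F) := ⟨rfl⟩
  haveI : ContinuousSMul (GF F) (Zb F) := by
    rw [continuousSMul_iff_stabilizer_isOpen]
    intro x
    have hfin : FiniteDimensional F (IntermediateField.adjoin F {(x : AlgebraicClosure F)}) :=
      IntermediateField.adjoin.finiteDimensional (Algebra.IsIntegral.isIntegral _)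
    refine Subgroup.isOpen_mono (H₁ := (IntermediateField.adjoin F
      {(x : AlgebraicClosure F)}).fixingSubgroup) ?_
      (IntermediateField.fixingSubgroup_isOpen _)
    intro σ hσ
    rw [MulAction.mem_stabilizer_iff]
    apply Subtype.ext
    exact (IntermediateField.mem_fixingSubgroup_iff _ _).1 hσ _
      (IntermediateField.subset_adjoin _ _ rfl)
  set p : Ideal (𝓞 F) := P.under (𝓞 F) with hp
  haveI : P.LiesOver p := ⟨rfl⟩
  haveI hpm : p.IsPrime := inferInstance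
  have hp0 : p ≠ ⊥ := by
    intro h
    exact h0 (Ideal.eq_bot_of_comap_eq_bot (R := 𝓞 F) h)
  haveI hpmax : p.IsMaximal := hpm.isMaximal hp0
  haveI hPmax : P.IsMaximal := Ideal.IsMaximal.of_liesOver_isMaximal P p
  have hsurj := Ideal.Quotient.stabilizerHom_surjective_of_profinite (G := GF F) p P
  letI : Field (𝓞 F ⧸ p) := Ideal.Quotient.field p
  letI : Field (Zb F ⧸ P) := Ideal.Quotient.field P
  haveI : Finite (𝓞 F ⧸ p) := Ideal.finiteQuotientOfFreeOfNeBot p hp0
  letI := Fintype.ofFinite (𝓞 F ⧸ p)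
  haveI : Algebra.IsIntegral (𝓞 F ⧸ p) (Zb F ⧸ P) :=
    Ideal.Quotient.algebra_isIntegral_of_liesOver P p
  haveI : Algebra.IsAlgebraic (𝓞 F ⧸ p) (Zb F ⧸ P) := Algebra.IsIntegral.isAlgebraic
  haveI : Module.IsTorsionFree (𝓞 F ⧸ p) (Zb F ⧸ P) := ⟨by
    intro r hr x y hxy
    have hr0 : algebraMap (𝓞 F ⧸ p) (Zb F ⧸ P) r ≠ 0 := by
      have := (algebraMap (𝓞 F ⧸ p) (Zb F ⧸ P)).injective
      intro h
      rw [map_eq_zero_iff _ this] at h
      subst h
      exact absurd (hr.left (by simp : (0 : 𝓞 F ⧸ p) * 0 = 0 * 1)) (by simp)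
    have h2 : algebraMap (𝓞 F ⧸ p) (Zb F ⧸ P) r * x = algebraMap (𝓞 F ⧸ p) (Zb F ⧸ P) r * y := by
      simpa only [Algebra.smul_def] using hxy
    exact mul_left_cancel₀ hr0 h2⟩
  let f : (Zb F ⧸ P) →ₐ[𝓞 F ⧸ p] (Zb F ⧸ P) := FiniteField.frobeniusAlgHom (𝓞 F ⧸ p) (Zb F ⧸ P)
  let e : (Zb F ⧸ P) ≃ₐ[𝓞 F ⧸ p] (Zb F ⧸ P) :=
    AlgEquiv.ofBijective f (Algebra.IsAlgebraic.algHom_bijective f)
  obtain ⟨σ, hσ⟩ := hsurj e
  refine ⟨σ, fun x => ?_⟩
  have h1 : Ideal.Quotient.mk P ((σ : GF F) • x) = (Ideal.Quotient.mk P x) ^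
      Fintype.card (𝓞 F ⧸ p) := by
    have := DFunLike.congr_fun hσ (Ideal.Quotient.mk P x)
    exact this
  have h2 : resCard P = Fintype.card (𝓞 F ⧸ p) := Nat.card_eq_fintype_card
  rw [← map_pow, Ideal.Quotient.eq, ← h2] at h1
  exact ⟨_, h1, rfl⟩

/-- At every prime `P ≠ 0` of `Z̄` there is a geometric Frobenius. -/
theorem exists_isGeomFrob (P : Ideal (Zb F)) (hP : P.IsPrime) (h0 : P ≠ ⊥) :
    ∃ σ : GF F, IsGeomFrob P σ := by
  obtain ⟨σ, hσ⟩ := exists_actsAs P hP h0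
  exact ⟨σ⁻¹, by rw [IsGeomFrob, inv_inv]; exact hσ⟩

/-- Above every prime `v ≠ 0` of `𝓞 F` there is a prime `P ≠ 0` of `Z̄`. -/
theorem exists_prime_over (v : Ideal (𝓞 F)) (hv : v.IsPrime) (h0 : v ≠ ⊥) :
    ∃ P : Ideal (Zb F), P.IsPrime ∧ P ≠ ⊥ ∧ P.comap (algebraMap (𝓞 F) (Zb F)) = v := by
  have hinj : Function.Injective (algebraMap (𝓞 F) (Zb F)) := FaithfulSMul.algebraMap_injective _ _
  have hker : RingHom.ker (algebraMap (𝓞 F) (Zb F)) ≤ v := by
    rw [(RingHom.injective_iff_ker_eq_bot _).1 hinj]; exact bot_le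
  obtain ⟨P, hP, hPv⟩ := Ideal.exists_ideal_over_prime_of_isIntegral_of_isDomain v hker
  refine ⟨P, hP, ?_, hPv⟩
  rintro rfl
  apply h0
  rw [← hPv]
  exact (RingHom.injective_iff_ker_eq_bot _).1 hinj

end Helper75K9.FM
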