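import Mathlib
import Pool.Agent.Helper75K9.FM.Base
import Pool.Agent.Helper75K9.FM.DdRZero
import Pool.Agent.Helper75K9.FM.Global
import Pool.Agent.Helper75K9.FM.GlobalF

/-!
# A continuous character `φ` of `ℤ_lˣ` with `φ(u)^{2m} = u^{-m}`, for every prime `l`

On the open subgroup `U = {u : ‖u - 1‖ < ‖2‖²}` there is a continuous square root character by
Hensel's lemma; it is extended to `ℤ_lˣ` because the unit group of an algebraically closed field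
is divisible.
-/

noncomputable section

namespace Helper75K9.FM

variable {l : ℕ} [Fact l.Prime]

theorem norm_two_pos : 0 < ‖(2 : ℤ_[l])‖ := norm_pos_iff.2 two_ne_zero

theorem norm_two_le : ‖(2 : ℤ_[l])‖ ≤ 1 := PadicInt.norm_le_one _

theorem norm_mul_sub_one_lt' {a b : ℤ_[l]} {r : ℝ} (ha : ‖a - 1‖ < r)
    (hb : ‖b - 1‖ < r) : ‖a * b - 1‖ < r := by
  have h : a * b - 1 = a * (b - 1) + (a - 1) := by ring
  rw [h]
  refine lt_of_le_of_lt (IsUltrametricDist.norm_add_le_max _ _) (max_lt ?_ ha)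
  rw [norm_mul]
  exact lt_of_le_of_lt (mul_le_of_le_one_left (norm_nonneg _) (PadicInt.norm_le_one _)) hb

theorem norm_inv_sub_one (u : ℤ_[l]ˣ) :
    ‖((u⁻¹ : ℤ_[l]ˣ) : ℤ_[l]) - 1‖ = ‖(u : ℤ_[l]) - 1‖ := by
  have h : ((u⁻¹ : ℤ_[l]ˣ) : ℤ_[l]) - 1 = -(((u⁻¹ : ℤ_[l]ˣ) : ℤ_[l]) * ((u : ℤ_[l]) - 1)) := by
    rw [mul_sub, ← Units.val_mul, inv_mul_cancel, Units.val_one]; ring
  rw [h, norm_neg, norm_mul, PadicInt.norm_units, one_mul]

/-- The open subgroup `‖u - 1‖ < ‖2‖²`. -/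
def U2 (l : ℕ) [Fact l.Prime] : Subgroup ℤ_[l]ˣ where
  carrier := {u | ‖(u : ℤ_[l]) - 1‖ < ‖(2 : ℤ_[l])‖ ^ 2}
  mul_mem' := fun {a b} ha hb => by
    simp only [Set.mem_ofPred_eq, Units.val_mul] at *
    exact norm_mul_sub_one_lt' ha hb
  one_mem' := by
    have := norm_two_pos (l := l)
    simp only [Set.mem_ofPred_eq, Units.val_one, sub_self, norm_zero]
    positivity
  inv_mem' := fun {a} ha => by
    simp only [Set.mem_ofPred_eq] at *
    rwa [norm_inv_sub_one]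

theorem mem_U2 {u : ℤ_[l]ˣ} : u ∈ U2 l ↔ ‖(u : ℤ_[l]) - 1‖ < ‖(2 : ℤ_[l])‖ ^ 2 := Iff.rfl

theorem isOpen_U2 : IsOpen ((U2 l : Subgroup ℤ_[l]ˣ) : Set ℤ_[l]ˣ) := by
  have : ((U2 l : Subgroup ℤ_[l]ˣ) : Set ℤ_[l]ˣ) =
      (fun u : ℤ_[l]ˣ => ‖(u : ℤ_[l]) - 1‖) ⁻¹' Set.Iio (‖(2 : ℤ_[l])‖ ^ 2) := rfl
  rw [this]
  exact isOpen_Iio.preimage ((Units.continuous_val.sub continuous_const).norm)

theorem exists_sqrt {x : ℤ_[l]} (hx : ‖x - 1‖ < ‖(2 : ℤ_[l])‖ ^ 2) :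
    ∃ z : ℤ_[l], ‖z - 1‖ < ‖(2 : ℤ_[l])‖ ∧ z ^ 2 = x := by
  have hd : Polynomial.aeval (1 : ℤ_[l])
      (Polynomial.derivative (Polynomial.X ^ 2 - Polynomial.C x)) = (2 : ℤ_[l]) := by
    simp only [Polynomial.derivative_sub, Polynomial.derivative_X_pow, Polynomial.derivative_C,
      sub_zero]
    norm_num
  have he : Polynomial.aeval (1 : ℤ_[l]) (Polynomial.X ^ 2 - Polynomial.C x : Polynomial ℤ_[l])
      = 1 - x := by
    simp
  obtain ⟨z, hz, hz1, -, -⟩ := hensels_lemma (p := l)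
    (F := (Polynomial.X ^ 2 - Polynomial.C x : Polynomial ℤ_[l])) (a := (1 : ℤ_[l])) (by
      rw [hd, he, norm_sub_rev]
      exact hx)
  refine ⟨z, ?_, ?_⟩
  · rw [hd] at hz1
    exact hz1
  · have : z ^ 2 - x = 0 := by simpa using hz
    exact sub_eq_zero.1 this

theorem norm_add_eq_two {a b : ℤ_[l]} (ha : ‖a - 1‖ < ‖(2 : ℤ_[l])‖)
    (hb : ‖b - 1‖ < ‖(2 : ℤ_[l])‖) : ‖a + b‖ = ‖(2 : ℤ_[l])‖ := by
  have h1 : ‖(a - 1) + (b - 1)‖ < ‖(2 : ℤ_[l])‖ :=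
    lt_of_le_of_lt (IsUltrametricDist.norm_add_le_max _ _) (max_lt ha hb)
  have h2 : a + b = 2 + ((a - 1) + (b - 1)) := by ring
  rw [h2]
  have h3 := PadicInt.norm_add_eq_max_of_ne (q := (2 : ℤ_[l])) (r := (a - 1) + (b - 1)) h1.ne'
  rw [h3, max_eq_left h1.le]

theorem norm_sub_mul_two {a b : ℤ_[l]} (ha : ‖a - 1‖ < ‖(2 : ℤ_[l])‖)
    (hb : ‖b - 1‖ < ‖(2 : ℤ_[l])‖) : ‖a - b‖ * ‖(2 : ℤ_[l])‖ = ‖a ^ 2 - b ^ 2‖ := by
  rw [← norm_add_eq_two ha hb, ← norm_mul]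
  congr 1
  ring

theorem sqrt_unique {a b : ℤ_[l]} (ha : ‖a - 1‖ < ‖(2 : ℤ_[l])‖)
    (hb : ‖b - 1‖ < ‖(2 : ℤ_[l])‖) (h : a ^ 2 = b ^ 2) : a = b := by
  have h1 := norm_sub_mul_two ha hb
  rw [h, sub_self, norm_zero] at h1
  rcases mul_eq_zero.1 h1 with h2 | h2
  · exact sub_eq_zero.1 (norm_eq_zero.1 h2)
  · exact absurd h2 norm_two_pos.ne'

/-- Continuous square root character on `U2`. -/
theorem exists_sqrtChar (l : ℕ) [Fact l.Prime] : ∃ r : U2 l →* ℤ_[l]ˣ,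
    Continuous r ∧ ∀ u, r u ^ 2 = u := by
  have hex : ∀ u : U2 l, ∃ z : ℤ_[l], ‖z - 1‖ < ‖(2 : ℤ_[l])‖ ∧
      z ^ 2 = (((u : U2 l) : ℤ_[l]ˣ) : ℤ_[l]) := fun u => exists_sqrt (mem_U2.1 u.2)
  choose z hz1 hz2 using hex
  have hunit : ∀ u, IsUnit (z u) := fun u => by
    have h : IsUnit (z u ^ 2) := by
      rw [hz2]; exact Units.isUnit _
    exact (isUnit_pow_iff two_ne_zero).1 h
  have hmul : ∀ u v, z (u * v) = z u * z v := fun u v => by
    refine sqrt_unique (hz1 _) (norm_mul_sub_one_lt' (hz1 u) (hz1 v)) ?_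
    rw [mul_pow, hz2, hz2, hz2, Subgroup.coe_mul, Units.val_mul]
  have hcont : Continuous z := by
    rw [continuous_iff_continuousAt]
    intro v
    rw [ContinuousAt, tendsto_iff_dist_tendsto_zero]
    have h2 : ∀ u, dist (z u) (z v) = dist (((u : U2 l) : ℤ_[l]ˣ) : ℤ_[l])
        (((v : U2 l) : ℤ_[l]ˣ) : ℤ_[l]) / ‖(2 : ℤ_[l])‖ := fun u => by
      rw [eq_div_iff norm_two_pos.ne', dist_eq_norm, dist_eq_norm, ← hz2, ← hz2,
        norm_sub_mul_two (hz1 _) (hz1 _)]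
    simp only [h2]
    rw [show (0 : ℝ) = 0 / ‖(2 : ℤ_[l])‖ by simp]
    refine Filter.Tendsto.div_const ?_ _
    rw [← tendsto_iff_dist_tendsto_zero]
    exact (Units.continuous_val.comp continuous_subtype_val).tendsto v
  have hone : z 1 = 1 := by
    have h1 := hmul 1 1
    rw [mul_one] at h1
    exact (hunit 1).mul_left_cancel (by rw [mul_one]; exact h1.symm)
  refine ⟨⟨⟨fun u => (hunit u).unit, ?_⟩, ?_⟩, ?_, ?_⟩
  · ext; simpa using hone
  · intro u v; ext; simpa using hmul u v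
  · rw [Units.continuous_iff]
    refine ⟨hcont, ?_⟩
    have h3 : ∀ u : U2 l, (((hunit u).unit⁻¹ : ℤ_[l]ˣ) : ℤ_[l]) = z u⁻¹ := fun u => by
      have h4 : (hunit u).unit * (hunit u⁻¹).unit = 1 := by
        ext
        simp only [Units.val_mul, IsUnit.unit_spec, Units.val_one, ← hmul, mul_inv_cancel, hone]
      rw [inv_eq_of_mul_eq_one_right h4, IsUnit.unit_spec]
    exact (hcont.comp continuous_inv).congr fun u => (h3 u).symm
  · intro u; ext; simpa using hz2 u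

/-- The unit group of an algebraically closed field is divisible, so characters extend. -/
theorem exists_extend {G K : Type*} [CommGroup G] [Field K] [IsAlgClosed K] (H : Subgroup G)
    (f : H →* Kˣ) : ∃ g : G →* Kˣ, ∀ h : H, g h = f h := by
  have hsurj : ∀ {n : ℕ}, n ≠ 0 → Function.Surjective (fun a => a ^ n : Kˣ → Kˣ) := by
    intro n hn y
    obtain ⟨z, hz⟩ := IsAlgClosed.exists_pow_nat_eq (y : K) (Nat.pos_of_ne_zero hn)
    have hz0 : z ≠ 0 := by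
      rintro rfl
      rw [zero_pow hn] at hz
      exact y.ne_zero hz.symm
    exact ⟨Units.mk0 z hz0, Units.ext (by simpa using hz)⟩
  let _ : RootableBy Kˣ ℕ := rootableByOfPowLeftSurj Kˣ ℕ hsurj
  let _ : RootableBy Kˣ ℤ := Group.rootableByIntOfRootableByNat Kˣ
  let _ : DivisibleBy (Additive Kˣ) ℤ :=
    { div := fun a n => Additive.ofMul (RootableBy.root (Additive.toMul a) n)
      div_zero := fun a => congrArg Additive.ofMul (RootableBy.root_zero (Additive.toMul a))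
      div_cancel := fun {n} a hn =>
        congrArg Additive.ofMul (RootableBy.root_cancel (Additive.toMul a) hn) }
  obtain ⟨g, hg⟩ := (Module.Baer.of_divisible (Additive Kˣ)).extension_property_addMonoidHom
    (MonoidHom.toAdditive H.subtype) (fun a b h => by
      apply Additive.toMul.injective
      exact Subtype.ext (congrArg Additive.toMul h)) (MonoidHom.toAdditive f)
  refine ⟨MonoidHom.toAdditive.symm g, fun h => ?_⟩
  have := DFunLike.congr_fun hg (Additive.ofMul h)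
  exact congrArg Additive.toMul this

theorem mem_U2_of_dvd {u : ℤ_[l]ˣ} (hu : (l : ℤ_[l]) ^ 3 ∣ (u : ℤ_[l]) - 1) : u ∈ U2 l := by
  have hp : l.Prime := Fact.out
  have hl0 : (0 : ℝ) < l := by exact_mod_cast hp.pos
  have hl1 : (1 : ℝ) < l := by exact_mod_cast hp.one_lt
  rw [mem_U2]
  have h1 : ‖(u : ℤ_[l]) - 1‖ ≤ (l : ℝ) ^ (-(3 : ℕ) : ℤ) :=
    (PadicInt.norm_le_pow_iff_mem_span_pow _ 3).2 (Ideal.mem_span_singleton.2 hu)
  have h2 : (l : ℝ)⁻¹ ≤ ‖(2 : ℤ_[l])‖ := by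
    by_cases hl : l = 2
    · subst hl
      have := PadicInt.norm_p (p := 2)
      push_cast at this
      rw [this]
      norm_num
    · have h3 : ‖((2 : ℕ) : ℤ_[l])‖ = 1 := by
        rw [PadicInt.norm_natCast_eq_one_iff]
        exact (Nat.coprime_primes hp Nat.prime_two).2 hl
      rw [Nat.cast_ofNat] at h3
      rw [h3]
      exact (inv_lt_one_of_one_lt₀ hl1).le
  refine lt_of_le_of_lt h1 ?_
  have h4 : (l : ℝ) ^ (-(3 : ℕ) : ℤ) < (l : ℝ)⁻¹ ^ 2 := by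
    rw [zpow_neg, zpow_natCast, inv_pow]
    exact inv_strictAnti₀ (by positivity) (pow_lt_pow_right₀ hl1 (by norm_num))
  exact lt_of_lt_of_le h4 (pow_le_pow_left₀ (by positivity) h2 2)

theorem pow_mem_U2 (u : ℤ_[l]ˣ) : u ^ (Nat.totient (l ^ 3)) ∈ U2 l := by
  refine mem_U2_of_dvd ?_
  rw [← Ideal.mem_span_singleton, ← PadicInt.ker_toZModPow, RingHom.mem_ker, map_sub, map_one,
    Units.val_pow_eq_pow_val, map_pow]
  have h1 := ZMod.pow_totient (Units.map (PadicInt.toZModPow (p := l) 3 : ℤ_[l] →* ZMod (l ^ 3)) u)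
  have h2 := congrArg (Units.val) h1
  rw [Units.val_pow_eq_pow_val, Units.coe_map, Units.val_one] at h2
  rw [sub_eq_zero]
  exact h2

theorem exists_phi (l : ℕ) [Fact l.Prime] : ∃ (m : ℕ) (φ : ℤ_[l]ˣ →* (PadicAlgCl l)ˣ), 0 < m ∧
    Continuous φ ∧ (∀ u, φ u ^ (2 * m) = (toUnits l u)⁻¹ ^ m) ∧
    ∀ u : ℤ_[l]ˣ, (l : ℤ_[l]) ^ 3 ∣ (u : ℤ_[l]) - 1 → ∃ c : ℤ_[l]ˣ, φ u = toUnits l c := by
  obtain ⟨r, hrc, hr2⟩ := exists_sqrtChar l
  obtain ⟨φ, hφ⟩ := exists_extend (U2 l) ((toUnits l).comp r)⁻¹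
  have hp : l.Prime := Fact.out
  refine ⟨Nat.totient (l ^ 3), φ, Nat.totient_pos.2 (pow_pos hp.pos 3), ?_, ?_, ?_⟩
  · refine continuous_of_continuousAt_one φ ?_
    have h1 : Continuous (φ ∘ ((↑) : U2 l → ℤ_[l]ˣ)) := by
      have h2 : (φ ∘ ((↑) : U2 l → ℤ_[l]ˣ)) = fun u => (toUnits l (r u))⁻¹ := by
        funext u
        exact hφ u
      rw [h2]
      exact ((continuous_toUnits l).comp hrc).inv
    have h3 : ContinuousAt (φ ∘ ((↑) : U2 l → ℤ_[l]ˣ)) 1 := h1.continuousAt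
    exact (isOpen_U2.isOpenEmbedding_subtypeVal.continuousAt_iff).1 h3
  · intro u
    have h1 := hφ ⟨u ^ Nat.totient (l ^ 3), pow_mem_U2 u⟩
    have h2 : φ u ^ Nat.totient (l ^ 3) =
        (toUnits l (r ⟨u ^ Nat.totient (l ^ 3), pow_mem_U2 u⟩))⁻¹ := by
      rw [← map_pow]
      exact h1
    rw [mul_comm, pow_mul, h2, inv_pow, ← map_pow, hr2, map_pow, inv_pow]
  · intro u hu
    refine ⟨(r ⟨u, mem_U2_of_dvd hu⟩)⁻¹, ?_⟩
    rw [map_inv]
    exact hφ ⟨u, mem_U2_of_dvd hu⟩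

end Helper75K9.FM
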